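import Pool.Agent.H34W.Count

/-!
# Binomial coefficients, harmonic sums and records
-/

set_option autoImplicit false

namespace H34W

open Finset

/-- harmonic numbers -/
noncomputable def Hs (n : ℕ) : ℝ := ∑ j ∈ Icc 1 n, ((j : ℝ))⁻¹

lemma Hs_eq (n : ℕ) : Hs n = ((harmonic n : ℚ) : ℝ) := by
  rw [Hs, harmonic_eq_sum_Icc]
  push_cast
  rfl

lemma Hs_succ (n : ℕ) : Hs (n + 1) = Hs n + ((n + 1 : ℕ) : ℝ)⁻¹ := by
  rw [Hs, Hs, Finset.sum_Icc_succ_top (by omega)]

lemma log_le_Hs (n : ℕ) : Real.log n ≤ Hs n := by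
  rw [Hs_eq]
  refine le_trans ?_ (log_add_one_le_harmonic n)
  rcases Nat.eq_zero_or_pos n with rfl | hn
  · simp
  · refine Real.log_le_log (by exact_mod_cast hn) (by push_cast; linarith)

lemma Hs_le (n : ℕ) : Hs n ≤ 1 + Real.log n := by
  rw [Hs_eq]
  exact harmonic_le_one_add_log n

lemma Hs_sub_le {m n : ℕ} (h : m ≤ n) : Hs n - Hs m ≤ ((n : ℝ) - m) / (m + 1) := by
  induction n, h using Nat.le_induction with
  | base => simp
  | succ n hn ih =>
    rw [Hs_succ]
    have h1 : ((n + 1 : ℕ) : ℝ)⁻¹ ≤ 1 / ((m : ℝ) + 1) := by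
      rw [one_div]
      refine inv_anti₀ (by positivity) ?_
      push_cast
      have : (m : ℝ) ≤ n := by exact_mod_cast hn
      linarith
    have h2 : (((n + 1 : ℕ) : ℝ) - m) / (m + 1) = ((n : ℝ) - m) / (m + 1) + 1 / ((m : ℝ) + 1) := by
      rw [← add_div]
      push_cast
      ring
    rw [h2]
    linarith

lemma Hs_nonneg (n : ℕ) : 0 ≤ Hs n := Finset.sum_nonneg fun _ _ => by positivity

lemma two_mul_sub_div_le_log {a b : ℝ} (hb : 0 < b) (h : b ≤ a) :
    2 * (a - b) / (a + b) ≤ Real.log a - Real.log b := by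
  have hab : 0 < a + b := by linarith
  set x := (a - b) / (a + b) with hx
  have hx0 : 0 ≤ x := div_nonneg (by linarith) hab.le
  have hx1 : x < 1 := by rw [hx, div_lt_one hab]; linarith
  have hs := Real.hasSum_log_sub_log_of_abs_lt_one (x := x) (by rw [abs_of_nonneg hx0]; exact hx1)
  have h1 : 2 * x ≤ Real.log (1 + x) - Real.log (1 - x) := by
    have := le_hasSum hs 0 (fun k _ => by positivity)
    simpa using this
  have h2 : 1 + x = 2 * a / (a + b) := by rw [hx]; field_simp; ring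
  have h3 : 1 - x = 2 * b / (a + b) := by rw [hx]; field_simp; ring
  have ha : 0 < a := lt_of_lt_of_le hb h
  rw [h2, h3, Real.log_div (by positivity) hab.ne', Real.log_div (by positivity) hab.ne',
    Real.log_mul (by norm_num) ha.ne', Real.log_mul (by norm_num) hb.ne'] at h1
  rw [hx] at h1
  calc 2 * (a - b) / (a + b) = 2 * ((a - b) / (a + b)) := by ring
    _ ≤ _ := h1
    _ = _ := by ring

lemma log_choose_step {n i : ℕ} (h : 2 * i + 1 ≤ n) :
    2 * ((n : ℝ) - 2 * i - 1) / (n + 1) ≤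
      Real.log (n.choose (i + 1)) - Real.log (n.choose i) := by
  have h1 := Nat.choose_succ_right_eq n i
  have h2 : ((n.choose (i + 1) : ℝ)) * (i + 1) = n.choose i * ((n : ℝ) - i) := by
    have h3 : ((n.choose (i + 1) * (i + 1) : ℕ) : ℝ) = ((n.choose i * (n - i) : ℕ) : ℝ) := by
      rw [h1]
    rw [Nat.cast_mul, Nat.cast_mul, Nat.cast_sub (by omega)] at h3
    push_cast at h3
    exact h3
  have hp1 : (0 : ℝ) < n.choose (i + 1) := by exact_mod_cast Nat.choose_pos (by omega)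
  have hp2 : (0 : ℝ) < n.choose i := by exact_mod_cast Nat.choose_pos (by omega)
  have hn : (2 * (i : ℝ) + 1) ≤ n := by exact_mod_cast h
  have hi : (0 : ℝ) ≤ i := Nat.cast_nonneg i
  have h4 : Real.log (n.choose (i + 1)) + Real.log ((i : ℝ) + 1) =
      Real.log (n.choose i) + Real.log ((n : ℝ) - i) := by
    rw [← Real.log_mul hp1.ne' (by positivity), ← Real.log_mul hp2.ne' (by linarith), h2]
  have h5 := two_mul_sub_div_le_log (a := (n : ℝ) - i) (b := (i : ℝ) + 1) (by positivity)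
    (by linarith)
  have h6 : 2 * ((n : ℝ) - i - (i + 1)) / ((n : ℝ) - i + (i + 1)) =
      2 * ((n : ℝ) - 2 * i - 1) / (n + 1) := by
    congr 1 <;> ring
  rw [h6] at h5
  linarith

/-- lower bound for the logarithmic gap between the middle binomial coefficient and another one -/
lemma log_choose_gap {n : ℕ} (t : ℕ) (ht : t ≤ n / 2) :
    2 * (t : ℝ) * ((n : ℝ) - 2 * (n / 2 : ℕ) + t) / (n + 1) ≤
      Real.log (n.choose (n / 2)) - Real.log (n.choose (n / 2 - t)) := by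
  induction t with
  | zero => simp
  | succ t ih =>
    have h1 := ih (by omega)
    have h2 := log_choose_step (n := n) (i := n / 2 - (t + 1)) (by omega)
    rw [show n / 2 - (t + 1) + 1 = n / 2 - t by omega] at h2
    rw [Nat.cast_sub ht] at h2
    have h3 : 2 * ((t + 1 : ℕ) : ℝ) * ((n : ℝ) - 2 * (n / 2 : ℕ) + (t + 1 : ℕ)) / (n + 1) =
        2 * (t : ℝ) * ((n : ℝ) - 2 * (n / 2 : ℕ) + t) / (n + 1) +
        2 * ((n : ℝ) - 2 * ((n / 2 : ℕ) - ((t + 1 : ℕ) : ℝ)) - 1) / (n + 1) := by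
      rw [← add_div]
      congr 1
      push_cast
      ring
    rw [h3]
    linarith

lemma two_pow_le_mul_choose (n : ℕ) : 2 ^ n ≤ (n + 1) * n.choose (n / 2) := by
  rw [← Nat.sum_range_choose]
  calc ∑ m ∈ range (n + 1), n.choose m ≤ ∑ _m ∈ range (n + 1), n.choose (n / 2) :=
        Finset.sum_le_sum fun m _ => Nat.choose_le_middle m n
    _ = (n + 1) * n.choose (n / 2) := by simp

/-- the algebraic inequality between the gap and the number of steps -/
lemma gap_ge (K : ℕ) {n r : ℕ} (h : 2 * r + 2 * K + 2 ≤ n) :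
    2 * ((K : ℝ) + 1) ^ 2 / (2 * K + 1) * ((n : ℝ) - 2 * r - 1) / (n + 1) ≤
      Real.log (n.choose (n / 2)) - Real.log (n.choose r) := by
  obtain ⟨t, ht⟩ : ∃ t, n / 2 = r + t := ⟨n / 2 - r, by omega⟩
  have h1 := log_choose_gap (n := n) t (by omega)
  rw [show n / 2 - t = r by omega] at h1
  refine le_trans ?_ h1
  have hn1 : (0 : ℝ) < n + 1 := by positivity
  rw [div_le_div_iff_of_pos_right hn1]
  have hK : (0 : ℝ) < 2 * K + 1 := by positivity
  rw [div_mul_eq_mul_div, div_le_iff₀ hK]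
  have htK : ∃ u : ℕ, t = K + 1 + u := ⟨t - (K + 1), by omega⟩
  obtain ⟨u, rfl⟩ := htK
  have hu : (0 : ℝ) ≤ u := Nat.cast_nonneg u
  have hK0 : (0 : ℝ) ≤ K := Nat.cast_nonneg K
  rcases Nat.even_or_odd' n with ⟨m, hm | hm⟩
  · have hm2 : n / 2 = m := by omega
    have hmr : (m : ℝ) = r + (K + 1 + u) := by
      have : m = r + (K + 1 + u) := by omega
      exact_mod_cast this
    rw [hm2, hm]
    push_cast
    rw [hmr]
    have e1 : 2 * ((K : ℝ) + 1 + u) * (2 * (r + (K + 1 + u)) - 2 * (r + (K + 1 + u)) +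
        (K + 1 + u)) * (2 * K + 1) - 2 * ((K : ℝ) + 1) ^ 2 *
        (2 * (r + (K + 1 + u)) - 2 * r - 1) =
        2 * (2 * u * (K + 1) * K + (2 * K + 1) * u ^ 2) := by ring
    have e2 : (0 : ℝ) ≤ 2 * (2 * u * (K + 1) * K + (2 * K + 1) * u ^ 2) := by positivity
    linarith
  · have hm2 : n / 2 = m := by omega
    have hmr : (m : ℝ) = r + (K + 1 + u) := by
      have : m = r + (K + 1 + u) := by omega
      exact_mod_cast this
    rw [hm2, hm]
    push_cast
    rw [hmr]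
    have e1 : 2 * ((K : ℝ) + 1 + u) * (2 * (r + (K + 1 + u)) + 1 - 2 * (r + (K + 1 + u)) +
        (K + 1 + u)) * (2 * K + 1) - 2 * ((K : ℝ) + 1) ^ 2 *
        (2 * (r + (K + 1 + u)) + 1 - 2 * r - 1) =
        2 * ((K : ℝ) + 1 + u) * (K + (2 * K + 1) * u) := by ring
    have e2 : (0 : ℝ) ≤ 2 * ((K : ℝ) + 1 + u) * (K + (2 * K + 1) * u) := by positivity
    linarith

lemma gap_ge_sq {n r : ℕ} (h : 2 * r + 1 ≤ n) :
    ((n : ℝ) - 2 * r - 1) ^ 2 / (2 * (n + 1)) ≤
      Real.log (n.choose (n / 2)) - Real.log (n.choose r) := by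
  obtain ⟨t, ht⟩ : ∃ t, n / 2 = r + t := ⟨n / 2 - r, by omega⟩
  have h1 := log_choose_gap (n := n) t (by omega)
  rw [show n / 2 - t = r by omega] at h1
  refine le_trans ?_ h1
  have hn1 : (0 : ℝ) < n + 1 := by positivity
  rw [div_le_div_iff₀ (by positivity) hn1]
  have ht0 : (0 : ℝ) ≤ t := Nat.cast_nonneg t
  have hle : (n : ℝ) ≤ 2 * (n / 2 : ℕ) + 1 := by
    have : n ≤ 2 * (n / 2) + 1 := by omega
    exact_mod_cast this
  have hge : 2 * ((n / 2 : ℕ) : ℝ) ≤ n := by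
    have : 2 * (n / 2) ≤ n := by omega
    exact_mod_cast this
  have hr : ((n / 2 : ℕ) : ℝ) = r + t := by rw [ht]; push_cast; ring
  rw [hr] at hle hge ⊢
  have hd : 0 ≤ (n : ℝ) - 2 * r - 1 := by
    have : (2 * (r : ℝ) + 1) ≤ n := by exact_mod_cast h
    linarith
  have h2t : (n : ℝ) - 2 * r - 1 ≤ 2 * t := by linarith
  have h3 : ((n : ℝ) - 2 * r - 1) ^ 2 ≤ (2 * t) ^ 2 := pow_le_pow_left₀ hd h2t 2
  have h4 : 0 ≤ t * ((n : ℝ) - 2 * (r + t)) := mul_nonneg ht0 (by linarith)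
  nlinarith

end H34W
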