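import Pool.Agent.H34W.Sparse

/-!
# Matroids on `Fin n` and families of bases
-/

set_option autoImplicit false

namespace H34W

open Finset

/-- matroids of rank `r` with ground set all of `Fin n` -/
abbrev Mat (n r : ℕ) := {M : Matroid (Fin n) // M.E = Set.univ ∧ M.eRank = (r : ℕ∞)}

/-- isomorphism -/
def Iso {n r : ℕ} (M₁ M₂ : Mat n r) : Prop :=
  ∃ σ : Equiv.Perm (Fin n), ∀ I : Set (Fin n), M₁.val.Indep I ↔ M₂.val.Indep (σ '' I)

/-- the number of isomorphism classes -/
noncomputable def f (n r : ℕ) : ℕ := Nat.card (Quot (Iso (n := n) (r := r)))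

open Classical in
/-- the family of bases -/
noncomputable def bas {n : ℕ} (N : Matroid (Fin n)) : Finset (Finset (Fin n)) :=
  univ.filter fun B => N.IsBase (B : Set (Fin n))

lemma mem_bas {n : ℕ} {N : Matroid (Fin n)} {B : Finset (Fin n)} :
    B ∈ bas N ↔ N.IsBase (B : Set (Fin n)) := by simp [bas]

lemma bas_mem_Fam {n r : ℕ} (N : Mat n r) : bas N.val ∈ Fam n r := by
  classical
  rw [mem_Fam]
  constructor
  · intro B hB
    rw [mem_bas] at hB
    have := hB.encard_eq_eRank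
    rw [N.2.2, Set.encard_coe_eq_coe_finsetCard] at this
    exact_mod_cast this
  · intro B₁ h1 B₂ h2 x hx1 hx2
    rw [mem_bas] at h1 h2
    obtain ⟨y, hy, hy'⟩ := h1.exchange h2 (e := x) ⟨hx1, hx2⟩
    refine ⟨y, hy.1, hy.2, ?_⟩
    rw [mem_bas]
    convert hy' using 1
    simp

lemma bas_ne_empty {n : ℕ} (N : Matroid (Fin n)) : bas N ≠ ∅ := by
  classical
  obtain ⟨B, hB⟩ := N.exists_isBase
  intro h
  have : (Set.toFinite B).toFinset ∈ bas N := by
    rw [mem_bas, Set.Finite.coe_toFinset]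
    exact hB
  rw [h] at this
  simp at this

lemma bas_injective {n r : ℕ} : Function.Injective (fun N : Mat n r => bas N.val) := by
  classical
  intro N N' h
  refine Subtype.ext (Matroid.ext_isBase (by rw [N.2.1, N'.2.1]) ?_)
  intro B _
  have h' : bas N.val = bas N'.val := h
  have e1 : ∀ L : Matroid (Fin n), L.IsBase B ↔ (Set.toFinite B).toFinset ∈ bas L := by
    intro L
    rw [mem_bas, Set.Finite.coe_toFinset]
  rw [e1, e1, h']

lemma exists_bas_eq {n r : ℕ} {𝔅 : Finset (Finset (Fin n))} (h : 𝔅 ∈ Fam n r) (hne : 𝔅 ≠ ∅) :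
    ∃ N : Mat n r, bas N.val = 𝔅 := by
  classical
  rw [mem_Fam] at h
  obtain ⟨B₀, hB₀⟩ := Finset.nonempty_iff_ne_empty.2 hne
  let P : Set (Fin n) → Prop := fun X => ∃ B ∈ 𝔅, (B : Set (Fin n)) = X
  have hP : Matroid.ExchangeProperty P := by
    rintro _ _ ⟨B₁, h1, rfl⟩ ⟨B₂, h2, rfl⟩ x hx
    obtain ⟨y, hy2, hy1, hy⟩ := h.2 B₁ h1 B₂ h2 x (by simpa using hx.1) (by simpa using hx.2)
    refine ⟨y, ⟨by simpa using hy2, by simpa using hy1⟩, _, hy, ?_⟩
    simp
  let N : Matroid (Fin n) := Matroid.ofIsBaseOfFinite (Set.toFinite (Set.univ : Set (Fin n))) P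
    ⟨_, B₀, hB₀, rfl⟩ hP (fun B _ => Set.subset_univ B)
  have hN : ∀ X, N.IsBase X ↔ P X := fun X => Iff.rfl
  have hB₀' : N.IsBase (B₀ : Set (Fin n)) := (hN _).2 ⟨B₀, hB₀, rfl⟩
  refine ⟨⟨N, rfl, ?_⟩, ?_⟩
  · rw [← hB₀'.encard_eq_eRank, Set.encard_coe_eq_coe_finsetCard, h.1 B₀ hB₀]
  · ext B
    rw [mem_bas, hN]
    constructor
    · rintro ⟨B', hB', he⟩
      rwa [← Finset.coe_injective he]
    · intro hB
      exact ⟨B, hB, rfl⟩

/-- matroids correspond to nonempty families -/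
noncomputable def matEquiv (n r : ℕ) : Mat n r ≃ {𝔅 // 𝔅 ∈ (Fam n r).erase ∅} :=
  Equiv.ofBijective (fun N => ⟨bas N.val, Finset.mem_erase.2 ⟨bas_ne_empty _, bas_mem_Fam N⟩⟩) (by
    constructor
    · intro N N' h
      exact bas_injective (Subtype.ext_iff.1 h)
    · rintro ⟨𝔅, h𝔅⟩
      rw [Finset.mem_erase] at h𝔅
      obtain ⟨N, hN⟩ := exists_bas_eq h𝔅.2 h𝔅.1
      exact ⟨N, Subtype.ext hN⟩)

instance (n r : ℕ) : Finite (Mat n r) := Finite.of_equiv _ (matEquiv n r).symm

theorem card_mat (n r : ℕ) : Nat.card (Mat n r) + 1 = M n r := by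
  rw [Nat.card_congr (matEquiv n r), Nat.card_eq_fintype_card, Fintype.card_coe, M]
  exact Finset.card_erase_add_one (empty_mem_Fam n r)

theorem f_lt_M (n r : ℕ) : f n r < M n r := by
  have h : f n r ≤ Nat.card (Mat n r) :=
    Nat.card_le_card_of_surjective _ (Quot.mk_surjective)
  have := card_mat n r
  omega

lemma iso_equivalence (n r : ℕ) : Equivalence (Iso (n := n) (r := r)) := by
  constructor
  · intro N
    exact ⟨Equiv.refl _, fun I => by simp⟩
  · rintro N N' ⟨σ, h⟩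
    refine ⟨σ.symm, fun I => ?_⟩
    rw [h, ← Set.image_comp]
    simp
  · rintro N N' N'' ⟨σ, h⟩ ⟨τ, h'⟩
    refine ⟨σ.trans τ, fun I => ?_⟩
    rw [h, h', ← Set.image_comp]
    rfl

theorem card_mat_le (n r : ℕ) : Nat.card (Mat n r) ≤ f n r * n.factorial := by
  classical
  have hrep : ∀ N : Mat n r, ∃ σ : Equiv.Perm (Fin n), ∀ I : Set (Fin n),
      ((Quot.out (Quot.mk Iso N) : Mat n r)).val.Indep I ↔ N.val.Indep (σ '' I) := by
    intro N
    have h1 : Quot.mk Iso (Quot.out (Quot.mk Iso N)) = Quot.mk Iso N := Quot.out_eq _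
    have h2 := Quot.eqvGen_exact h1
    rw [(iso_equivalence n r).eqvGen_iff] at h2
    exact h2
  choose σ hσ using hrep
  have hinj : Function.Injective (fun N : Mat n r => ((Quot.mk Iso N : Quot (Iso (n := n) (r := r))),
      σ N)) := by
    intro N N' h
    rw [Prod.mk.injEq] at h
    refine Subtype.ext (Matroid.ext_indep (by rw [N.2.1, N'.2.1]) ?_)
    intro I _
    have e1 := hσ N ((σ N).symm '' I)
    have e2 := hσ N' ((σ N).symm '' I)
    rw [← h.1] at e2
    rw [← h.2] at e2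
    rw [Equiv.image_symm_image] at e1 e2
    rw [← e1, ← e2]
  have := Nat.card_le_card_of_injective _ hinj
  rw [Nat.card_prod] at this
  refine this.trans (le_of_eq ?_)
  rw [f, Nat.card_eq_fintype_card (α := Equiv.Perm (Fin n)), Fintype.card_perm, Fintype.card_fin]

theorem M_le (n r : ℕ) : M n r ≤ f n r * n.factorial + 1 := by
  have h1 := card_mat n r
  have h2 := card_mat_le n r
  omega

/-- duality -/
def dualMat {n r : ℕ} (hr : r ≤ n) (N : Mat n r) : Mat n (n - r) :=
  ⟨N.val✶, by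
    refine ⟨by rw [Matroid.dual_ground]; exact N.2.1, ?_⟩
    have h := N.val.eRank_add_eRank_dual
    rw [N.2.1, N.2.2, Set.encard_univ, ENat.card_eq_coe_fintype_card, Fintype.card_fin] at h
    have hfin : N.val✶.eRank ≠ ⊤ := by
      intro h'
      rw [h'] at h
      simp at h
    obtain ⟨m, hm⟩ := ENat.ne_top_iff_exists.1 hfin
    rw [← hm] at h ⊢
    have h2 : r + m = n := by exact_mod_cast h
    have : m = n - r := by omega
    rw [this]⟩

lemma isBase_iff_of_indep {n : ℕ} {N N' : Matroid (Fin n)} {σ : Equiv.Perm (Fin n)}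
    (h : ∀ I : Set (Fin n), N.Indep I ↔ N'.Indep (σ '' I)) (B : Set (Fin n)) :
    N.IsBase B ↔ N'.IsBase (σ '' B) := by
  rw [Matroid.isBase_iff_maximal_indep, Matroid.isBase_iff_maximal_indep]
  constructor
  · rintro ⟨h1, h2⟩
    refine ⟨(h B).1 h1, ?_⟩
    intro C hC hBC
    have h3 : N.Indep (σ.symm '' C) := by
      rw [h, Equiv.image_symm_image]
      exact hC
    have h4 : B ⊆ σ.symm '' C := by
      rw [← Equiv.symm_image_image σ B]
      exact Set.image_mono hBC
    have h5 := h2 h3 h4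
    have h6 : σ '' (σ.symm '' C) ⊆ σ '' B := Set.image_mono h5
    rwa [Equiv.image_symm_image] at h6
  · rintro ⟨h1, h2⟩
    refine ⟨(h B).2 h1, ?_⟩
    intro C hC hBC
    have h5 := h2 ((h C).1 hC) (Set.image_mono hBC)
    have h6 : σ.symm '' (σ '' C) ⊆ σ.symm '' (σ '' B) := Set.image_mono h5
    rwa [Equiv.symm_image_image, Equiv.symm_image_image] at h6

lemma iso_dual {n r : ℕ} (hr : r ≤ n) {N N' : Mat n r} (h : Iso N N') :
    Iso (dualMat hr N) (dualMat hr N') := by
  obtain ⟨σ, hσ⟩ := h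
  refine ⟨σ, fun I => ?_⟩
  have hb := isBase_iff_of_indep hσ
  change N.val✶.Indep I ↔ N'.val✶.Indep (σ '' I)
  rw [Matroid.dual_indep_iff_exists (by rw [N.2.1]; exact Set.subset_univ _),
    Matroid.dual_indep_iff_exists (by rw [N'.2.1]; exact Set.subset_univ _)]
  constructor
  · rintro ⟨B, hB, hd⟩
    exact ⟨σ '' B, (hb B).1 hB, (Set.disjoint_image_iff σ.injective).2 hd⟩
  · rintro ⟨B, hB, hd⟩
    refine ⟨σ.symm '' B, (hb _).2 (by rwa [Equiv.image_symm_image]), ?_⟩
    rw [← Set.disjoint_image_iff σ.injective, Equiv.image_symm_image]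
    exact hd

theorem f_dual {n r : ℕ} (hr : r ≤ n) : f n r ≤ f n (n - r) := by
  have hinj : Function.Injective (Quot.map (dualMat hr) (fun _ _ h => iso_dual hr h) :
      Quot (Iso (n := n) (r := r)) → Quot (Iso (n := n) (r := n - r))) := by
    rintro ⟨N⟩ ⟨N'⟩ h
    have h2 := Quot.eqvGen_exact h
    rw [(iso_equivalence n (n - r)).eqvGen_iff] at h2
    refine Quot.sound ?_
    obtain ⟨σ, hσ⟩ := h2
    have hσ' : ∀ I : Set (Fin n), N.val✶.Indep I ↔ N'.val✶.Indep (σ '' I) := hσ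
    have hb := isBase_iff_of_indep hσ'
    refine ⟨σ, fun I => ?_⟩
    have e1 : N.val.Indep I ↔ N.val✶✶.Indep I := by rw [Matroid.dual_dual]
    have e2 : N'.val.Indep (σ '' I) ↔ N'.val✶✶.Indep (σ '' I) := by rw [Matroid.dual_dual]
    rw [e1, e2]
    rw [Matroid.dual_indep_iff_exists
      (by rw [Matroid.dual_ground, N.2.1]; exact Set.subset_univ _),
      Matroid.dual_indep_iff_exists
      (by rw [Matroid.dual_ground, N'.2.1]; exact Set.subset_univ _)]
    constructor
    · rintro ⟨B, hB, hd⟩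
      exact ⟨σ '' B, (hb B).1 hB, (Set.disjoint_image_iff σ.injective).2 hd⟩
    · rintro ⟨B, hB, hd⟩
      refine ⟨σ.symm '' B, (hb _).2 (by rwa [Equiv.image_symm_image]), ?_⟩
      rw [← Set.disjoint_image_iff σ.injective, Equiv.image_symm_image]
      exact hd
  have hfin : Finite (Quot (Iso (n := n) (r := n - r))) :=
    Finite.of_surjective _ Quot.mk_surjective
  exact Nat.card_le_card_of_injective _ hinj

theorem f_eq_zero {n r : ℕ} (hr : n < r) : f n r = 0 := by
  have : IsEmpty (Mat n r) := by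
    refine ⟨fun N => ?_⟩
    have h1 := N.val.eRank_le_encard_ground
    rw [N.2.1, N.2.2, Set.encard_univ, ENat.card_eq_coe_fintype_card, Fintype.card_fin] at h1
    have h2 : r ≤ n := by exact_mod_cast h1
    omega
  have h2 : IsEmpty (Quot (Iso (n := n) (r := r))) := ⟨fun q => by
    obtain ⟨N, _⟩ := Quot.exists_rep q
    exact this.false N⟩
  rw [f, Nat.card_of_isEmpty]

end H34W
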