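import Mathlib

/-!
# Degrees in the Johnson graph
-/

set_option autoImplicit false

namespace H34W

open Finset

/-- adjacency in the Johnson graph -/
def JAdj {n : ℕ} (X Y : Finset (Fin n)) : Prop :=
  ∃ x ∈ X, ∃ y, y ∉ X ∧ Y = insert y (X.erase x)

lemma adj_of_subset {n r : ℕ} {X Y R : Finset (Fin n)} (hX : X.card = r) (hY : Y.card = r)
    (hR : R.card = r - 1) (hr : 1 ≤ r) (hne : X ≠ Y) (hRX : R ⊆ X) (hRY : R ⊆ Y) :
    JAdj X Y ∧ R = X ∩ Y := by
  classical
  have h1 : (X \ R).card = 1 := by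
    rw [Finset.card_sdiff_of_subset hRX]; omega
  have h2 : (Y \ R).card = 1 := by
    rw [Finset.card_sdiff_of_subset hRY]; omega
  obtain ⟨x, hx⟩ := Finset.card_eq_one.1 h1
  obtain ⟨y, hy⟩ := Finset.card_eq_one.1 h2
  have hxm : x ∈ X ∧ x ∉ R := Finset.mem_sdiff.1 (by rw [hx]; exact Finset.mem_singleton_self x)
  have hym : y ∈ Y ∧ y ∉ R := Finset.mem_sdiff.1 (by rw [hy]; exact Finset.mem_singleton_self y)
  have hXe : X = insert x R := by
    rw [← Finset.sdiff_union_of_subset hRX, hx]; rfl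
  have hYe : Y = insert y R := by
    rw [← Finset.sdiff_union_of_subset hRY, hy]; rfl
  have hxy : x ≠ y := by
    rintro rfl
    exact hne (hXe.trans hYe.symm)
  have hyX : y ∉ X := by
    rw [hXe, Finset.mem_insert, not_or]
    exact ⟨hxy.symm, hym.2⟩
  refine ⟨⟨x, hxm.1, y, hyX, ?_⟩, ?_⟩
  · rw [hXe, Finset.erase_insert hxm.2, hYe]
  · ext z
    rw [Finset.mem_inter]
    constructor
    · intro hz; exact ⟨hRX hz, hRY hz⟩
    · rintro ⟨hz1, hz2⟩
      rw [hXe, Finset.mem_insert] at hz1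
      rcases hz1 with rfl | hz1
      · rw [hYe, Finset.mem_insert] at hz2
        rcases hz2 with h | h
        · exact absurd h hxy
        · exact h
      · exact hz1

open Classical in
theorem deg_exists {n r : ℕ} (A : Finset (Finset (Fin n)))
    (hA : A ⊆ (univ : Finset (Fin n)).powersetCard r) (hne : A.Nonempty) (hr : 1 ≤ r)
    (hrn : r ≤ n) :
    ∃ X ∈ A, (r : ℝ) * (((n - r + 1 : ℕ) : ℝ) * A.card / (n.choose r) - 1) ≤
      ((A.filter (JAdj X)).card : ℝ) := by
  by_contra hcon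
  push Not at hcon
  set 𝓡 := (univ : Finset (Fin n)).powersetCard (r - 1) with h𝓡
  have hcardX : ∀ X ∈ A, X.card = r := fun X hX => (Finset.mem_powersetCard.1 (hA hX)).2
  have hcardR : ∀ R ∈ 𝓡, R.card = r - 1 := fun R hR => (Finset.mem_powersetCard.1 hR).2
  -- first moment
  have e1 : ∑ R ∈ 𝓡, (A.filter (fun X => R ⊆ X)).card = r * A.card := by
    simp_rw [Finset.card_filter]
    rw [Finset.sum_comm]
    have : ∀ X ∈ A, ∑ R ∈ 𝓡, (if R ⊆ X then 1 else 0) = r := by
      intro X hX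
      rw [← Finset.card_filter]
      have h1 : 𝓡.filter (fun R => R ⊆ X) = X.powersetCard (r - 1) := by
        ext R
        rw [Finset.mem_filter, h𝓡, Finset.mem_powersetCard, Finset.mem_powersetCard]
        constructor
        · rintro ⟨⟨_, h2⟩, h3⟩; exact ⟨h3, h2⟩
        · rintro ⟨h3, h2⟩; exact ⟨⟨Finset.subset_univ _, h2⟩, h3⟩
      rw [h1, Finset.card_powersetCard, hcardX X hX]
      obtain ⟨k, rfl⟩ : ∃ k, r = k + 1 := ⟨r - 1, by omega⟩
      simp
    rw [Finset.sum_congr rfl this, Finset.sum_const, smul_eq_mul, mul_comm]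
  -- second moment
  have e2 : ∑ R ∈ 𝓡, (A.filter (fun X => R ⊆ X)).card ^ 2 ≤
      r * A.card + ∑ X ∈ A, (A.filter (JAdj X)).card := by
    have h1 : ∀ R ∈ 𝓡, (A.filter (fun X => R ⊆ X)).card ^ 2 =
        (A.filter (fun X => R ⊆ X)).card +
          ((A.filter (fun X => R ⊆ X)).offDiag).card := by
      intro R _
      rw [Finset.offDiag_card, sq]
      have : (A.filter (fun X => R ⊆ X)).card ≤
          (A.filter (fun X => R ⊆ X)).card * (A.filter (fun X => R ⊆ X)).card :=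
        Nat.le_mul_self _
      omega
    rw [Finset.sum_congr rfl h1, Finset.sum_add_distrib, e1]
    refine Nat.add_le_add_left ?_ _
    rw [← Finset.card_sigma, ← Finset.card_sigma]
    refine Finset.card_le_card_of_injOn
      (fun p : (_ : Finset (Fin n)) × (Finset (Fin n) × Finset (Fin n)) =>
        (⟨p.2.1, p.2.2⟩ : (_ : Finset (Fin n)) × Finset (Fin n))) ?_ ?_
    · rintro ⟨R, X, Y⟩ hp
      rw [Finset.mem_coe, Finset.mem_sigma] at hp
      obtain ⟨hR, hXY⟩ := hp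
      simp only at hR hXY
      rw [Finset.mem_offDiag, Finset.mem_filter, Finset.mem_filter] at hXY
      rw [Finset.mem_coe, Finset.mem_sigma]
      refine ⟨hXY.1.1, ?_⟩
      simp only
      rw [Finset.mem_filter]
      exact ⟨hXY.2.1.1, (adj_of_subset (hcardX _ hXY.1.1) (hcardX _ hXY.2.1.1) (hcardR _ hR) hr
        hXY.2.2 hXY.1.2 hXY.2.1.2).1⟩
    · rintro ⟨R, X, Y⟩ hp ⟨R', X', Y'⟩ hp' h
      rw [Finset.mem_coe, Finset.mem_sigma] at hp hp'
      obtain ⟨hR, hXY⟩ := hp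
      obtain ⟨hR', hXY'⟩ := hp'
      simp only at hR hXY hR' hXY'
      rw [Finset.mem_offDiag, Finset.mem_filter, Finset.mem_filter] at hXY hXY'
      have k1 := (adj_of_subset (hcardX _ hXY.1.1) (hcardX _ hXY.2.1.1) (hcardR _ hR) hr
        hXY.2.2 hXY.1.2 hXY.2.1.2).2
      have k2 := (adj_of_subset (hcardX _ hXY'.1.1) (hcardX _ hXY'.2.1.1) (hcardR _ hR') hr
        hXY'.2.2 hXY'.1.2 hXY'.2.1.2).2
      simp only [Sigma.mk.injEq, heq_eq_eq] at h
      obtain ⟨rfl, rfl⟩ := h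
      rw [k1, k2]
  have e3 : ((r : ℝ) * A.card) ^ 2 ≤ (𝓡.card : ℝ) *
      (r * A.card + ∑ X ∈ A, ((A.filter (JAdj X)).card : ℝ)) := by
    have h1 := sq_sum_le_card_mul_sum_sq (s := 𝓡)
      (f := fun R => ((A.filter (fun X => R ⊆ X)).card : ℝ))
    have h2 : ∑ R ∈ 𝓡, ((A.filter (fun X => R ⊆ X)).card : ℝ) = r * A.card := by
      exact_mod_cast e1
    have h3 : ∑ R ∈ 𝓡, ((A.filter (fun X => R ⊆ X)).card : ℝ) ^ 2 ≤
        r * A.card + ∑ X ∈ A, ((A.filter (JAdj X)).card : ℝ) := by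
      exact_mod_cast e2
    rw [h2] at h1
    exact h1.trans (mul_le_mul_of_nonneg_left h3 (Nat.cast_nonneg _))
  have h𝓡card : (𝓡.card : ℝ) * ((n - r + 1 : ℕ) : ℝ) = n.choose r * r := by
    have h1 : 𝓡.card = n.choose (r - 1) := by
      rw [h𝓡, Finset.card_powersetCard, Finset.card_univ, Fintype.card_fin]
    have h2 := Nat.choose_succ_right_eq n (r - 1)
    rw [Nat.sub_add_cancel hr] at h2
    have h3 : n - (r - 1) = n - r + 1 := by omega
    rw [h3] at h2
    rw [h1]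
    exact_mod_cast h2.symm
  have hN : (0 : ℝ) < n.choose r := by exact_mod_cast Nat.choose_pos hrn
  have hrpos : (0 : ℝ) < r := by exact_mod_cast hr
  have hs : (0 : ℝ) < ((n - r + 1 : ℕ) : ℝ) := by positivity
  have hR0 : (0 : ℝ) < (𝓡.card : ℝ) := by
    by_contra h
    have h0 : (𝓡.card : ℝ) = 0 := le_antisymm (not_lt.1 h) (Nat.cast_nonneg _)
    rw [h0, zero_mul] at h𝓡card
    have := mul_pos hN hrpos
    linarith
  have hApos : (0 : ℝ) < A.card := by exact_mod_cast Finset.card_pos.2 hne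
  set T : ℝ := (r : ℝ) * (((n - r + 1 : ℕ) : ℝ) * A.card / (n.choose r) - 1) with hT
  have e4 : ∑ X ∈ A, ((A.filter (JAdj X)).card : ℝ) < A.card * T := by
    calc ∑ X ∈ A, ((A.filter (JAdj X)).card : ℝ) < ∑ _X ∈ A, T :=
          Finset.sum_lt_sum_of_nonempty hne hcon
      _ = A.card * T := by rw [Finset.sum_const, nsmul_eq_mul]
  have e5 : (𝓡.card : ℝ) * (r * A.card + A.card * T) = (r * A.card) ^ 2 := by
    have h1 : (𝓡.card : ℝ) = n.choose r * r / ((n - r + 1 : ℕ) : ℝ) := by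
      rw [eq_div_iff hs.ne', h𝓡card]
    rw [h1, hT]
    field_simp
    ring
  have e6 : (𝓡.card : ℝ) * (r * A.card + ∑ X ∈ A, ((A.filter (JAdj X)).card : ℝ)) <
      (𝓡.card : ℝ) * (r * A.card + A.card * T) := by
    refine mul_lt_mul_of_pos_left ?_ hR0
    linarith
  rw [e5] at e6
  exact absurd e3 (not_le.2 e6)

end H34W
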