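import Pool.Agent.H34W.Upper

/-!
# Records in intervals and natural density
-/

set_option autoImplicit false

namespace H34W

open Finset Filter

open Classical in
theorem rec_interval (lam : ℝ) (h0 : 0 ≤ lam) {m : ℕ} {b : ℝ} (hb : ∀ j ≤ m, b ≤ F lam j)
    (N : ℕ) (hmN : m ≤ N) : ∀ j ≤ N,
    b - lam * ∑ i ∈ (Ioc m N).filter (Rec lam), ((i : ℝ))⁻¹ ≤ F lam j := by
  induction N, hmN using Nat.le_induction with
  | base =>
    intro j hj
    simpa using hb j hj
  | succ N hmN ih =>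
    have hsum : ∑ i ∈ (Ioc m (N + 1)).filter (Rec lam), ((i : ℝ))⁻¹ =
        (∑ i ∈ (Ioc m N).filter (Rec lam), ((i : ℝ))⁻¹) +
          (if Rec lam (N + 1) then (((N + 1 : ℕ) : ℝ))⁻¹ else 0) := by
      rw [Finset.sum_filter, Finset.sum_filter, Finset.sum_Ioc_succ_top (by omega)]
    have hmono : ∑ i ∈ (Ioc m N).filter (Rec lam), ((i : ℝ))⁻¹ ≤
        ∑ i ∈ (Ioc m (N + 1)).filter (Rec lam), ((i : ℝ))⁻¹ := by
      rw [hsum]
      have : (0 : ℝ) ≤ (if Rec lam (N + 1) then (((N + 1 : ℕ) : ℝ))⁻¹ else 0) := by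
        split_ifs <;> positivity
      linarith
    have hold : ∀ j ≤ N, b - lam * ∑ i ∈ (Ioc m (N + 1)).filter (Rec lam), ((i : ℝ))⁻¹
        ≤ F lam j := by
      intro j hj
      refine le_trans ?_ (ih j hj)
      have := mul_le_mul_of_nonneg_left hmono h0
      linarith
    intro j hj
    rcases Nat.lt_or_ge j (N + 1) with h | h
    · exact hold j (by omega)
    · obtain rfl : j = N + 1 := by omega
      by_cases hr : Rec lam (N + 1)
      · rw [hsum, if_pos hr]
        have h1 := ih N le_rfl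
        have h2 : F lam N - lam * (((N + 1 : ℕ) : ℝ))⁻¹ ≤ F lam (N + 1) := by
          rw [F, F, Hs_succ]
          have h3 : Real.log (hh (N + 1)) ≤ Real.log (hh N) :=
            Real.log_le_log (hh_pos _) (hh_succ N)
          nlinarith
        nlinarith
      · rw [Rec] at hr
        push Not at hr
        obtain ⟨j, hj, hlt⟩ := hr
        exact (hold j (by omega)).trans hlt.le

/-- lower bound for all earlier values of `F` -/
theorem F_lower (lam c : ℝ) (hlam : 1 < lam) (hc : 2 < c) :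
    ∃ m₁ : ℕ, ∀ m : ℕ, m₁ ≤ m → ∀ j ≤ m,
      Real.log m - Real.log (c * Real.log 2) - lam * Hs m ≤ F lam j := by
  obtain ⟨N₁, hN₁⟩ := hh_le c hc
  have hl2 : 0 < Real.log 2 := Real.log_pos (by norm_num)
  obtain ⟨N₂, hN₂⟩ := exists_nat_gt (1 / (lam - 1))
  set J := max (max N₁ N₂) 1 with hJ
  have hJ1 : N₁ ≤ J := (le_max_left _ _).trans (le_max_left _ _)
  have hJ2 : N₂ ≤ J := (le_max_right _ _).trans (le_max_left _ _)
  have hJ3 : 1 ≤ J := le_max_right _ _
  -- lower bound on the initial part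
  obtain ⟨C₀, hC₀⟩ : ∃ C₀ : ℝ, ∀ j < J, C₀ ≤ F lam j := by
    obtain ⟨j₀, _, h⟩ := Finset.exists_min_image (range J) (F lam) ⟨0, Finset.mem_range.2 hJ3⟩
    exact ⟨F lam j₀, fun j hj => h j (Finset.mem_range.2 hj)⟩
  -- monotonicity
  have hmono : ∀ m : ℕ, ∀ j : ℕ, J ≤ j → j ≤ m →
      Real.log m - lam * Hs m ≤ Real.log j - lam * Hs j := by
    intro m j hj hjm
    induction m, hjm using Nat.le_induction with
    | base => exact le_rfl
    | succ m hm ih =>
      refine le_trans ?_ ih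
      rw [Hs_succ]
      have hm0 : (0 : ℝ) < m := by exact_mod_cast (by omega : 0 < m)
      have h1 : Real.log ((m + 1 : ℕ) : ℝ) - Real.log m ≤ 1 / m := by
        rw [← Real.log_div (by positivity) hm0.ne']
        have h2 := Real.log_le_sub_one_of_pos (show 0 < ((m + 1 : ℕ) : ℝ) / m by positivity)
        refine h2.trans (le_of_eq ?_)
        push_cast
        field_simp
        ring
      have h3 : 1 / (m : ℝ) ≤ lam * (((m + 1 : ℕ) : ℝ))⁻¹ := by
        rw [← div_eq_mul_inv, div_le_div_iff₀ hm0 (by positivity)]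
        push_cast
        have h4 : (N₂ : ℝ) ≤ m := by exact_mod_cast (by omega : N₂ ≤ m)
        have h5 : 1 / (lam - 1) ≤ m := hN₂.le.trans h4
        rw [div_le_iff₀ (by linarith)] at h5
        nlinarith
      linarith
  -- divergence
  have hdiv : ∃ m₂ : ℕ, ∀ m : ℕ, m₂ ≤ m →
      -C₀ - Real.log (c * Real.log 2) ≤ (lam - 1) * Real.log m := by
    have h1 : Tendsto (fun n : ℕ => (lam - 1) * Real.log n) atTop atTop :=
      (Real.tendsto_log_atTop.comp tendsto_natCast_atTop_atTop).const_mul_atTop (by linarith)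
    exact Filter.eventually_atTop.1 (h1.eventually_ge_atTop _)
  obtain ⟨m₂, hm₂⟩ := hdiv
  refine ⟨max m₂ J, fun m hm j hjm => ?_⟩
  rcases Nat.lt_or_ge j J with h | h
  · refine le_trans ?_ (hC₀ j h)
    have h1 := hm₂ m ((le_max_left _ _).trans hm)
    have h2 := mul_le_mul_of_nonneg_left (log_le_Hs m) (by linarith : (0 : ℝ) ≤ lam)
    linarith
  · have h1 := hmono m j h hjm
    have hj0 : (0 : ℝ) < j := by exact_mod_cast (by omega : 0 < j)
    have h2 := hN₁ j (by omega)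
    have h3 := Real.log_le_log (hh_pos j) h2
    rw [Real.log_div (by positivity) hj0.ne'] at h3
    rw [F]
    linarith

lemma log_sub_le_Hs {m n : ℕ} (hm : 1 ≤ m) (h : m ≤ n) :
    Real.log n - Real.log m - 1 / m ≤ Hs n - Hs m := by
  have hm0 : (0 : ℝ) < m := by exact_mod_cast hm
  have h1 : ∀ k : ℕ, m ≤ k → Real.log ((k : ℝ) + 1) - Real.log ((m : ℝ) + 1) ≤ Hs k - Hs m := by
    intro k hk
    induction k, hk using Nat.le_induction with
    | base => simp
    | succ k hk ih =>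
      rw [Hs_succ]
      have hk0 : (0 : ℝ) < (k : ℝ) + 1 := by positivity
      have h2 : Real.log (((k + 1 : ℕ) : ℝ) + 1) - Real.log ((k : ℝ) + 1) ≤
          (((k + 1 : ℕ) : ℝ))⁻¹ := by
        rw [← Real.log_div (by positivity) hk0.ne']
        have h3 := Real.log_le_sub_one_of_pos
          (show 0 < (((k + 1 : ℕ) : ℝ) + 1) / ((k : ℝ) + 1) by positivity)
        refine h3.trans (le_of_eq ?_)
        push_cast
        field_simp
        ring
      linarith
  have h2 := h1 n h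
  have hn0 : (0 : ℝ) < n := by exact_mod_cast (by omega : 0 < n)
  have h3 : Real.log n ≤ Real.log ((n : ℝ) + 1) := Real.log_le_log hn0 (by linarith)
  have h4 : Real.log ((m : ℝ) + 1) - Real.log m ≤ 1 / m := by
    rw [← Real.log_div (by positivity) hm0.ne']
    have h5 := Real.log_le_sub_one_of_pos (show 0 < ((m : ℝ) + 1) / m by positivity)
    refine h5.trans (le_of_eq ?_)
    field_simp
    ring
  linarith

open Classical in
/-- the harmonic measure of the good set in intervals -/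
theorem interval (K : ℕ) (lam c δ : ℝ) (hlam : 1 < lam)
    (hlam2 : lam < 2 * ((K : ℝ) + 1) ^ 2 / (2 * K + 1)) (hc : 2 < c) (hδ : 0 < δ) :
    ∃ m₀ : ℕ, 1 ≤ m₀ ∧ ∀ m : ℕ, m₀ ≤ m → ∀ N : ℕ, m ≤ N →
      (1 - 1 / lam) * Real.log ((N : ℝ) / m) - Real.log c / lam - δ ≤
        ∑ i ∈ (Ioc m N).filter (Good K), ((i : ℝ))⁻¹ := by
  have hlam0 : 0 < lam := by linarith
  have hl2 : 0 < Real.log 2 := Real.log_pos (by norm_num)
  obtain ⟨m₁, hm₁⟩ := F_lower lam c hlam hc
  obtain ⟨N₁, hN₁⟩ := rec_good K lam hlam0 hlam2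
  obtain ⟨m₂, hm₂⟩ := exists_nat_gt (1 / δ)
  refine ⟨max (max m₁ N₁) (max m₂ (2 * K + 2)), by omega, fun m hm N hmN => ?_⟩
  have hma : m₁ ≤ m := by omega
  have hmb : N₁ ≤ m := by omega
  have hmc : m₂ ≤ m := by omega
  have hmd : 2 * K + 2 ≤ m := by omega
  have hm0 : (0 : ℝ) < m := by exact_mod_cast (by omega : 0 < m)
  have hN0 : (0 : ℝ) < N := by exact_mod_cast (by omega : 0 < N)
  have h1 := rec_interval lam hlam0.le (hm₁ m hma) N hmN N le_rfl
  have h2 : F lam N ≤ Real.log N - Real.log (Real.log 2) - lam * Hs N := by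
    rw [F]
    have h3 : Real.log (Real.log 2 / N) ≤ Real.log (hh N) :=
      Real.log_le_log (by positivity) (log_two_div_le_hh (by omega))
    rw [Real.log_div hl2.ne' hN0.ne'] at h3
    linarith
  have h3 := log_sub_le_Hs (by omega : 1 ≤ m) hmN
  have h4 : 1 / (m : ℝ) ≤ δ := by
    have h5 : (m₂ : ℝ) ≤ m := by exact_mod_cast hmc
    rw [div_le_iff₀ hm0]
    rw [div_lt_iff₀ hδ] at hm₂
    nlinarith
  have h5 : ∑ i ∈ (Ioc m N).filter (Rec lam), ((i : ℝ))⁻¹ ≤
      ∑ i ∈ (Ioc m N).filter (Good K), ((i : ℝ))⁻¹ := by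
    refine Finset.sum_le_sum_of_subset_of_nonneg ?_ fun _ _ _ => by positivity
    intro i hi
    rw [Finset.mem_filter, Finset.mem_Ioc] at hi ⊢
    refine ⟨hi.1, good_of_lt (by omega) (hN₁ i (by omega) hi.2)⟩
  refine le_trans ?_ h5
  set S := ∑ i ∈ (Ioc m N).filter (Rec lam), ((i : ℝ))⁻¹ with hS
  rw [Real.log_mul (by linarith : c ≠ 0) hl2.ne'] at h1
  have h6 : lam * (Real.log N - Real.log m - 1 / m) ≤ lam * (Hs N - Hs m) :=
    mul_le_mul_of_nonneg_left h3 hlam0.le
  have h7 : (lam - 1) * (Real.log N - Real.log m) - Real.log c - lam * δ ≤ lam * S := by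
    have h8 : lam * (1 / (m : ℝ)) ≤ lam * δ := mul_le_mul_of_nonneg_left h4 hlam0.le
    nlinarith
  rw [Real.log_div hN0.ne' hm0.ne']
  have h9 : (1 - 1 / lam) * (Real.log N - Real.log m) - Real.log c / lam - δ =
      ((lam - 1) * (Real.log N - Real.log m) - Real.log c - lam * δ) / lam := by
    field_simp
  rw [h9, div_le_iff₀ hlam0, mul_comm S]
  exact h7

lemma sum_log_le (n : ℕ) : 
    ∑ m ∈ Icc 1 n, Real.log (m : ℝ) ≤ n * Real.log n - n + 1 + Real.log n := by
  induction n with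
  | zero => simp
  | succ n ih =>
    rw [Finset.sum_Icc_succ_top (by omega)]
    rcases Nat.eq_zero_or_pos n with rfl | hn
    · simp
    · have hn0 : (0 : ℝ) < n := by exact_mod_cast hn
      have h1 : 1 ≤ ((n : ℝ) + 1) * (Real.log ((n : ℝ) + 1) - Real.log n) := by
        have h2 := Real.log_le_sub_one_of_pos (show 0 < (n : ℝ) / ((n : ℝ) + 1) by positivity)
        rw [Real.log_div hn0.ne' (by positivity)] at h2
        have h3 : (n : ℝ) / ((n : ℝ) + 1) - 1 = -(1 / ((n : ℝ) + 1)) := by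
          field_simp
          ring
        rw [h3] at h2
        have h4 : 1 / ((n : ℝ) + 1) ≤ Real.log ((n : ℝ) + 1) - Real.log n := by linarith
        rw [div_le_iff₀ (by positivity)] at h4
        linarith
      push_cast
      nlinarith

open Classical in
/-- double counting -/
lemma card_eq_sum (G : ℕ → Prop) (N : ℕ) :
    (((Icc 1 N).filter G).card : ℝ) =
      ∑ m ∈ range N, ∑ i ∈ (Ioc m N).filter G, ((i : ℝ))⁻¹ := by
  rw [Finset.sum_comm' (t' := (Icc 1 N).filter G) (s' := fun i => range i)]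
  · rw [Finset.card_eq_sum_ones, Nat.cast_sum]
    refine Finset.sum_congr rfl fun i hi => ?_
    rw [Finset.mem_filter, Finset.mem_Icc] at hi
    have hi0 : (i : ℝ) ≠ 0 := by
      have : 0 < i := by omega
      positivity
    rw [Finset.sum_const, Finset.card_range, nsmul_eq_mul, mul_inv_cancel₀ hi0]
    simp
  · intro m i
    simp only [Finset.mem_range, Finset.mem_filter, Finset.mem_Ioc, Finset.mem_Icc]
    constructor
    · rintro ⟨h1, ⟨h2, h3⟩, h4⟩
      exact ⟨h2, ⟨by omega, h3⟩, h4⟩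
    · rintro ⟨h1, ⟨h2, h3⟩, h4⟩
      exact ⟨by omega, ⟨h1, h3⟩, h4⟩

open Classical in
/-- from the harmonic measure of intervals to the counting function -/
lemma count_ge (G : ℕ → Prop) (a ρ : ℝ) (ha : 0 < a) (hρ : 0 < ρ) (hρ1 : ρ < 1) (m₀ : ℕ)
    (hm₀ : 1 ≤ m₀)
    (h : ∀ m : ℕ, m₀ ≤ m → ∀ N : ℕ, m ≤ N → a * Real.log (ρ * N / m) ≤
      ∑ i ∈ (Ioc m N).filter G, ((i : ℝ))⁻¹) (ε : ℝ) (hε : 0 < ε) :
    ∃ N₀ : ℕ, ∀ N : ℕ, N₀ ≤ N → (a * ρ - ε) * N ≤ (((Icc 1 N).filter G).card : ℝ) := by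
  obtain ⟨N₁, hN₁⟩ := eventually_log_le (a * (3 + m₀)) (ε / 2) (by positivity)
  obtain ⟨N₂, hN₂⟩ := exists_nat_gt (1 / ρ)
  refine ⟨max (max N₁ N₂) 1, fun N hN => ?_⟩
  have hNa : N₁ ≤ N := by omega
  have hNb : N₂ ≤ N := by omega
  have hNc : 1 ≤ N := by omega
  have hN0 : (0 : ℝ) < N := by exact_mod_cast hNc
  have hN1 : (1 : ℝ) ≤ N := by exact_mod_cast hNc
  set Mx : ℕ := ⌊ρ * N⌋₊ with hMx
  have hM1 : (Mx : ℝ) ≤ ρ * N := Nat.floor_le (by positivity)
  have hM2 : ρ * N < Mx + 1 := Nat.lt_floor_add_one _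
  have hMN : Mx < N := by
    have : (Mx : ℝ) < N := by nlinarith
    exact_mod_cast this
  have hMpos : 1 ≤ Mx := by
    rw [hMx, Nat.one_le_floor_iff]
    have h1 : (N₂ : ℝ) ≤ N := by exact_mod_cast hNb
    rw [div_lt_iff₀ hρ] at hN₂
    nlinarith
  have hM0 : (0 : ℝ) < Mx := by exact_mod_cast hMpos
  have hlogM : 0 ≤ Real.log Mx := Real.log_nonneg (by exact_mod_cast hMpos)
  have hlogMN : Real.log Mx ≤ Real.log N := Real.log_le_log hM0 (by exact_mod_cast hMN.le)
  rw [card_eq_sum]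
  have h1 : ∑ m ∈ Icc 1 Mx, ∑ i ∈ (Ioc m N).filter G, ((i : ℝ))⁻¹ ≤
      ∑ m ∈ range N, ∑ i ∈ (Ioc m N).filter G, ((i : ℝ))⁻¹ := by
    refine Finset.sum_le_sum_of_subset_of_nonneg ?_ fun _ _ _ =>
      Finset.sum_nonneg fun _ _ => by positivity
    intro m hm
    rw [Finset.mem_Icc] at hm
    rw [Finset.mem_range]
    omega
  have h2 : ∑ m ∈ Icc 1 Mx, (a * (Real.log Mx - Real.log m) -
      if m < m₀ then a * Real.log Mx else 0) ≤
      ∑ m ∈ Icc 1 Mx, ∑ i ∈ (Ioc m N).filter G, ((i : ℝ))⁻¹ := by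
    refine Finset.sum_le_sum fun m hm => ?_
    rw [Finset.mem_Icc] at hm
    have hm0 : (0 : ℝ) < m := by exact_mod_cast (by omega : 0 < m)
    split_ifs with hlt
    · have h3 : 0 ≤ ∑ i ∈ (Ioc m N).filter G, ((i : ℝ))⁻¹ :=
        Finset.sum_nonneg fun _ _ => by positivity
      refine le_trans ?_ h3
      have h4 : 0 ≤ Real.log m := Real.log_nonneg (by exact_mod_cast hm.1)
      nlinarith
    · rw [sub_zero]
      refine le_trans ?_ (h m (by omega) N (by omega))
      refine mul_le_mul_of_nonneg_left ?_ ha.le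
      rw [← Real.log_div hM0.ne' hm0.ne']
      refine Real.log_le_log (by positivity) ?_
      exact div_le_div_of_nonneg_right hM1 hm0.le
  have h3 : ∑ m ∈ Icc 1 Mx, (a * (Real.log Mx - Real.log m) -
      if m < m₀ then a * Real.log Mx else 0) =
      a * (Mx * Real.log Mx - ∑ m ∈ Icc 1 Mx, Real.log (m : ℝ)) -
        ((Icc 1 Mx).filter (fun m => m < m₀)).card * (a * Real.log Mx) := by
    rw [Finset.sum_sub_distrib, ← Finset.mul_sum, Finset.sum_sub_distrib, Finset.sum_const,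
      Nat.card_Icc, nsmul_eq_mul, ← Finset.sum_filter, Finset.sum_const, nsmul_eq_mul]
    simp
  have h4 : (((Icc 1 Mx).filter (fun m => m < m₀)).card : ℝ) ≤ m₀ := by
    have h5 : (Icc 1 Mx).filter (fun m => m < m₀) ⊆ range m₀ := by
      intro m hm
      rw [Finset.mem_filter] at hm
      exact Finset.mem_range.2 hm.2
    have h6 := Finset.card_le_card h5
    rw [Finset.card_range] at h6
    exact_mod_cast h6
  have h5 := sum_log_le Mx
  have h6 : (((Icc 1 Mx).filter (fun m => m < m₀)).card : ℝ) * (a * Real.log Mx) ≤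
      m₀ * (a * Real.log N) := by
    refine mul_le_mul h4 (mul_le_mul_of_nonneg_left hlogMN ha.le) (by positivity) (by positivity)
  have h7 : a * (Mx - 1 - Real.log N) ≤ a * (Mx * Real.log Mx - ∑ m ∈ Icc 1 Mx, Real.log (m : ℝ)) := by
    refine mul_le_mul_of_nonneg_left ?_ ha.le
    linarith
  have h8 := hN₁ N hNa
  have h9 : a * (ρ * N - 1) ≤ a * Mx := mul_le_mul_of_nonneg_left (by linarith) ha.le
  have hlogN : 0 ≤ Real.log N := Real.log_nonneg hN1
  refine le_trans ?_ h1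
  refine le_trans ?_ h2
  rw [h3]
  have h10 : ε / 2 * ((N : ℝ) + 1) ≤ ε * N := by nlinarith
  have h11 : 0 ≤ a * m₀ := by positivity
  have h12 : a * (3 + m₀) * (1 + Real.log N) = a * 3 + a * 3 * Real.log N + a * m₀ +
    m₀ * (a * Real.log N) := by ring
  have h13 : 0 ≤ a * Real.log N := by positivity
  nlinarith

open Classical in
theorem main2 (K : ℕ) (ε : ℝ) (hε : 0 < ε) : ∃ N₀ : ℕ, ∀ N : ℕ, N₀ ≤ N →
    ((1 - (2 * (K : ℝ) + 1) / (2 * ((K : ℝ) + 1) ^ 2)) *
      2 ^ (-((2 * (K : ℝ) + 1) / (2 * (K : ℝ) ^ 2 + 2 * K + 1))) - ε) * N ≤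
      (((Icc 1 N).filter (Good K)).card : ℝ) := by
  set θ : ℝ := 2 * ((K : ℝ) + 1) ^ 2 / (2 * K + 1) with hθ
  have hK : (0 : ℝ) ≤ K := Nat.cast_nonneg K
  have hθ1 : 1 < θ := by
    rw [hθ, one_lt_div (by positivity)]
    nlinarith
  have hinv : (2 * (K : ℝ) + 1) / (2 * ((K : ℝ) + 1) ^ 2) = 1 / θ := by
    rw [hθ, one_div_div]
  have hinv2 : (2 * (K : ℝ) + 1) / (2 * (K : ℝ) ^ 2 + 2 * K + 1) = 1 / (θ - 1) := by
    rw [hθ, div_sub_one (by positivity), one_div_div]
    congr 1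
    ring
  rw [hinv, hinv2]
  -- the function of one parameter
  set g : ℝ → ℝ := fun t => (1 - 1 / (θ - t)) *
    Real.exp (-(Real.log (2 + t) / (θ - t) + t) / (1 - 1 / (θ - t))) with hg
  have hg0 : g 0 = (1 - 1 / θ) * 2 ^ (-(1 / (θ - 1))) := by
    rw [hg]
    simp only [sub_zero, add_zero]
    congr 1
    rw [Real.rpow_def_of_pos (by norm_num : (0 : ℝ) < 2)]
    congr 1
    have h1 : θ - 1 ≠ 0 := by linarith
    have h2 : θ ≠ 0 := by linarith
    have h3 : 1 - 1 / θ = (θ - 1) / θ := by field_simp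
    rw [h3]
    field_simp
  have hcont : ContinuousAt g 0 := by
    have h1 : θ - 0 ≠ 0 := by rw [sub_zero]; linarith
    have h2 : (1 : ℝ) - 1 / (θ - 0) ≠ 0 := by
      rw [sub_zero, sub_ne_zero]
      intro h
      rw [eq_div_iff (by linarith)] at h
      linarith
    have h3 : (2 : ℝ) + 0 ≠ 0 := by norm_num
    have c1 : ContinuousAt (fun t : ℝ => θ - t) 0 := by fun_prop
    have c2 : ContinuousAt (fun t : ℝ => 1 / (θ - t)) 0 := continuousAt_const.div c1 h1
    have c3 : ContinuousAt (fun t : ℝ => 1 - 1 / (θ - t)) 0 := continuousAt_const.sub c2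
    have c4 : ContinuousAt (fun t : ℝ => Real.log (2 + t)) 0 := by
      have : ContinuousAt (fun t : ℝ => 2 + t) 0 := by fun_prop
      exact this.log h3
    have c5 : ContinuousAt (fun t : ℝ => -(Real.log (2 + t) / (θ - t) + t)) 0 :=
      ((c4.div c1 h1).add continuousAt_id).neg
    exact c3.mul ((c5.div c3 h2).rexp)
  have hev1 : ∀ᶠ t in nhdsWithin (0 : ℝ) (Set.Ioi 0), g 0 - ε / 2 < g t :=
    (hcont.tendsto.mono_left nhdsWithin_le_nhds).eventually_const_lt (by linarith)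
  have hev2 : ∀ᶠ t in nhdsWithin (0 : ℝ) (Set.Ioi 0), t < θ - 1 :=
    nhdsWithin_le_nhds (Iio_mem_nhds (by linarith))
  have hev3 : ∀ᶠ t in nhdsWithin (0 : ℝ) (Set.Ioi 0), t ∈ Set.Ioi (0 : ℝ) :=
    eventually_mem_nhdsWithin
  obtain ⟨t, ⟨ht1, ht2⟩, ht3⟩ := ((hev1.and hev2).and hev3).exists
  have ht0 : 0 < t := ht3
  set lam : ℝ := θ - t with hlam
  have hlam1 : 1 < lam := by rw [hlam]; linarith
  have hlam0 : 0 < lam := by linarith
  obtain ⟨m₀, hm₀, hmain⟩ := interval K lam (2 + t) t hlam1 (by rw [hlam, ← hθ]; linarith)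
    (by linarith) ht0
  set a : ℝ := 1 - 1 / lam with ha
  have ha0 : 0 < a := by
    rw [ha, sub_pos, div_lt_one hlam0]
    exact hlam1
  set ρ : ℝ := Real.exp (-(Real.log (2 + t) / lam + t) / a) with hρ
  have hρ0 : 0 < ρ := Real.exp_pos _
  have hlog2t : 0 < Real.log (2 + t) := Real.log_pos (by linarith)
  have hρ1 : ρ < 1 := by
    rw [hρ, Real.exp_lt_one_iff] 
    have : 0 < (Real.log (2 + t) / lam + t) / a := by positivity
    rw [neg_div]
    linarith
  have hlogρ : a * Real.log ρ = -(Real.log (2 + t) / lam + t) := by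
    rw [hρ, Real.log_exp]
    field_simp
  obtain ⟨N₀, hN₀⟩ := count_ge (Good K) a ρ ha0 hρ0 hρ1 m₀ hm₀ (by
    intro m hm N hmN
    refine le_trans (le_of_eq ?_) (hmain m hm N hmN)
    have hm0 : (0 : ℝ) < m := by exact_mod_cast (by omega : 0 < m)
    have hN0 : (0 : ℝ) < N := by exact_mod_cast (by omega : 0 < N)
    rw [mul_div_assoc, Real.log_mul hρ0.ne' (by positivity), mul_add, hlogρ]
    ring) (ε / 2) (by linarith)
  refine ⟨N₀, fun N hN => le_trans ?_ (hN₀ N hN)⟩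
  refine mul_le_mul_of_nonneg_right ?_ (Nat.cast_nonneg N)
  rw [← hg0]
  have : g t = a * ρ := rfl
  rw [this] at ht1
  linarith

end H34W
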