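import Pool.Agent.H34W.Shearer

/-!
# Families of bases, contraction and deletion inequalities
-/

set_option autoImplicit false

namespace H34W

open Finset

/-- The basis exchange property of a finite family of finite sets. -/
def Exch {α : Type*} [DecidableEq α] (𝔅 : Finset (Finset α)) : Prop :=
  ∀ B₁ ∈ 𝔅, ∀ B₂ ∈ 𝔅, ∀ x ∈ B₁, x ∉ B₂ → ∃ y ∈ B₂, y ∉ B₁ ∧ insert y (B₁.erase x) ∈ 𝔅

open Classical in
/-- All families of `r`-subsets of `Fin n` with the exchange property (the empty family included). -/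
noncomputable def Fam (n r : ℕ) : Finset (Finset (Finset (Fin n))) :=
  ((univ : Finset (Fin n)).powersetCard r).powerset.filter Exch

/-- The number of families of `r`-subsets of `Fin n` with the exchange property. -/
noncomputable def M (n r : ℕ) : ℕ := (Fam n r).card

lemma mem_Fam {n r : ℕ} {𝔅 : Finset (Finset (Fin n))} :
    𝔅 ∈ Fam n r ↔ (∀ B ∈ 𝔅, B.card = r) ∧ Exch 𝔅 := by
  classical
  rw [Fam, Finset.mem_filter, Finset.mem_powerset]
  refine and_congr_left fun _ => ?_
  constructor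
  · intro h B hB
    exact (Finset.mem_powersetCard.1 (h hB)).2
  · intro h B hB
    exact Finset.mem_powersetCard.2 ⟨Finset.subset_univ _, h B hB⟩

lemma empty_mem_Fam (n r : ℕ) : (∅ : Finset (Finset (Fin n))) ∈ Fam n r := by
  rw [mem_Fam]
  constructor
  · intro B hB; simp at hB
  · intro B hB; simp at hB

lemma M_pos (n r : ℕ) : 0 < M n r := Finset.card_pos.2 ⟨_, empty_mem_Fam n r⟩

section link

variable {n : ℕ} (e : Fin (n + 1))

/-- the traces containing `e` -/
def link (𝔅 : Finset (Finset (Fin (n + 1)))) : Finset (Finset (Fin n)) :=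
  univ.filter fun B => insert e (B.map e.succAboveEmb) ∈ 𝔅

/-- the traces avoiding `e` -/
def del (𝔅 : Finset (Finset (Fin (n + 1)))) : Finset (Finset (Fin n)) :=
  univ.filter fun B => B.map e.succAboveEmb ∈ 𝔅

lemma mem_link {𝔅 : Finset (Finset (Fin (n + 1)))} {B : Finset (Fin n)} :
    B ∈ link e 𝔅 ↔ insert e (B.map e.succAboveEmb) ∈ 𝔅 := by simp [link]

lemma mem_del {𝔅 : Finset (Finset (Fin (n + 1)))} {B : Finset (Fin n)} :
    B ∈ del e 𝔅 ↔ B.map e.succAboveEmb ∈ 𝔅 := by simp [del]

lemma notMem_map (B : Finset (Fin n)) : e ∉ B.map e.succAboveEmb := by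
  simp [Fin.succAbove_ne]

lemma exists_map_eq {B : Finset (Fin (n + 1))} (h : e ∉ B) :
    ∃ B' : Finset (Fin n), B'.map e.succAboveEmb = B := by
  classical
  refine ⟨univ.filter fun i => e.succAbove i ∈ B, ?_⟩
  ext y
  simp only [Finset.mem_map, Finset.mem_filter, Finset.mem_univ, true_and, Fin.coe_succAboveEmb]
  constructor
  · rintro ⟨i, hi, rfl⟩; exact hi
  · intro hy
    obtain ⟨i, hi⟩ := Fin.exists_succAbove_eq (x := y) (y := e) (by rintro rfl; exact h hy)
    exact ⟨i, by rwa [hi], hi⟩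

lemma exch_link {𝔅 : Finset (Finset (Fin (n + 1)))} (h : Exch 𝔅) : Exch (link e 𝔅) := by
  classical
  intro B₁ h1 B₂ h2 x hx1 hx2
  rw [mem_link] at h1 h2
  have hne : e.succAbove x ≠ e := Fin.succAbove_ne _ _
  obtain ⟨y, hy2, hy1, hy⟩ := h _ h1 _ h2 (e.succAbove x)
    (Finset.mem_insert_of_mem (Finset.mem_map_of_mem e.succAboveEmb hx1))
    (by
      rw [Finset.mem_insert, not_or]
      refine ⟨hne, ?_⟩
      rw [← Fin.coe_succAboveEmb, Finset.mem_map']
      exact hx2)
  have hye : y ≠ e := by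
    rintro rfl
    exact hy1 (Finset.mem_insert_self _ _)
  obtain ⟨z, rfl⟩ := Fin.exists_succAbove_eq hye
  have hz2 : z ∈ B₂ := by
    rw [Finset.mem_insert] at hy2
    rcases hy2 with hy2 | hy2
    · exact absurd hy2 hye
    · rwa [← Fin.coe_succAboveEmb, Finset.mem_map'] at hy2
  have hz1 : z ∉ B₁ := by
    intro hz
    exact hy1 (Finset.mem_insert_of_mem (Finset.mem_map_of_mem e.succAboveEmb hz))
  refine ⟨z, hz2, hz1, ?_⟩
  rw [mem_link]
  convert hy using 1
  rw [Finset.erase_insert_of_ne hne.symm, Finset.map_insert, Finset.map_erase,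
    Fin.coe_succAboveEmb, Finset.insert_comm]

lemma exch_del {𝔅 : Finset (Finset (Fin (n + 1)))} (h : Exch 𝔅) : Exch (del e 𝔅) := by
  classical
  intro B₁ h1 B₂ h2 x hx1 hx2
  rw [mem_del] at h1 h2
  obtain ⟨y, hy2, hy1, hy⟩ := h _ h1 _ h2 (e.succAbove x)
    (Finset.mem_map_of_mem e.succAboveEmb hx1)
    (by
      rw [← Fin.coe_succAboveEmb, Finset.mem_map']
      exact hx2)
  have hye : y ≠ e := by
    rintro rfl
    exact notMem_map _ _ hy2
  obtain ⟨z, rfl⟩ := Fin.exists_succAbove_eq hye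
  have hz2 : z ∈ B₂ := by
    rwa [← Fin.coe_succAboveEmb, Finset.mem_map'] at hy2
  have hz1 : z ∉ B₁ := by
    intro hz
    exact hy1 (Finset.mem_map_of_mem e.succAboveEmb hz)
  refine ⟨z, hz2, hz1, ?_⟩
  rw [mem_del]
  convert hy using 1
  rw [Finset.map_insert, Finset.map_erase, Fin.coe_succAboveEmb]

end link

theorem M_link (n r : ℕ) : M (n + 1) (r + 1) ^ (r + 1) ≤ M n r ^ (n + 1) := by
  classical
  have h := shearer (univ : Finset (Fin (n + 1)))
    (fun e => (univ : Finset (Finset (Fin (n + 1)))).filter (fun B => e ∈ B)) (r + 1)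
    (Nat.succ_pos r) ((univ : Finset (Fin (n + 1))).powersetCard (r + 1))
    (by
      intro B hB
      rw [← (Finset.mem_powersetCard.1 hB).2]
      congr 1
      ext e
      simp)
    (Fam (n + 1) (r + 1))
    (by
      intro 𝔅 h𝔅 B hB
      exact Finset.mem_powersetCard.2 ⟨Finset.subset_univ _, (mem_Fam.1 h𝔅).1 B hB⟩)
  refine h.trans ?_
  calc ∏ e : Fin (n + 1), ((Fam (n + 1) (r + 1)).image
        (· ∩ (univ : Finset (Finset (Fin (n + 1)))).filter (fun B => e ∈ B))).card
      ≤ ∏ _e : Fin (n + 1), M n r := by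
        refine Finset.prod_le_prod' fun e _ => ?_
        refine Finset.card_le_card_of_injOn (link e) ?_ ?_
        · intro 𝔇 h𝔇
          rw [Finset.mem_coe, Finset.mem_image] at h𝔇
          obtain ⟨𝔅, h𝔅, rfl⟩ := h𝔇
          rw [mem_Fam] at h𝔅
          have hl : link e (𝔅 ∩ (univ : Finset (Finset (Fin (n + 1)))).filter
              (fun B => e ∈ B)) = link e 𝔅 := by
            ext B
            rw [mem_link, mem_link, Finset.mem_inter, Finset.mem_filter]
            simp
          rw [Finset.mem_coe, hl, mem_Fam]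
          refine ⟨?_, exch_link e h𝔅.2⟩
          intro B hB
          rw [mem_link] at hB
          have := h𝔅.1 _ hB
          rw [Finset.card_insert_of_notMem (notMem_map _ _), Finset.card_map] at this
          omega
        · intro 𝔇 h𝔇 𝔇' h𝔇' hl
          rw [Finset.mem_coe, Finset.mem_image] at h𝔇 h𝔇'
          obtain ⟨𝔅, _, rfl⟩ := h𝔇
          obtain ⟨𝔅', _, rfl⟩ := h𝔇'
          have key : ∀ 𝔄 : Finset (Finset (Fin (n + 1))), ∀ B : Finset (Fin (n + 1)), e ∈ B →
              ∀ B' : Finset (Fin n), B'.map e.succAboveEmb = B.erase e →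
              (B' ∈ link e 𝔄 ↔ B ∈ 𝔄) := by
            intro 𝔄 B hB B' hB'
            rw [mem_link, hB', Finset.insert_erase hB]
          ext B
          by_cases hB : e ∈ B
          · obtain ⟨B', hB'⟩ := exists_map_eq e (B := B.erase e) (Finset.notMem_erase e B)
            rw [← key _ B hB B' hB', ← key _ B hB B' hB', hl]
          · simp [hB]
    _ = M n r ^ (n + 1) := by simp

theorem M_del (n r : ℕ) (hr : r ≤ n) : M (n + 1) r ^ (n + 1 - r) ≤ M n r ^ (n + 1) := by
  classical
  have h := shearer (univ : Finset (Fin (n + 1)))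
    (fun e => (univ : Finset (Finset (Fin (n + 1)))).filter (fun B => e ∉ B)) (n + 1 - r)
    (by omega) ((univ : Finset (Fin (n + 1))).powersetCard r)
    (by
      intro B hB
      have h1 := (Finset.mem_powersetCard.1 hB).2
      have h2 : (univ.filter fun e : Fin (n + 1) => B ∈
          (univ : Finset (Finset (Fin (n + 1)))).filter (fun B => e ∉ B)) = Bᶜ := by
        ext e
        simp
      rw [h2, Finset.card_compl, h1, Fintype.card_fin])
    (Fam (n + 1) r)
    (by
      intro 𝔅 h𝔅 B hB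
      exact Finset.mem_powersetCard.2 ⟨Finset.subset_univ _, (mem_Fam.1 h𝔅).1 B hB⟩)
  refine h.trans ?_
  calc ∏ e : Fin (n + 1), ((Fam (n + 1) r).image
        (· ∩ (univ : Finset (Finset (Fin (n + 1)))).filter (fun B => e ∉ B))).card
      ≤ ∏ _e : Fin (n + 1), M n r := by
        refine Finset.prod_le_prod' fun e _ => ?_
        refine Finset.card_le_card_of_injOn (del e) ?_ ?_
        · intro 𝔇 h𝔇
          rw [Finset.mem_coe, Finset.mem_image] at h𝔇
          obtain ⟨𝔅, h𝔅, rfl⟩ := h𝔇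
          rw [mem_Fam] at h𝔅
          have hl : del e (𝔅 ∩ (univ : Finset (Finset (Fin (n + 1)))).filter
              (fun B => e ∉ B)) = del e 𝔅 := by
            ext B
            rw [mem_del, mem_del, Finset.mem_inter, Finset.mem_filter]
            simp only [Finset.mem_univ, true_and, and_iff_left_iff_imp]
            intro _
            exact notMem_map _ _
          rw [Finset.mem_coe, hl, mem_Fam]
          refine ⟨?_, exch_del e h𝔅.2⟩
          intro B hB
          rw [mem_del] at hB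
          have := h𝔅.1 _ hB
          rwa [Finset.card_map] at this
        · intro 𝔇 h𝔇 𝔇' h𝔇' hl
          rw [Finset.mem_coe, Finset.mem_image] at h𝔇 h𝔇'
          obtain ⟨𝔅, _, rfl⟩ := h𝔇
          obtain ⟨𝔅', _, rfl⟩ := h𝔇'
          ext B
          by_cases hB : e ∈ B
          · simp [hB]
          · obtain ⟨B', hB'⟩ := exists_map_eq e hB
            rw [← hB', ← mem_del, ← mem_del, hl]
    _ = M n r ^ (n + 1) := by simp

/-- normalised logarithm of the number of families -/
noncomputable def G (n r : ℕ) : ℝ := Real.log (M n r) / (n.choose r)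

lemma log_M_nonneg (n r : ℕ) : 0 ≤ Real.log (M n r) :=
  Real.log_nonneg (by exact_mod_cast M_pos n r)

lemma G_nonneg (n r : ℕ) : 0 ≤ G n r := div_nonneg (log_M_nonneg n r) (Nat.cast_nonneg _)

lemma log_M_eq {n r : ℕ} (hr : r ≤ n) : Real.log (M n r) = n.choose r * G n r := by
  rw [G, mul_div_cancel₀]
  exact_mod_cast (Nat.choose_pos hr).ne'

theorem G_succ_succ {n r : ℕ} (hr : r ≤ n) : G (n + 1) (r + 1) ≤ G n r := by
  have h := M_link n r
  have h1 : ((r + 1 : ℕ) : ℝ) * Real.log (M (n + 1) (r + 1)) ≤ ((n + 1 : ℕ) : ℝ) *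
      Real.log (M n r) := by
    rw [← Real.log_pow, ← Real.log_pow]
    refine Real.log_le_log ?_ (by exact_mod_cast h)
    exact pow_pos (by exact_mod_cast M_pos _ _) _
  have hc : (((n + 1) * n.choose r : ℕ) : ℝ) = (((n + 1).choose (r + 1) * (r + 1) : ℕ) : ℝ) := by
    rw [Nat.add_one_mul_choose_eq]
  have hp : (0 : ℝ) < n.choose r := by exact_mod_cast Nat.choose_pos hr
  have hp' : (0 : ℝ) < (n + 1).choose (r + 1) := by
    exact_mod_cast Nat.choose_pos (Nat.succ_le_succ hr)
  have hr1 : (0 : ℝ) < ((r + 1 : ℕ) : ℝ) := by positivity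
  push_cast at hc h1 hr1
  rw [G, G, div_le_div_iff₀ hp' hp]
  have h2 : (r + 1 : ℝ) * (Real.log (M (n + 1) (r + 1)) * n.choose r) ≤
      (r + 1 : ℝ) * (Real.log (M n r) * (n + 1).choose (r + 1)) := by
    calc (r + 1 : ℝ) * (Real.log (M (n + 1) (r + 1)) * n.choose r)
        = ((r + 1 : ℝ) * Real.log (M (n + 1) (r + 1))) * n.choose r := by ring
      _ ≤ ((n + 1 : ℝ) * Real.log (M n r)) * n.choose r :=
          mul_le_mul_of_nonneg_right h1 hp.le
      _ = Real.log (M n r) * ((n + 1 : ℝ) * n.choose r) := by ring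
      _ = Real.log (M n r) * ((n + 1).choose (r + 1) * (r + 1 : ℝ)) := by
          rw [hc]
      _ = _ := by ring
  exact le_of_mul_le_mul_left h2 hr1

theorem G_succ {n r : ℕ} (hr : r ≤ n) : G (n + 1) r ≤ G n r := by
  have h := M_del n r hr
  have h1 : ((n + 1 - r : ℕ) : ℝ) * Real.log (M (n + 1) r) ≤ ((n + 1 : ℕ) : ℝ) *
      Real.log (M n r) := by
    rw [← Real.log_pow, ← Real.log_pow]
    refine Real.log_le_log ?_ (by exact_mod_cast h)
    exact pow_pos (by exact_mod_cast M_pos _ _) _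
  have hc : ((n.choose r * (n + 1) : ℕ) : ℝ) = (((n + 1).choose r * (n + 1 - r) : ℕ) : ℝ) := by
    rw [Nat.choose_mul_succ_eq]
  have hp : (0 : ℝ) < n.choose r := by exact_mod_cast Nat.choose_pos hr
  have hp' : (0 : ℝ) < (n + 1).choose r := by
    exact_mod_cast Nat.choose_pos (hr.trans (Nat.le_succ n))
  have hr1 : (0 : ℝ) < ((n + 1 - r : ℕ) : ℝ) := by
    have : 0 < n + 1 - r := by omega
    exact_mod_cast this
  rw [Nat.cast_mul, Nat.cast_mul] at hc
  rw [G, G, div_le_div_iff₀ hp' hp]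
  refine le_of_mul_le_mul_left ?_ hr1
  calc ((n + 1 - r : ℕ) : ℝ) * (Real.log (M (n + 1) r) * n.choose r)
      = (((n + 1 - r : ℕ) : ℝ) * Real.log (M (n + 1) r)) * n.choose r := by ring
    _ ≤ (((n + 1 : ℕ) : ℝ) * Real.log (M n r)) * n.choose r :=
        mul_le_mul_of_nonneg_right h1 hp.le
    _ = Real.log (M n r) * ((n.choose r : ℝ) * ((n + 1 : ℕ) : ℝ)) := by ring
    _ = Real.log (M n r) * (((n + 1).choose r : ℝ) * ((n + 1 - r : ℕ) : ℝ)) := by
        rw [hc]
    _ = _ := by ring

theorem G_le_of_le {n m r : ℕ} (hr : r ≤ n) (h : n ≤ m) : G m r ≤ G n r := by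
  induction m, h using Nat.le_induction with
  | base => exact le_rfl
  | succ m hm ih => exact (G_succ (hr.trans hm)).trans ih

/-- the middle values -/
noncomputable def hh (n : ℕ) : ℝ := G n (n / 2)

theorem hh_succ (n : ℕ) : hh (n + 1) ≤ hh n := by
  rcases Nat.even_or_odd' n with ⟨k, rfl | rfl⟩
  · rw [hh, hh, show (2 * k + 1) / 2 = k by omega, show 2 * k / 2 = k by omega]
    exact G_succ (by omega)
  · rw [hh, hh, show (2 * k + 1 + 1) / 2 = k + 1 by omega, show (2 * k + 1) / 2 = k by omega]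
    exact G_succ_succ (by omega)

theorem hh_antitone : Antitone hh := antitone_nat_of_succ_le hh_succ

theorem G_le_hh {n r : ℕ} (h : 2 * r + 1 ≤ n) : G n r ≤ hh (2 * r + 1) := by
  rw [hh, show (2 * r + 1) / 2 = r by omega]
  exact G_le_of_le (by omega) h

end H34W
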