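import Pool.Agent.H34W.Count
import Pool.Agent.H34W.Deg

/-!
# Local descriptors of matroids
-/

set_option autoImplicit false

namespace H34W

open Finset

section fam

variable {n : ℕ}

open Classical in
/-- elements whose removal makes `X` extendable to a member -/
noncomputable def cX (𝔅 : Finset (Finset (Fin n))) (X : Finset (Fin n)) : Finset (Fin n) :=
  X.filter fun x => ∃ B ∈ 𝔅, X.erase x ⊆ B

open Classical in
/-- elements whose addition makes `X` contain a member -/
noncomputable def dX (𝔅 : Finset (Finset (Fin n))) (X : Finset (Fin n)) : Finset (Fin n) :=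
  Xᶜ.filter fun y => ∃ B ∈ 𝔅, B ⊆ insert y X

lemma swap_mem_iff {r : ℕ} {𝔅 : Finset (Finset (Fin n))} (h𝔅 : 𝔅 ∈ Fam n r)
    {X : Finset (Fin n)} (hXr : X.card = r) (hX : X ∉ 𝔅) {x y : Fin n} (hx : x ∈ X)
    (hy : y ∉ X) : insert y (X.erase x) ∈ 𝔅 ↔ x ∈ cX 𝔅 X ∧ y ∈ dX 𝔅 X := by
  classical
  rw [mem_Fam] at h𝔅
  constructor
  · intro h
    refine ⟨?_, ?_⟩
    · rw [cX, Finset.mem_filter]
      exact ⟨hx, _, h, Finset.subset_insert _ _⟩
    · rw [dX, Finset.mem_filter, Finset.mem_compl]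
      exact ⟨hy, _, h, Finset.insert_subset_insert _ (Finset.erase_subset _ _)⟩
  · rintro ⟨h1, h2⟩
    rw [cX, Finset.mem_filter] at h1
    rw [dX, Finset.mem_filter] at h2
    obtain ⟨_, B₁, hB₁, hs1⟩ := h1
    obtain ⟨_, B₂, hB₂, hs2⟩ := h2
    have hc1 := h𝔅.1 B₁ hB₁
    have hc2 := h𝔅.1 B₂ hB₂
    have hXpos : 0 < X.card := Finset.card_pos.2 ⟨x, hx⟩
    have hce : (X.erase x).card = r - 1 := by rw [Finset.card_erase_of_mem hx, hXr]
    -- the extra element of B₁
    have hd1 : (B₁ \ X.erase x).card = 1 := by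
      rw [Finset.card_sdiff_of_subset hs1]; omega
    obtain ⟨b, hb⟩ := Finset.card_eq_one.1 hd1
    have hbm : b ∈ B₁ ∧ b ∉ X.erase x := Finset.mem_sdiff.1 (by rw [hb]; simp)
    have hB₁e : B₁ = insert b (X.erase x) := by
      rw [← Finset.sdiff_union_of_subset hs1, hb]; rfl
    have hbX : b ∉ X := by
      intro hbX
      have hbx : b = x := by
        by_contra hne
        exact hbm.2 (Finset.mem_erase.2 ⟨hne, hbX⟩)
      rw [hbx, Finset.insert_erase hx] at hB₁e
      exact hX (hB₁e ▸ hB₁)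
    -- the missing element of B₂
    have hyB₂ : y ∈ B₂ := by
      by_contra hyB
      have : B₂ ⊆ X := by
        intro z hz
        rcases Finset.mem_insert.1 (hs2 hz) with rfl | h
        · exact absurd hz hyB
        · exact h
      exact hX (Finset.eq_of_subset_of_card_le this (by omega) ▸ hB₂)
    have hd2 : (insert y X \ B₂).card = 1 := by
      rw [Finset.card_sdiff_of_subset hs2, Finset.card_insert_of_notMem hy]; omega
    obtain ⟨c, hc⟩ := Finset.card_eq_one.1 hd2
    have hcm : c ∈ insert y X ∧ c ∉ B₂ := Finset.mem_sdiff.1 (by rw [hc]; simp)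
    have hcX : c ∈ X := by
      rcases Finset.mem_insert.1 hcm.1 with rfl | h
      · exact absurd hyB₂ hcm.2
      · exact h
    have hmem2 : ∀ z ∈ X, z ≠ c → z ∈ B₂ := by
      intro z hz hzc
      by_contra hzB
      have : z ∈ insert y X \ B₂ := Finset.mem_sdiff.2 ⟨Finset.mem_insert_of_mem hz, hzB⟩
      rw [hc, Finset.mem_singleton] at this
      exact hzc this
    by_cases hby : b = y
    · rw [← hby, ← hB₁e]; exact hB₁
    · have hbB₂ : b ∉ B₂ := by
        intro h
        rcases Finset.mem_insert.1 (hs2 h) with h' | h'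
        · exact hby h'
        · exact hbX h'
      obtain ⟨z, hz2, hz1, hz⟩ := h𝔅.2 B₁ hB₁ B₂ hB₂ b hbm.1 hbB₂
      have herase : B₁.erase b = X.erase x := by
        rw [hB₁e, Finset.erase_insert hbm.2]
      rw [herase] at hz
      rcases Finset.mem_insert.1 (hs2 hz2) with rfl | hzX
      · exact hz
      · have hzx : z = x := by
          by_contra hne
          exact hz1 (hs1 (Finset.mem_erase.2 ⟨hne, hzX⟩))
        rw [hzx, Finset.insert_erase hx] at hz
        exact absurd hz hX

theorem desc_determines {r : ℕ} {𝔅 𝔅' : Finset (Finset (Fin n))} (h𝔅 : 𝔅 ∈ Fam n r)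
    (h𝔅' : 𝔅' ∈ Fam n r) {X : Finset (Fin n)} (hXr : X.card = r) (hX : X ∉ 𝔅) (hX' : X ∉ 𝔅')
    (hd : (cX 𝔅 X, dX 𝔅 X) = (cX 𝔅' X, dX 𝔅' X)) (Y : Finset (Fin n)) (hY : JAdj X Y) :
    Y ∈ 𝔅 ↔ Y ∈ 𝔅' := by
  classical
  obtain ⟨x, hx, y, hy, hYe⟩ := hY
  have hYe' : Y = insert y (X.erase x) := by rw [hYe]
  rw [hYe', swap_mem_iff h𝔅 hXr hX hx hy, swap_mem_iff h𝔅' hXr hX' hx hy]
  rw [Prod.mk.injEq] at hd
  rw [hd.1, hd.2]

end fam

section mat

variable {n : ℕ}

open Classical in
/-- the elements of the unique circuit, if there is one -/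
noncomputable def CX (N : Matroid (Fin n)) (X : Finset (Fin n)) : Finset (Fin n) :=
  X.filter fun x => N.Indep ((X.erase x : Finset (Fin n)) : Set (Fin n))

lemma not_indep_CX {N : Matroid (Fin n)} {X : Finset (Fin n)} (hX : ¬ N.Indep (X : Set (Fin n)))
    (hE : N.E = Set.univ) (hne : (CX N X).Nonempty) : ¬ N.Indep (CX N X : Set (Fin n)) := by
  classical
  obtain ⟨x, hx⟩ := hne
  rw [CX, Finset.mem_filter] at hx
  have hJ : N.Indep ((X.erase x : Finset (Fin n)) : Set (Fin n)) := hx.2
  have hxJ : x ∉ ((X.erase x : Finset (Fin n)) : Set (Fin n)) := by simp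
  have hins : insert x ((X.erase x : Finset (Fin n)) : Set (Fin n)) = (X : Set (Fin n)) := by
    rw [← Finset.coe_insert, Finset.insert_erase hx.1]
  have hdep : N.Dep (insert x ((X.erase x : Finset (Fin n)) : Set (Fin n))) := by
    rw [hins]
    exact ⟨hX, by rw [hE]; exact Set.subset_univ _⟩
  have hcl : x ∈ N.closure ((X.erase x : Finset (Fin n)) : Set (Fin n)) :=
    (hJ.mem_closure_iff_of_notMem hxJ).2 hdep
  have hcirc := hJ.fundCircuit_isCircuit hcl hxJ
  intro hind
  refine hcirc.not_indep (hind.subset ?_)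
  intro z hz
  have hzX : z ∈ (X : Set (Fin n)) := by
    rw [← hins]
    exact N.fundCircuit_subset_insert _ _ hz
  rw [Finset.mem_coe, CX, Finset.mem_filter]
  refine ⟨hzX, ?_⟩
  have h2 := (hJ.mem_fundCircuit_iff hcl hxJ).1 hz
  rw [hins] at h2
  convert h2 using 1
  rw [Finset.coe_erase]

lemma indep_isBase {r : ℕ} (N : Mat n r) {X : Finset (Fin n)} (hr : X.card = r)
    (hX : N.val.Indep (X : Set (Fin n))) : N.val.IsBase (X : Set (Fin n)) := by
  obtain ⟨B, hB, hXB⟩ := hX.exists_isBase_superset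
  have h1 := hB.encard_eq_eRank
  rw [N.2.2] at h1
  have h2 : (X : Set (Fin n)).encard = r := by
    rw [Set.encard_coe_eq_coe_finsetCard, hr]
  have h3 : (X : Set (Fin n)) = B :=
    (Set.toFinite (X : Set (Fin n))).eq_of_subset_of_encard_le hXB (by rw [h1, h2])
  rw [h3]
  exact hB

/-- if all `m`-subsets of the dependent `r`-set `X` are independent, then `CX` is empty or large -/
lemma CX_large {r m : ℕ} (N : Mat n r) {X : Finset (Fin n)} (hr : X.card = r)
    (hX : X ∉ bas N.val) (hm : m ≤ r)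
    (hsub : ∀ Y ⊆ X, Y.card = m → N.val.Indep (Y : Set (Fin n))) :
    CX N.val X = ∅ ∨ (X \ CX N.val X).card < r - m := by
  classical
  rcases (CX N.val X).eq_empty_or_nonempty with h | h
  · exact Or.inl h
  · right
    by_contra hcon
    push Not at hcon
    have hCX : CX N.val X ⊆ X := Finset.filter_subset _ _
    have hXind : ¬ N.val.Indep (X : Set (Fin n)) := by
      intro h'
      exact hX (mem_bas.2 (indep_isBase N hr h'))
    have hcard : (CX N.val X).card ≤ m := by
      rw [Finset.card_sdiff_of_subset hCX] at hcon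
      have := Finset.card_le_card hCX
      omega
    obtain ⟨Y, hY1, hY2, hY3⟩ := Finset.exists_subsuperset_card_eq hCX hcard (by omega)
    refine not_indep_CX hXind N.2.1 h ((hsub Y hY2 hY3).subset ?_)
    exact_mod_cast hY1

lemma cX_bas (N : Matroid (Fin n)) (X : Finset (Fin n)) : cX (bas N) X = CX N X := by
  classical
  rw [cX, CX]
  refine Finset.filter_congr fun x _ => ?_
  rw [Matroid.indep_iff]
  constructor
  · rintro ⟨B, hB, hs⟩
    exact ⟨B, mem_bas.1 hB, by exact_mod_cast hs⟩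
  · rintro ⟨B, hB, hs⟩
    refine ⟨(Set.toFinite B).toFinset, ?_, ?_⟩
    · rw [mem_bas, Set.Finite.coe_toFinset]; exact hB
    · intro z hz
      rw [Set.Finite.mem_toFinset]
      exact hs hz

lemma dual_indep_iff {N : Matroid (Fin n)} (hE : N.E = Set.univ) (Y : Finset (Fin n)) :
    N✶.Indep (Y : Set (Fin n)) ↔ ∃ B ∈ bas N, B ⊆ Yᶜ := by
  classical
  rw [Matroid.dual_indep_iff_exists (by rw [hE]; exact Set.subset_univ _)]
  constructor
  · rintro ⟨B, hB, hd⟩
    refine ⟨(Set.toFinite B).toFinset, ?_, ?_⟩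
    · rw [mem_bas, Set.Finite.coe_toFinset]; exact hB
    · intro z hz
      rw [Set.Finite.mem_toFinset] at hz
      rw [Finset.mem_compl]
      intro hzY
      exact Set.disjoint_left.1 hd hzY hz
  · rintro ⟨B, hB, hs⟩
    refine ⟨B, mem_bas.1 hB, ?_⟩
    rw [Set.disjoint_left]
    intro z hz hzB
    have := hs hzB
    rw [Finset.mem_compl] at this
    exact this hz

lemma dX_bas {N : Matroid (Fin n)} (hE : N.E = Set.univ) (X : Finset (Fin n)) :
    dX (bas N) X = CX N✶ Xᶜ := by
  classical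
  rw [dX, CX]
  refine Finset.filter_congr fun y _ => ?_
  rw [dual_indep_iff hE]
  have : (Xᶜ.erase y)ᶜ = insert y X := by
    ext z
    simp only [Finset.mem_compl, Finset.mem_erase, Finset.mem_insert]
    tauto
  rw [this]

lemma compl_notMem_bas_dual {N : Matroid (Fin n)} (hE : N.E = Set.univ) {X : Finset (Fin n)}
    (hX : X ∉ bas N) : Xᶜ ∉ bas N✶ := by
  intro h
  apply hX
  rw [mem_bas] at h ⊢
  have h1 := h.compl_isBase_of_dual
  rw [hE] at h1
  convert h1 using 1
  ext z
  simp

end mat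

end H34W
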