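import Pool.Agent.H34W.KW
import Pool.Agent.H34W.Loc

/-!
# The counting bound for matroids, before optimisation
-/

set_option autoImplicit false

namespace H34W

open Finset

section few

variable {n : ℕ}

lemma sum_pow_lt {n : ℕ} (hn : 2 ≤ n) (L : ℕ) : ∑ i ∈ range L, n ^ i + 1 ≤ n ^ L := by
  induction L with
  | zero => simp
  | succ L ih =>
    rw [Finset.sum_range_succ, pow_succ]
    nlinarith [Nat.one_le_pow L n (by omega)]

lemma card_small_le (hn : 2 ≤ n) (L : ℕ) :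
    ((univ : Finset (Finset (Fin n))).filter (fun T => T.card < L)).card + 1 ≤ n ^ L := by
  refine le_trans ?_ (sum_pow_lt hn L)
  refine Nat.add_le_add_right ?_ 1
  rw [Finset.card_eq_sum_card_fiberwise (f := fun T : Finset (Fin n) => T.card) (t := range L)]
  · refine Finset.sum_le_sum fun i _ => ?_
    refine le_trans ?_ (Nat.choose_le_pow n i)
    have hc : ((univ : Finset (Fin n)).powersetCard i).card = n.choose i := by
      rw [Finset.card_powersetCard, Finset.card_univ, Fintype.card_fin]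
    rw [← hc]
    refine Finset.card_le_card ?_
    intro T hT
    rw [Finset.mem_filter, Finset.mem_filter] at hT
    rw [Finset.mem_powersetCard]
    exact ⟨Finset.subset_univ _, hT.2⟩
  · intro T hT
    rw [Finset.mem_coe, Finset.mem_filter] at hT
    exact Finset.mem_coe.2 (Finset.mem_range.2 hT.2)

/-- the empty set and the sets obtained from `X` by removing fewer than `L` elements -/
def DX (L : ℕ) (X : Finset (Fin n)) : Finset (Finset (Fin n)) :=
  insert ∅ (((univ : Finset (Finset (Fin n))).filter (fun T => T.card < L)).image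
    (fun T => X \ T))

lemma DX_card (hn : 2 ≤ n) (L : ℕ) (X : Finset (Fin n)) : (DX L X).card ≤ n ^ L := by
  refine le_trans ?_ (card_small_le hn L)
  refine (Finset.card_insert_le _ _).trans ?_
  exact Nat.add_le_add_right Finset.card_image_le 1

lemma mem_DX {L : ℕ} {X C : Finset (Fin n)} (hC : C ⊆ X) (h : C = ∅ ∨ (X \ C).card < L) :
    C ∈ DX L X := by
  rw [DX, Finset.mem_insert, Finset.mem_image]
  rcases h with h | h
  · exact Or.inl h
  · right
    refine ⟨X \ C, ?_, ?_⟩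
    · rw [Finset.mem_filter]
      exact ⟨Finset.mem_univ _, h⟩
    · rw [Finset.sdiff_sdiff_eq_self hC]

end few

section fiber

variable {n : ℕ}

open Classical in
/-- the `k`-sets contained in a member -/
noncomputable def Idn (𝔅 : Finset (Finset (Fin n))) (k : ℕ) : Finset (Finset (Fin n)) :=
  ((univ : Finset (Fin n)).powersetCard k).filter fun Y => ∃ B ∈ 𝔅, Y ⊆ B

open Classical in
/-- the `k`-sets containing a member -/
noncomputable def Spn (𝔅 : Finset (Finset (Fin n))) (k : ℕ) : Finset (Finset (Fin n)) :=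
  ((univ : Finset (Fin n)).powersetCard k).filter fun Z => ∃ B ∈ 𝔅, B ⊆ Z

lemma cX_subset (𝔅 : Finset (Finset (Fin n))) (X : Finset (Fin n)) : cX 𝔅 X ⊆ X := by
  classical
  exact Finset.filter_subset _ _

lemma dX_subset (𝔅 : Finset (Finset (Fin n))) (X : Finset (Fin n)) : dX 𝔅 X ⊆ Xᶜ := by
  classical
  exact Finset.filter_subset _ _

lemma cX_mem {r L : ℕ} (hL : L ≤ r) {𝔅 : Finset (Finset (Fin n))}
    (h𝔅 : 𝔅 ∈ Fam n r) {X : Finset (Fin n)} (hr : X.card = r) (hX : X ∉ 𝔅)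
    (hI : ∀ Y ⊆ X, Y.card = r - L → ∃ B ∈ 𝔅, Y ⊆ B) : cX 𝔅 X ∈ DX L X := by
  classical
  refine mem_DX (cX_subset _ _) ?_
  by_cases hne : 𝔅 = ∅
  · left
    rw [cX, hne]
    simp
  · obtain ⟨N, rfl⟩ := exists_bas_eq h𝔅 hne
    rw [cX_bas]
    have h := CX_large (m := r - L) N hr hX (by omega) (by
      intro Y hY hYc
      obtain ⟨B, hB, hYB⟩ := hI Y hY hYc
      exact (mem_bas.1 hB).indep.subset (by exact_mod_cast hYB))
    rwa [show r - (r - L) = L by omega] at h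

lemma dX_mem {r L : ℕ} (hrn : r ≤ n) (hL : r + L ≤ n) {𝔅 : Finset (Finset (Fin n))}
    (h𝔅 : 𝔅 ∈ Fam n r) {X : Finset (Fin n)} (hr : X.card = r) (hX : X ∉ 𝔅)
    (hS : ∀ Z, X ⊆ Z → Z.card = r + L → ∃ B ∈ 𝔅, B ⊆ Z) : dX 𝔅 X ∈ DX L Xᶜ := by
  classical
  refine mem_DX (dX_subset _ _) ?_
  by_cases hne : 𝔅 = ∅
  · left
    rw [dX, hne]
    simp
  · obtain ⟨N, rfl⟩ := exists_bas_eq h𝔅 hne
    rw [dX_bas N.2.1]
    have hXc : (Xᶜ).card = n - r := by
      rw [Finset.card_compl, Fintype.card_fin, hr]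
    have h := CX_large (m := n - r - L) (dualMat hrn N) hXc
      (compl_notMem_bas_dual N.2.1 hX) (by omega) (by
      intro Y hY hYc
      change N.val✶.Indep _
      rw [dual_indep_iff N.2.1]
      refine hS Yᶜ ?_ ?_
      · intro z hz
        rw [Finset.mem_compl]
        intro hzY
        have := hY hzY
        rw [Finset.mem_compl] at this
        exact this hz
      · rw [Finset.card_compl, Fintype.card_fin, hYc]
        omega)
    rwa [show n - r - (n - r - L) = L by omega] at h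

/-- the bound for the number of members of a fiber -/
theorem fiber_bound {r L : ℕ} (hn : 2 ≤ n) (hr1 : 1 ≤ r) (hL : L ≤ r) (hLn : r + L ≤ n)
    (ε κ x γ : ℝ) (hε : 0 < ε) (hx : 0 < x) (hx1 : x ≤ 1) (hγ : 0 ≤ γ)
    (hκ : κ = (r : ℝ) * ((n - r + 1 : ℕ) : ℝ) * ε / ((1 + ε) * n.choose r))
    (hκ1 : κ ≤ 1) (hγκ : (1 - κ) ^ γ ≤ x / ((n ^ (2 * L) : ℕ) : ℝ))
    (𝓘 𝓢 : Finset (Finset (Fin n))) :
    (((Fam n r).filter (fun 𝔅 => (Idn 𝔅 (r - L), Spn 𝔅 (r + L)) = (𝓘, 𝓢))).card : ℝ) ≤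
      2 ^ ((1 + ε) * n.choose r / ((n - r + 1 : ℕ) : ℝ)) * (1 + x) ^ (n.choose r) *
        ((((n ^ (2 * L) : ℕ) : ℝ) / x) * (((n - r + 1 : ℕ) : ℝ)) ^ γ) := by
  classical
  have hrn : r ≤ n := by omega
  set C : ℝ := ((n.choose r : ℕ) : ℝ) with hC
  have hCpos : 0 < C := by rw [hC]; exact_mod_cast Nat.choose_pos hrn
  set s1 : ℝ := ((n - r + 1 : ℕ) : ℝ) with hs1
  have hs1pos : 1 ≤ s1 := by rw [hs1]; exact_mod_cast (by omega : 1 ≤ n - r + 1)
  set a₀ : ℝ := (1 + ε) * C / s1 with ha₀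
  have ha₀pos : 0 < a₀ := by positivity
  have hrpos : (1 : ℝ) ≤ r := by exact_mod_cast hr1
  set P : ℕ := n ^ (2 * L) with hP
  have hP1 : 1 ≤ P := Nat.one_le_pow _ _ (by omega)
  have hP1' : (1 : ℝ) ≤ P := by exact_mod_cast hP1
  have hxP : x ≤ P := hx1.trans hP1'
  set A₀ : Finset (Finset (Fin n)) := ((univ : Finset (Fin n)).powersetCard r).filter
    (fun X => (∀ Y ⊆ X, Y.card = r - L → Y ∈ 𝓘) ∧ (∀ Z, X ⊆ Z → Z.card = r + L → Z ∈ 𝓢))
    with hA₀
  set 𝓜 := (Fam n r).filter (fun 𝔅 => (Idn 𝔅 (r - L), Spn 𝔅 (r + L)) = (𝓘, 𝓢)) with h𝓜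
  have hmem : ∀ 𝔅 ∈ 𝓜, 𝔅 ∈ Fam n r ∧ Idn 𝔅 (r - L) = 𝓘 ∧ Spn 𝔅 (r + L) = 𝓢 := by
    intro 𝔅 h
    rw [h𝓜, Finset.mem_filter, Prod.mk.injEq] at h
    exact ⟨h.1, h.2.1, h.2.2⟩
  have hsubA : ∀ 𝔅 ∈ 𝓜, 𝔅 ⊆ A₀ := by
    intro 𝔅 h X hX
    obtain ⟨h1, h2, h3⟩ := hmem 𝔅 h
    rw [mem_Fam] at h1
    rw [hA₀, Finset.mem_filter, Finset.mem_powersetCard]
    refine ⟨⟨Finset.subset_univ _, h1.1 X hX⟩, ?_, ?_⟩
    · intro Y hY hYc
      rw [← h2, Idn, Finset.mem_filter, Finset.mem_powersetCard]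
      exact ⟨⟨Finset.subset_univ _, hYc⟩, X, hX, hY⟩
    · intro Z hZ hZc
      rw [← h3, Spn, Finset.mem_filter, Finset.mem_powersetCard]
      exact ⟨⟨Finset.subset_univ _, hZc⟩, X, hX, hZ⟩
  have hA₀sub : A₀ ⊆ (univ : Finset (Fin n)).powersetCard r := Finset.filter_subset _ _
  have hAcard : A₀.card ≤ n.choose r := by
    have := Finset.card_le_card hA₀sub
    rwa [Finset.card_powersetCard, Finset.card_univ, Fintype.card_fin] at this
  have hmain := kw (V := Finset (Fin n)) (Δ := Finset (Fin n) × Finset (Fin n)) JAdj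
    (fun 𝔅 X => (cX 𝔅 X, dX 𝔅 X)) A₀ 𝓜 (fun X => DX L X ×ˢ DX L Xᶜ) P
    (by
      intro 𝔅 h𝔅 X hX hXn
      obtain ⟨h1, h2, h3⟩ := hmem 𝔅 h𝔅
      rw [hA₀, Finset.mem_filter, Finset.mem_powersetCard] at hX
      rw [Finset.mem_product]
      refine ⟨cX_mem hL h1 hX.1.2 hXn ?_, dX_mem hrn hLn h1 hX.1.2 hXn ?_⟩
      · intro Y hY hYc
        have := hX.2.1 Y hY hYc
        rw [← h2, Idn, Finset.mem_filter] at this
        exact this.2
      · intro Z hZ hZc
        have := hX.2.2 Z hZ hZc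
        rw [← h3, Spn, Finset.mem_filter] at this
        exact this.2)
    (by
      intro X _
      rw [Finset.card_product, hP, two_mul, pow_add]
      exact Nat.mul_le_mul (DX_card hn L X) (DX_card hn L Xᶜ))
    (by
      intro 𝔅 h𝔅 𝔅' h𝔅' X hX hXn hXn' hd Y hY
      rw [hA₀, Finset.mem_filter, Finset.mem_powersetCard] at hX
      exact desc_determines (hmem 𝔅 h𝔅).1 (hmem 𝔅' h𝔅').1 hX.1.2 hXn hXn' hd Y hY)
    a₀ κ x γ ha₀pos hx hxP hγ hκ1 hγκ
    (by
      intro A hA hAa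
      have hAne : A.Nonempty := by
        rw [← Finset.card_pos]
        exact_mod_cast lt_of_lt_of_le ha₀pos hAa
      obtain ⟨X, hXA, hX⟩ := deg_exists A (hA.trans hA₀sub) hAne hr1 hrn
      refine ⟨X, hXA, le_trans ?_ hX⟩
      rw [hκ, ← hC, ← hs1]
      have h1 : (1 + ε) * C ≤ s1 * A.card := by
        rw [ha₀, div_le_iff₀ (by positivity)] at hAa
        linarith
      have h2 : 1 ≤ s1 * A.card / C * (1 / (1 + ε)) := by
        rw [div_mul_div_comm, mul_one, one_le_div (by positivity)]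
        linarith
      have h3 : (r : ℝ) * s1 * ε / ((1 + ε) * C) * A.card =
          r * (s1 * A.card / C - s1 * A.card / C * (1 / (1 + ε))) := by
        field_simp
        ring
      rw [h3]
      refine mul_le_mul_of_nonneg_left ?_ (by positivity)
      linarith)
    A₀.card A₀ rfl (Finset.Subset.refl _) 𝓜 (Finset.Subset.refl _)
    (by
      intro 𝔅 h𝔅 𝔅' h𝔅' Y hY
      exact iff_of_false (fun h => hY (hsubA 𝔅 h𝔅 h)) (fun h => hY (hsubA 𝔅' h𝔅' h)))
  refine hmain.trans ?_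
  rw [Phi]
  have hxx : (1 + x) ^ A₀.card ≤ (1 + x) ^ (n.choose r) :=
    pow_le_pow_right₀ (by linarith) hAcard
  have hPx : 1 ≤ (P : ℝ) / x := (one_le_div hx).2 hxP
  have hlast : (if a₀ ≤ (A₀.card : ℝ) then ((P : ℝ) / x) * ((A₀.card : ℝ) / a₀) ^ γ else 1) ≤
      ((P : ℝ) / x) * s1 ^ γ := by
    split_ifs with h
    · refine mul_le_mul_of_nonneg_left ?_ (by positivity)
      refine Real.rpow_le_rpow (by positivity) ?_ hγ
      rw [div_le_iff₀ ha₀pos, ha₀]
      have h4 : (A₀.card : ℝ) ≤ C := by rw [hC]; exact_mod_cast hAcard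
      have h5 : s1 * ((1 + ε) * C / s1) = (1 + ε) * C := by field_simp
      rw [h5]
      nlinarith
    · have h6 : 1 ≤ s1 ^ γ := Real.one_le_rpow hs1pos hγ
      nlinarith
  refine mul_le_mul (mul_le_mul_of_nonneg_left hxx (by positivity)) hlast ?_ (by positivity)
  split_ifs <;> positivity

/-- the bound for `M n r` -/
theorem M_bound {r L : ℕ} (hn : 2 ≤ n) (hr1 : 1 ≤ r) (hL : L ≤ r) (hLn : r + L ≤ n)
    (ε κ x γ : ℝ) (hε : 0 < ε) (hx : 0 < x) (hx1 : x ≤ 1) (hγ : 0 ≤ γ)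
    (hκ : κ = (r : ℝ) * ((n - r + 1 : ℕ) : ℝ) * ε / ((1 + ε) * n.choose r))
    (hκ1 : κ ≤ 1) (hγκ : (1 - κ) ^ γ ≤ x / ((n ^ (2 * L) : ℕ) : ℝ)) :
    (M n r : ℝ) ≤ 2 ^ (n.choose (r - L)) * 2 ^ (n.choose (r + L)) *
      (2 ^ ((1 + ε) * n.choose r / ((n - r + 1 : ℕ) : ℝ)) * (1 + x) ^ (n.choose r) *
        ((((n ^ (2 * L) : ℕ) : ℝ) / x) * (((n - r + 1 : ℕ) : ℝ)) ^ γ)) := by
  classical
  set T := ((univ : Finset (Fin n)).powersetCard (r - L)).powerset ×ˢ
    ((univ : Finset (Fin n)).powersetCard (r + L)).powerset with hT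
  have hTcard : T.card = 2 ^ (n.choose (r - L)) * 2 ^ (n.choose (r + L)) := by
    rw [hT, Finset.card_product, Finset.card_powerset, Finset.card_powerset,
      Finset.card_powersetCard, Finset.card_powersetCard, Finset.card_univ, Fintype.card_fin]
  have h1 : M n r = ∑ b ∈ T,
      ((Fam n r).filter (fun 𝔅 => (Idn 𝔅 (r - L), Spn 𝔅 (r + L)) = b)).card := by
    rw [M]
    refine Finset.card_eq_sum_card_fiberwise ?_
    intro 𝔅 _
    refine Finset.mem_coe.2 ?_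
    rw [hT, Finset.mem_product, Finset.mem_powerset, Finset.mem_powerset]
    exact ⟨Finset.filter_subset _ _, Finset.filter_subset _ _⟩
  rw [h1]
  push_cast
  refine (Finset.sum_le_card_nsmul T _ _ fun b _ =>
    fiber_bound hn hr1 hL hLn ε κ x γ hε hx hx1 hγ hκ hκ1 hγκ b.1 b.2).trans ?_
  rw [nsmul_eq_mul, hTcard]
  push_cast
  exact le_rfl

end fiber

end H34W
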