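import Mathlib

/-!
# An abstract counting lemma of Kleitman-Winston type with local descriptors
-/

set_option autoImplicit false

namespace H34W

open Finset

open Classical in
/-- the bound -/
noncomputable def Phi (a₀ x P γ : ℝ) (a : ℕ) : ℝ :=
  2 ^ a₀ * (1 + x) ^ a * (if a₀ ≤ a then (P / x) * ((a : ℝ) / a₀) ^ γ else 1)

lemma Phi_ge {a₀ x P γ : ℝ} {a : ℕ} (ha₀ : 0 < a₀) (hx : 0 < x) (hxP : x ≤ P) (hγ : 0 ≤ γ) :
    2 ^ a₀ * (1 + x) ^ a ≤ Phi a₀ x P γ a := by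
  rw [Phi]
  have h0 : 0 ≤ (2 : ℝ) ^ a₀ * (1 + x) ^ a := by positivity
  refine le_mul_of_one_le_right h0 ?_
  split_ifs with h
  · have h1 : 1 ≤ P / x := (one_le_div hx).2 hxP
    have h2 : 1 ≤ (a : ℝ) / a₀ := (one_le_div ha₀).2 h
    have h3 : 1 ≤ ((a : ℝ) / a₀) ^ γ := Real.one_le_rpow h2 hγ
    nlinarith
  · exact le_rfl

open Classical in
theorem kw {V Δ : Type*} (adj : V → V → Prop) (desc : Finset V → V → Δ)
    (A₀ : Finset V) (𝓜 : Finset (Finset V)) (dset : V → Finset Δ) (P : ℕ)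
    (hd : ∀ 𝔅 ∈ 𝓜, ∀ X ∈ A₀, X ∉ 𝔅 → desc 𝔅 X ∈ dset X)
    (hP : ∀ X ∈ A₀, (dset X).card ≤ P)
    (hdet : ∀ 𝔅 ∈ 𝓜, ∀ 𝔅' ∈ 𝓜, ∀ X ∈ A₀, X ∉ 𝔅 → X ∉ 𝔅' → desc 𝔅 X = desc 𝔅' X →
      ∀ Y, adj X Y → (Y ∈ 𝔅 ↔ Y ∈ 𝔅'))
    (a₀ κ x γ : ℝ) (ha₀ : 0 < a₀) (hx : 0 < x) (hxP : x ≤ P) (hγ : 0 ≤ γ)
    (hκ1 : κ ≤ 1) (hγκ : (1 - κ) ^ γ ≤ x / P)
    (hdeg : ∀ A ⊆ A₀, a₀ ≤ (A.card : ℝ) → ∃ X ∈ A, κ * A.card ≤ ((A.filter (adj X)).card : ℝ)) :
    ∀ (m : ℕ) (A : Finset V), A.card = m → A ⊆ A₀ → ∀ 𝓜' ⊆ 𝓜,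
      (∀ 𝔅 ∈ 𝓜', ∀ 𝔅' ∈ 𝓜', ∀ Y, Y ∉ A → (Y ∈ 𝔅 ↔ Y ∈ 𝔅')) →
      (𝓜'.card : ℝ) ≤ Phi a₀ x P γ m := by
  have hPpos : (0 : ℝ) < P := lt_of_lt_of_le hx hxP
  intro m
  induction m using Nat.strong_induction_on with
  | _ m ih =>
  intro A hAm hA 𝓜' h𝓜' hagree
  by_cases hm : a₀ ≤ (m : ℝ)
  · -- large candidate set
    obtain ⟨X, hXA, hXdeg⟩ := hdeg A hA (by rw [hAm]; exact hm)
    have hmpos : 0 < m := by
      rw [← hAm]; exact Finset.card_pos.2 ⟨X, hXA⟩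
    have hX0 : X ∈ A₀ := hA hXA
    -- first part
    set 𝓜1 := 𝓜'.filter (fun 𝔅 => X ∈ 𝔅) with h𝓜1
    set 𝓜0 := 𝓜'.filter (fun 𝔅 => X ∉ 𝔅) with h𝓜0
    have hsplit : (𝓜'.card : ℝ) = 𝓜1.card + 𝓜0.card := by
      rw [h𝓜1, h𝓜0]
      exact_mod_cast (Finset.card_filter_add_card_filter_not (s := 𝓜')
        (fun 𝔅 => X ∈ 𝔅)).symm
    set D : ℝ := 2 ^ a₀ * (1 + x) ^ (m - 1) with hD
    have hDpos : 0 < D := by positivity
    set Ψ : ℝ := (P / x) * ((m : ℝ) / a₀) ^ γ with hΨ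
    have hma : 1 ≤ (m : ℝ) / a₀ := (one_le_div ha₀).2 hm
    have hpow1 : 1 ≤ ((m : ℝ) / a₀) ^ γ := Real.one_le_rpow hma hγ
    have hPx : 1 ≤ P / x := (one_le_div hx).2 hxP
    have hΨPx : P / x ≤ Ψ := by
      rw [hΨ]
      exact le_mul_of_one_le_right (by positivity) hpow1
    have hΨ1 : 1 ≤ Ψ := hPx.trans hΨPx
    have hΦm : Phi a₀ x P γ m = D * (1 + x) * Ψ := by
      rw [Phi, if_pos hm, hD, hΨ]
      have : (1 + x) ^ m = (1 + x) ^ (m - 1) * (1 + x) := by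
        rw [← pow_succ, Nat.sub_add_cancel hmpos]
      rw [this]
      ring
    -- bound for M1
    have hcardA : (A.erase X).card = m - 1 := by rw [Finset.card_erase_of_mem hXA, hAm]
    have hb1 : (𝓜1.card : ℝ) ≤ D * Ψ := by
      have h1 := ih (m - 1) (by omega) (A.erase X) hcardA ((Finset.erase_subset _ _).trans hA)
        𝓜1 ((Finset.filter_subset _ _).trans h𝓜') (by
          intro 𝔅 h𝔅 𝔅' h𝔅' Y hY
          rw [h𝓜1, Finset.mem_filter] at h𝔅 h𝔅'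
          by_cases hYX : Y = X
          · subst hYX
            exact iff_of_true h𝔅.2 h𝔅'.2
          · refine hagree 𝔅 h𝔅.1 𝔅' h𝔅'.1 Y fun h => hY ?_
            exact Finset.mem_erase.2 ⟨hYX, h⟩)
      refine h1.trans ?_
      rw [Phi]
      have hle : (if a₀ ≤ ((m - 1 : ℕ) : ℝ) then (P / x) * (((m - 1 : ℕ) : ℝ) / a₀) ^ γ else 1)
          ≤ Ψ := by
        split_ifs with h
        · rw [hΨ]
          refine mul_le_mul_of_nonneg_left ?_ (by positivity)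
          refine Real.rpow_le_rpow (by positivity) ?_ hγ
          refine div_le_div_of_nonneg_right ?_ ha₀.le
          exact_mod_cast Nat.sub_le m 1
        · exact hΨ1
      exact mul_le_mul_of_nonneg_left hle hDpos.le
    -- bound for M0
    set A' := (A.filter (fun Y => ¬ adj X Y)).erase X with hA'
    have hA'sub : A' ⊆ A.erase X := by
      rw [hA']
      exact Finset.erase_subset_erase _ (Finset.filter_subset _ _)
    have hA'card1 : A'.card ≤ m - 1 := by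
      rw [← hcardA]; exact Finset.card_le_card hA'sub
    have hA'card2 : (A'.card : ℝ) ≤ (1 - κ) * m := by
      have h1 : A'.card ≤ (A.filter (fun Y => ¬ adj X Y)).card :=
        Finset.card_le_card (Finset.erase_subset _ _)
      have h2 := Finset.card_filter_add_card_filter_not (s := A) (adj X)
      have h3 : ((A.filter (adj X)).card : ℝ) + ((A.filter (fun Y => ¬ adj X Y)).card : ℝ) =
          A.card := by exact_mod_cast h2
      have h4 : (A'.card : ℝ) ≤ ((A.filter (fun Y => ¬ adj X Y)).card : ℝ) := by exact_mod_cast h1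
      rw [hAm] at h3 hXdeg
      linarith
    have hb0' : ∀ δ ∈ dset X, ((𝓜0.filter (fun 𝔅 => desc 𝔅 X = δ)).card : ℝ) ≤
        D * (x / P * Ψ) := by
      intro δ _
      have h1 := ih A'.card (by omega) A' rfl (hA'sub.trans ((Finset.erase_subset _ _).trans hA))
        (𝓜0.filter (fun 𝔅 => desc 𝔅 X = δ))
        ((Finset.filter_subset _ _).trans ((Finset.filter_subset _ _).trans h𝓜')) (by
          intro 𝔅 h𝔅 𝔅' h𝔅' Y hY
          rw [Finset.mem_filter, h𝓜0, Finset.mem_filter] at h𝔅 h𝔅'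
          by_cases hYX : Y = X
          · subst hYX
            exact iff_of_false h𝔅.1.2 h𝔅'.1.2
          · by_cases hadj : adj X Y
            · exact hdet 𝔅 (h𝓜' h𝔅.1.1) 𝔅' (h𝓜' h𝔅'.1.1) X hX0 h𝔅.1.2 h𝔅'.1.2
                (h𝔅.2.trans h𝔅'.2.symm) Y hadj
            · refine hagree 𝔅 h𝔅.1.1 𝔅' h𝔅'.1.1 Y fun h => hY ?_
              exact Finset.mem_erase.2 ⟨hYX, Finset.mem_filter.2 ⟨h, hadj⟩⟩)
      refine h1.trans ?_
      rw [Phi]
      have hpowle : (1 + x) ^ A'.card ≤ (1 + x) ^ (m - 1) :=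
        pow_le_pow_right₀ (by linarith) hA'card1
      have hle : (if a₀ ≤ (A'.card : ℝ) then (P / x) * ((A'.card : ℝ) / a₀) ^ γ else 1)
          ≤ x / P * Ψ := by
        split_ifs with h
        · have h2 : ((A'.card : ℝ) / a₀) ^ γ ≤ ((1 - κ) * ((m : ℝ) / a₀)) ^ γ := by
            refine Real.rpow_le_rpow (by positivity) ?_ hγ
            rw [← mul_div_assoc]
            exact div_le_div_of_nonneg_right hA'card2 ha₀.le
          rw [Real.mul_rpow (by linarith) (by positivity)] at h2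
          calc (P / x) * ((A'.card : ℝ) / a₀) ^ γ
              ≤ (P / x) * ((1 - κ) ^ γ * ((m : ℝ) / a₀) ^ γ) :=
                mul_le_mul_of_nonneg_left h2 (by positivity)
            _ ≤ (P / x) * ((x / P) * ((m : ℝ) / a₀) ^ γ) := by
                refine mul_le_mul_of_nonneg_left ?_ (by positivity)
                exact mul_le_mul_of_nonneg_right hγκ (by positivity)
            _ = x / P * Ψ := by rw [hΨ]; ring
        · have h2 : x / P * (P / x) = 1 := by field_simp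
          rw [← h2]
          exact mul_le_mul_of_nonneg_left hΨPx (by positivity)
      calc 2 ^ a₀ * (1 + x) ^ A'.card *
            (if a₀ ≤ (A'.card : ℝ) then (P / x) * ((A'.card : ℝ) / a₀) ^ γ else 1)
          ≤ 2 ^ a₀ * (1 + x) ^ (m - 1) * (x / P * Ψ) := by
            refine mul_le_mul (mul_le_mul_of_nonneg_left hpowle (by positivity)) hle ?_
              (by positivity)
            split_ifs <;> positivity
        _ = D * (x / P * Ψ) := by rw [hD]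
    have hb0 : (𝓜0.card : ℝ) ≤ D * (x * Ψ) := by
      have h1 : 𝓜0.card = ∑ δ ∈ dset X, (𝓜0.filter (fun 𝔅 => desc 𝔅 X = δ)).card := by
        refine Finset.card_eq_sum_card_fiberwise ?_
        intro 𝔅 h𝔅
        rw [Finset.mem_coe, h𝓜0, Finset.mem_filter] at h𝔅
        exact Finset.mem_coe.2 (hd 𝔅 (h𝓜' h𝔅.1) X hX0 h𝔅.2)
      rw [h1]
      push_cast
      calc ∑ δ ∈ dset X, ((𝓜0.filter (fun 𝔅 => desc 𝔅 X = δ)).card : ℝ)
          ≤ ∑ _δ ∈ dset X, D * (x / P * Ψ) := Finset.sum_le_sum hb0'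
        _ = (dset X).card * (D * (x / P * Ψ)) := by rw [Finset.sum_const, nsmul_eq_mul]
        _ ≤ P * (D * (x / P * Ψ)) := by
            refine mul_le_mul_of_nonneg_right (by exact_mod_cast hP X hX0) (by positivity)
        _ = D * (x * Ψ) := by field_simp
    rw [hsplit, hΦm]
    calc (𝓜1.card : ℝ) + 𝓜0.card ≤ D * Ψ + D * (x * Ψ) := add_le_add hb1 hb0
      _ = D * (1 + x) * Ψ := by ring
  · -- small candidate set
    push Not at hm
    have h1 : 𝓜'.card ≤ 2 ^ m := by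
      rw [← hAm, ← Finset.card_powerset]
      refine Finset.card_le_card_of_injOn (fun 𝔅 => 𝔅 ∩ A) ?_ ?_
      · intro 𝔅 _
        exact Finset.mem_coe.2 (Finset.mem_powerset.2 Finset.inter_subset_right)
      · intro 𝔅 h𝔅 𝔅' h𝔅' h
        have h' : 𝔅 ∩ A = 𝔅' ∩ A := h
        ext Y
        by_cases hY : Y ∈ A
        · have := Finset.ext_iff.1 h' Y
          simpa [hY] using this
        · exact hagree 𝔅 h𝔅 𝔅' h𝔅' Y hY
    have h2 : (𝓜'.card : ℝ) ≤ 2 ^ m := by exact_mod_cast h1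
    refine h2.trans ?_
    refine le_trans ?_ (Phi_ge ha₀ hx hxP hγ)
    have h3 : (2 : ℝ) ^ m ≤ 2 ^ a₀ := by
      rw [← Real.rpow_natCast]
      exact Real.rpow_le_rpow_of_exponent_le (by norm_num) hm.le
    have h4 : 1 ≤ (1 + x) ^ m := one_le_pow₀ (by linarith)
    calc (2 : ℝ) ^ m ≤ 2 ^ a₀ := h3
      _ ≤ 2 ^ a₀ * (1 + x) ^ m := le_mul_of_one_le_right (by positivity) h4

end H34W
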