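import Pool.Agent.H34W.Ana

/-!
# The records argument
-/

set_option autoImplicit false

namespace H34W

open Finset Filter

lemma eventually_log_le (A c : ℝ) (hc : 0 < c) :
    ∃ N₀ : ℕ, ∀ n : ℕ, N₀ ≤ n → A * (1 + Real.log n) ≤ c * (n + 1) := by
  have h1 : Tendsto (fun n : ℕ => (n : ℝ)) atTop atTop := tendsto_natCast_atTop_atTop
  have h2 := (Real.isLittleO_log_id_atTop.comp_tendsto h1)
  have h3 : ∀ᶠ n : ℕ in atTop, |Real.log n| ≤ (c / (2 * (|A| + 1))) * n := by
    have := h2.def (c := c / (2 * (|A| + 1))) (by positivity)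
    filter_upwards [this] with n hn
    simpa using hn
  have h4 : ∀ᶠ n : ℕ in atTop, |A| * 2 / c ≤ n := h1.eventually_ge_atTop _
  obtain ⟨N₀, hN₀⟩ := Filter.eventually_atTop.1 (h3.and h4)
  refine ⟨N₀, fun n hn => ?_⟩
  obtain ⟨a, b⟩ := hN₀ n hn
  have hA : A ≤ |A| := le_abs_self A
  have hA0 : 0 ≤ |A| := abs_nonneg A
  rw [div_le_iff₀ hc] at b
  have hn0 : (0 : ℝ) ≤ n := Nat.cast_nonneg n
  have hl : 0 ≤ Real.log n := Real.log_natCast_nonneg n
  rw [abs_of_nonneg hl] at a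
  have h5 : |A| * Real.log n ≤ c / 2 * n := by
    calc |A| * Real.log n ≤ |A| * ((c / (2 * (|A| + 1))) * n) := mul_le_mul_of_nonneg_left a hA0
      _ = (|A| / (|A| + 1)) * (c / 2 * n) := by field_simp
      _ ≤ 1 * (c / 2 * n) := by
          refine mul_le_mul_of_nonneg_right ?_ (by positivity)
          rw [div_le_one (by positivity)]
          linarith
      _ = c / 2 * n := one_mul _
  calc A * (1 + Real.log n) ≤ |A| * (1 + Real.log n) :=
        mul_le_mul_of_nonneg_right hA (by linarith)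
    _ = |A| + |A| * Real.log n := by ring
    _ ≤ c * (n + 1) := by nlinarith

/-- the gap dominates the harmonic sum -/
lemma harmonic_le_gap (K : ℕ) (lam η : ℝ) (hη0 : 0 < η) (hη1 : η < 1)
    (hlam : lam = η * (2 * ((K : ℝ) + 1) ^ 2 / (2 * K + 1))) :
    ∃ N₀ : ℕ, ∀ n : ℕ, N₀ ≤ n → ∀ r : ℕ, 2 * r + 2 * K + 2 ≤ n →
      lam * (Hs n - Hs (2 * r + 1)) ≤
        ((1 + η) / 2) * (Real.log (n.choose (n / 2)) - Real.log (n.choose r)) := by
  set θ : ℝ := 2 * ((K : ℝ) + 1) ^ 2 / (2 * K + 1) with hθ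
  have hθ0 : 0 < θ := by positivity
  have hlam0 : 0 < lam := by rw [hlam]; positivity
  set ρ : ℝ := 2 * η / (1 + η) with hρ
  have hρ1 : ρ < 1 := by rw [hρ, div_lt_one (by linarith)]; linarith
  have hρ0 : 0 < ρ := by positivity
  obtain ⟨N₀, hN₀⟩ := eventually_log_le lam ((1 + η) / 2 * ((1 - ρ) ^ 2 / 2)) (by
    have : 0 < 1 - ρ := by linarith
    positivity)
  refine ⟨N₀, fun n hn r hr => ?_⟩
  have hn1 : (0 : ℝ) < n + 1 := by positivity
  have hnr : (2 * (r : ℝ) + 2) ≤ n := by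
    have : 2 * r + 2 ≤ n := by omega
    exact_mod_cast this
  by_cases hcase : ρ * ((n : ℝ) + 1) ≤ 2 * r + 2
  · have h1 := Hs_sub_le (m := 2 * r + 1) (n := n) (by omega)
    have h2 := gap_ge K hr
    rw [← hθ] at h2
    have h3 : ((n : ℝ) - ((2 * r + 1 : ℕ) : ℝ)) / (((2 * r + 1 : ℕ) : ℝ) + 1) ≤
        ((n : ℝ) - 2 * r - 1) / (ρ * (n + 1)) := by
      push_cast
      rw [show (n : ℝ) - (2 * r + 1) = n - 2 * r - 1 by ring,
        show (2 * (r : ℝ) + 1 + 1) = 2 * r + 2 by ring]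
      exact div_le_div_of_nonneg_left (by linarith) (by positivity) hcase
    calc lam * (Hs n - Hs (2 * r + 1))
        ≤ lam * (((n : ℝ) - 2 * r - 1) / (ρ * (n + 1))) :=
          mul_le_mul_of_nonneg_left (h1.trans h3) hlam0.le
      _ = ((1 + η) / 2) * (θ * ((n : ℝ) - 2 * r - 1) / (n + 1)) := by
          rw [hlam, hρ]
          field_simp
      _ ≤ _ := mul_le_mul_of_nonneg_left h2 (by positivity)
  · push Not at hcase
    have h1 := hN₀ n hn
    have h2 := gap_ge_sq (n := n) (r := r) (by omega)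
    have h3 : Hs n - Hs (2 * r + 1) ≤ 1 + Real.log n := by
      linarith [Hs_le n, Hs_nonneg (2 * r + 1)]
    have h4 : (1 - ρ) * (n + 1) ≤ (n : ℝ) - 2 * r - 1 := by linarith
    have h5 : ((1 - ρ) * (n + 1)) ^ 2 ≤ ((n : ℝ) - 2 * r - 1) ^ 2 :=
      pow_le_pow_left₀ (mul_nonneg (by linarith) hn1.le) h4 2
    calc lam * (Hs n - Hs (2 * r + 1)) ≤ lam * (1 + Real.log n) :=
          mul_le_mul_of_nonneg_left h3 hlam0.le
      _ ≤ ((1 + η) / 2 * ((1 - ρ) ^ 2 / 2)) * (n + 1) := h1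
      _ = ((1 + η) / 2) * (((1 - ρ) * (n + 1)) ^ 2 / (2 * (n + 1))) := by
          field_simp
      _ ≤ ((1 + η) / 2) * (((n : ℝ) - 2 * r - 1) ^ 2 / (2 * (n + 1))) := by
          refine mul_le_mul_of_nonneg_left ?_ (by positivity)
          exact div_le_div_of_nonneg_right h5 (by positivity)
      _ ≤ _ := mul_le_mul_of_nonneg_left h2 (by positivity)

lemma eventually_pow (c : ℝ) (hc : 0 < c) :
    ∃ N₀ : ℕ, ∀ n : ℕ, N₀ ≤ n → (n : ℝ) ^ 5 * 8 < c * 2 ^ n := by
  have h := tendsto_pow_const_div_const_pow_of_one_lt 5 (r := (2 : ℝ)) (by norm_num)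
  have h2 := h.eventually_lt_const (show (0 : ℝ) < c / 8 by positivity)
  obtain ⟨N₀, hN₀⟩ := Filter.eventually_atTop.1 h2
  refine ⟨N₀, fun n hn => ?_⟩
  have := hN₀ n hn
  rw [div_lt_iff₀ (by positivity)] at this
  linarith

/-- comparison of two ranks -/
lemma compare (ε : ℝ) (hε0 : 0 < ε) (hε1 : ε ≤ 1) :
    ∃ N₀ : ℕ, ∀ n : ℕ, N₀ ≤ n → ∀ r : ℕ, 2 * r + 2 ≤ n →
      Real.log (hh (2 * r + 1)) - Real.log (hh n) ≤
        (1 - ε) * (Real.log (n.choose (n / 2)) - Real.log (n.choose r)) →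
      M n r * n.factorial < M n (n / 2) := by
  obtain ⟨N₀, hN₀⟩ := eventually_pow (Real.log 2 * ε) (by
    have := Real.log_pos (show (1 : ℝ) < 2 by norm_num)
    positivity)
  refine ⟨max N₀ 1, fun n hn r hr h => ?_⟩
  have hn0 : N₀ ≤ n := (le_max_left _ _).trans hn
  have hn1 : 1 ≤ n := (le_max_right _ _).trans hn
  have hnpos : (0 : ℝ) < n := by exact_mod_cast hn1
  have hn1' : (1 : ℝ) ≤ n := by exact_mod_cast hn1
  set C : ℝ := ((n.choose (n / 2) : ℕ) : ℝ) with hC
  have hCpos : 0 < C := by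
    rw [hC]; exact_mod_cast Nat.choose_pos (by omega)
  have hc : (0 : ℝ) < n.choose r := by exact_mod_cast Nat.choose_pos (by omega)
  set D := Real.log C - Real.log (n.choose r) with hD
  have hDge : 1 / (n + 1 : ℝ) ≤ D := by
    have := gap_ge 0 (n := n) (r := r) (by omega)
    refine le_trans ?_ this
    have hnr : (2 * (r : ℝ) + 2) ≤ n := by exact_mod_cast hr
    rw [div_le_div_iff_of_pos_right (by positivity)]
    push_cast
    norm_num
    linarith
  set L := Real.log (M n (n / 2)) with hL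
  have hLeq : L = C * hh n := by rw [hL, log_M_eq (by omega)]; rfl
  have h1 : Real.log (M n r) ≤ L * Real.exp (-(ε * D)) := by
    calc Real.log (M n r) = n.choose r * G n r := log_M_eq (by omega)
      _ ≤ n.choose r * hh (2 * r + 1) := mul_le_mul_of_nonneg_left (G_le_hh (by omega)) hc.le
      _ = Real.exp (Real.log (n.choose r) + Real.log (hh (2 * r + 1))) := by
          rw [Real.exp_add, Real.exp_log hc, Real.exp_log (hh_pos _)]
      _ ≤ Real.exp (Real.log C + Real.log (hh n) + -(ε * D)) := by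
          refine Real.exp_le_exp.2 ?_
          rw [hD]
          rw [hD] at h
          nlinarith
      _ = L * Real.exp (-(ε * D)) := by
          rw [Real.exp_add, Real.exp_add, Real.exp_log hCpos, Real.exp_log (hh_pos _), hLeq]
  have h2 : Real.exp (-(ε * D)) ≤ 1 - ε / (4 * n) := by
    have hx : ε / (2 * n) ≤ ε * D := by
      have e1 : ε / (2 * n) ≤ ε * (1 / (n + 1)) := by
        rw [mul_one_div, div_le_div_iff₀ (by positivity) (by positivity)]
        nlinarith
      exact e1.trans (mul_le_mul_of_nonneg_left hDge hε0.le)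
    have hxpos : 0 < ε / (2 * n) := by positivity
    have hx1 : ε / (2 * n) ≤ 1 := by
      rw [div_le_one (by positivity)]
      linarith
    have e2 : Real.exp (-(ε * D)) ≤ Real.exp (-(ε / (2 * n))) :=
      Real.exp_le_exp.2 (by linarith)
    have e3 : Real.exp (-(ε / (2 * n))) ≤ 1 / (1 + ε / (2 * n)) := by
      rw [Real.exp_neg, ← one_div]
      refine one_div_le_one_div_of_le (by positivity) ?_
      linarith [Real.add_one_le_exp (ε / (2 * n))]
    have e4 : 1 / (1 + ε / (2 * n)) ≤ 1 - (ε / (2 * n)) / 2 := by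
      rw [div_le_iff₀ (by positivity)]
      nlinarith
    have e5 : (ε / (2 * (n : ℝ))) / 2 = ε / (4 * n) := by
      field_simp
      ring
    rw [e5] at e4
    exact e2.trans (e3.trans e4)
  have hLpos : 0 < L := by
    rw [hLeq]; exact mul_pos hCpos (hh_pos n)
  have h3 : Real.log (M n r) ≤ L - L * (ε / (4 * n)) := by
    refine h1.trans ?_
    calc L * Real.exp (-(ε * D)) ≤ L * (1 - ε / (4 * n)) :=
          mul_le_mul_of_nonneg_left h2 hLpos.le
      _ = _ := by ring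
  -- lower bound for L
  have h4 : 2 ^ n * Real.log 2 ≤ (n + 1) * n * L := by
    have e1 : (2 : ℝ) ^ n ≤ (n + 1) * C := by
      rw [hC]; exact_mod_cast two_pow_le_mul_choose n
    have e2 := log_two_div_le_hh (n := n) hn1
    rw [div_le_iff₀ hnpos] at e2
    have hl2 : 0 < Real.log 2 := Real.log_pos (by norm_num)
    calc 2 ^ n * Real.log 2 ≤ ((n + 1) * C) * (hh n * n) :=
          mul_le_mul e1 e2 hl2.le (by positivity)
      _ = (n + 1) * n * L := by rw [hLeq]; ring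
  have h5 : Real.log (n.factorial) ≤ n ^ 2 := by
    have e1 : (n.factorial : ℝ) ≤ (n : ℝ) ^ n := by exact_mod_cast Nat.factorial_le_pow n
    have e2 : Real.log (n.factorial) ≤ n * Real.log n := by
      rw [← Real.log_pow]
      exact Real.log_le_log (by exact_mod_cast Nat.factorial_pos n) e1
    have e3 : Real.log n ≤ n := (Real.log_le_sub_one_of_pos hnpos).trans (by linarith)
    calc Real.log (n.factorial) ≤ n * Real.log n := e2
      _ ≤ n * n := mul_le_mul_of_nonneg_left e3 hnpos.le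
      _ = n ^ 2 := by ring
  have h6 : (n : ℝ) ^ 2 < L * (ε / (4 * n)) := by
    have e1 := hN₀ n hn0
    rw [← mul_div_assoc, lt_div_iff₀ (by positivity)]
    have e2 : (n : ℝ) ^ 5 * 8 < (n + 1) * n * L * ε := by
      calc (n : ℝ) ^ 5 * 8 < Real.log 2 * ε * 2 ^ n := e1
        _ = (2 ^ n * Real.log 2) * ε := by ring
        _ ≤ ((n + 1) * n * L) * ε := mul_le_mul_of_nonneg_right h4 hε0.le
    have e3 : ((n : ℝ) + 1) * n * L * ε ≤ (2 * n ^ 2) * (L * ε) := by
      have : 0 ≤ L * ε := by positivity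
      nlinarith [mul_nonneg (mul_nonneg (sub_nonneg.2 hn1') hnpos.le) this]
    have e4 : (2 * (n : ℝ) ^ 2) * ((n : ℝ) ^ 2 * (4 * n)) < (2 * n ^ 2) * (L * ε) := by
      calc (2 * (n : ℝ) ^ 2) * ((n : ℝ) ^ 2 * (4 * n)) = n ^ 5 * 8 := by ring
        _ < _ := lt_of_lt_of_le e2 e3
    exact lt_of_mul_lt_mul_left e4 (by positivity)
  have h7 : Real.log ((M n r : ℝ) * n.factorial) < Real.log (M n (n / 2)) := by
    rw [Real.log_mul (by exact_mod_cast (M_pos n r).ne')
      (by exact_mod_cast (Nat.factorial_pos n).ne'), ← hL]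
    linarith
  have h8 : (M n r : ℝ) * n.factorial < M n (n / 2) := by
    refine (Real.log_lt_log_iff ?_ ?_).1 h7
    · exact mul_pos (by exact_mod_cast M_pos n r) (by exact_mod_cast Nat.factorial_pos n)
    · exact_mod_cast M_pos n (n / 2)
  exact_mod_cast h8

/-- the function whose records are used -/
noncomputable def F (lam : ℝ) (n : ℕ) : ℝ := -Real.log (hh n) - lam * Hs n

/-- record minima -/
def Rec (lam : ℝ) (n : ℕ) : Prop := ∀ j < n, F lam n ≤ F lam j

theorem rec_good (K : ℕ) (lam : ℝ) (h0 : 0 < lam)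
    (h1 : lam < 2 * ((K : ℝ) + 1) ^ 2 / (2 * K + 1)) :
    ∃ N₀ : ℕ, ∀ n : ℕ, N₀ ≤ n → Rec lam n → ∀ r : ℕ, 2 * r + 2 * K + 2 ≤ n →
      M n r * n.factorial < M n (n / 2) := by
  set θ : ℝ := 2 * ((K : ℝ) + 1) ^ 2 / (2 * K + 1) with hθ
  have hθ0 : 0 < θ := by positivity
  set η := lam / θ with hη
  have hη0 : 0 < η := by positivity
  have hη1 : η < 1 := by rw [hη, div_lt_one hθ0]; exact h1
  obtain ⟨N₁, hN₁⟩ := harmonic_le_gap K lam η hη0 hη1
    (div_mul_cancel₀ lam hθ0.ne').symm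
  obtain ⟨N₂, hN₂⟩ := compare ((1 - η) / 2) (by linarith) (by linarith)
  refine ⟨max N₁ N₂, fun n hn hrec r hr => ?_⟩
  refine hN₂ n ((le_max_right _ _).trans hn) r (by omega) ?_
  have h2 := hrec (2 * r + 1) (by omega)
  rw [F, F] at h2
  have h3 := hN₁ n ((le_max_left _ _).trans hn) r hr
  have h4 : 1 - (1 - η) / 2 = (1 + η) / 2 := by ring
  rw [h4]
  linarith

open Classical in
theorem rec_bound (lam : ℝ) (h0 : 0 ≤ lam) (N : ℕ) : ∀ j ≤ N,
    F lam 0 - lam * ∑ i ∈ (Icc 1 N).filter (Rec lam), ((i : ℝ))⁻¹ ≤ F lam j := by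
  induction N with
  | zero =>
    intro j hj
    obtain rfl : j = 0 := by omega
    simp
  | succ N ih =>
    have hsum : ∑ i ∈ (Icc 1 (N + 1)).filter (Rec lam), ((i : ℝ))⁻¹ =
        (∑ i ∈ (Icc 1 N).filter (Rec lam), ((i : ℝ))⁻¹) +
          (if Rec lam (N + 1) then (((N + 1 : ℕ) : ℝ))⁻¹ else 0) := by
      rw [Finset.sum_filter, Finset.sum_filter, Finset.sum_Icc_succ_top (by omega)]
    have hmono : ∑ i ∈ (Icc 1 N).filter (Rec lam), ((i : ℝ))⁻¹ ≤
        ∑ i ∈ (Icc 1 (N + 1)).filter (Rec lam), ((i : ℝ))⁻¹ := by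
      rw [hsum]
      have : (0 : ℝ) ≤ (if Rec lam (N + 1) then (((N + 1 : ℕ) : ℝ))⁻¹ else 0) := by
        split_ifs <;> positivity
      linarith
    have hold : ∀ j ≤ N, F lam 0 - lam * ∑ i ∈ (Icc 1 (N + 1)).filter (Rec lam), ((i : ℝ))⁻¹
        ≤ F lam j := by
      intro j hj
      refine le_trans ?_ (ih j hj)
      have := mul_le_mul_of_nonneg_left hmono h0
      linarith
    intro j hj
    rcases Nat.lt_or_ge j (N + 1) with h | h
    · exact hold j (by omega)
    · obtain rfl : j = N + 1 := by omega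
      by_cases hr : Rec lam (N + 1)
      · rw [hsum, if_pos hr]
        have h1 := ih N le_rfl
        have h2 : F lam N - lam * (((N + 1 : ℕ) : ℝ))⁻¹ ≤ F lam (N + 1) := by
          rw [F, F, Hs_succ]
          have h3 : Real.log (hh (N + 1)) ≤ Real.log (hh N) :=
            Real.log_le_log (hh_pos _) (hh_succ N)
          nlinarith
        nlinarith
      · rw [Rec] at hr
        push Not at hr
        obtain ⟨j, hj, hlt⟩ := hr
        exact (hold j (by omega)).trans hlt.le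

open Classical in
theorem rec_sum (lam : ℝ) (h0 : 0 < lam) : ∃ C : ℝ, ∀ N : ℕ, 1 ≤ N →
    (1 - 1 / lam) * Real.log N - C ≤ ∑ i ∈ (Icc 1 N).filter (Rec lam), ((i : ℝ))⁻¹ := by
  refine ⟨(-F lam 0 - Real.log (Real.log 2)) / lam, fun N hN => ?_⟩
  have h1 := rec_bound lam h0.le N N le_rfl
  have hN' : (0 : ℝ) < N := by exact_mod_cast hN
  have hl2 : 0 < Real.log 2 := Real.log_pos (by norm_num)
  have h2 : F lam N ≤ Real.log N - Real.log (Real.log 2) - lam * Real.log N := by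
    rw [F]
    have h3 : Real.log (Real.log 2 / N) ≤ Real.log (hh N) :=
      Real.log_le_log (by positivity) (log_two_div_le_hh hN)
    rw [Real.log_div hl2.ne' hN'.ne'] at h3
    have h4 := mul_le_mul_of_nonneg_left (log_le_Hs N) h0.le
    linarith
  set S := ∑ i ∈ (Icc 1 N).filter (Rec lam), ((i : ℝ))⁻¹ with hS
  have h3 : F lam 0 + Real.log (Real.log 2) + (lam - 1) * Real.log N ≤ lam * S := by linarith
  have h4 : (1 - 1 / lam) * Real.log N - (-F lam 0 - Real.log (Real.log 2)) / lam =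
      (F lam 0 + Real.log (Real.log 2) + (lam - 1) * Real.log N) / lam := by
    field_simp
    ring
  rw [h4, div_le_iff₀ h0, mul_comm S]
  exact h3

/-- the good property -/
def Good (K n : ℕ) : Prop :=
  ∀ r : ℕ, ((2 * r + 2 * K + 2 ≤ n ∨ n + 2 * K + 2 ≤ 2 * r) → f n r < f n (n / 2)) ∧
    (K = 0 → f n r ≤ f n (n / 2))

theorem good_of_lt {K n : ℕ} (hn : 2 * K + 2 ≤ n)
    (h : ∀ r : ℕ, 2 * r + 2 * K + 2 ≤ n → M n r * n.factorial < M n (n / 2)) : Good K n := by
  have hlow : ∀ r : ℕ, 2 * r + 2 * K + 2 ≤ n → f n r < f n (n / 2) := by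
    intro r hr
    by_contra hcon
    push Not at hcon
    have h1 := h r hr
    have h2 := M_le n (n / 2)
    have h3 := f_lt_M n r
    have h4 : (f n (n / 2) + 1) * n.factorial ≤ M n r * n.factorial :=
      Nat.mul_le_mul_right _ (by omega)
    have h5 : 1 ≤ n.factorial := Nat.factorial_pos n
    have h6 : (f n (n / 2) + 1) * n.factorial = f n (n / 2) * n.factorial + n.factorial := by
      ring
    omega
  have hout : ∀ r : ℕ, (2 * r + 2 * K + 2 ≤ n ∨ n + 2 * K + 2 ≤ 2 * r) →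
      f n r < f n (n / 2) := by
    rintro r (hr | hr)
    · exact hlow r hr
    · rcases Nat.lt_or_ge n r with hnr | hnr
      · rw [f_eq_zero hnr]
        have := hlow 0 (by omega)
        omega
      · exact lt_of_le_of_lt (f_dual hnr) (hlow (n - r) (by omega))
  intro r
  refine ⟨hout r, fun hK => ?_⟩
  subst hK
  by_cases hr : 2 * r + 2 * 0 + 2 ≤ n ∨ n + 2 * 0 + 2 ≤ 2 * r
  · exact (hout r hr).le
  · push Not at hr
    rcases Nat.lt_or_ge (2 * r) (n + 1) with h1 | h1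
    · have : r = n / 2 := by omega
      rw [this]
    · have h2 : n - r = n / 2 := by omega
      rw [← h2]
      exact f_dual (by omega)

open Classical in
theorem main (K : ℕ) (ε : ℝ) (hε : 0 < ε) : ∃ N₀ : ℕ, ∀ N : ℕ, N₀ ≤ N →
    (1 - (2 * (K : ℝ) + 1) / (2 * ((K : ℝ) + 1) ^ 2) - ε) * Real.log N ≤
      ∑ n ∈ (Icc 1 N).filter (Good K), ((n : ℝ))⁻¹ := by
  set θ : ℝ := 2 * ((K : ℝ) + 1) ^ 2 / (2 * K + 1) with hθ
  have hθ0 : 0 < θ := by positivity
  have hinv : (2 * (K : ℝ) + 1) / (2 * ((K : ℝ) + 1) ^ 2) = 1 / θ := by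
    rw [hθ, one_div_div]
  rw [hinv]
  -- choice of lam
  set lam : ℝ := 1 / (1 / θ + ε / 2) with hlam
  have hlam0 : 0 < lam := by positivity
  have hlaminv : 1 / lam = 1 / θ + ε / 2 := by rw [hlam, one_div_one_div]
  have hlam1 : lam < θ := by
    rw [hlam, div_lt_iff₀ (by positivity)]
    have : θ * (1 / θ) = 1 := by field_simp
    nlinarith
  obtain ⟨N₁, hN₁⟩ := rec_good K lam hlam0 hlam1
  obtain ⟨C, hC⟩ := rec_sum lam hlam0
  set N₂ := max N₁ (2 * K + 2) with hN₂
  have hlog : ∃ N₃ : ℕ, ∀ N : ℕ, N₃ ≤ N → C + Hs N₂ ≤ ε / 2 * Real.log N := by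
    have h1 : Tendsto (fun n : ℕ => ε / 2 * Real.log n) atTop atTop :=
      (Real.tendsto_log_atTop.comp tendsto_natCast_atTop_atTop).const_mul_atTop (by positivity)
    exact Filter.eventually_atTop.1 (h1.eventually_ge_atTop _)
  obtain ⟨N₃, hN₃⟩ := hlog
  refine ⟨max N₃ 1, fun N hN => ?_⟩
  have h1 := hC N ((le_max_right _ _).trans hN)
  have h2 := hN₃ N ((le_max_left _ _).trans hN)
  have h3 : ∑ i ∈ (Icc 1 N).filter (Rec lam), ((i : ℝ))⁻¹ ≤
      Hs N₂ + ∑ n ∈ (Icc 1 N).filter (Good K), ((n : ℝ))⁻¹ := by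
    have hsub : (Icc 1 N).filter (Rec lam) ⊆ Icc 1 N₂ ∪ (Icc 1 N).filter (Good K) := by
      intro i hi
      rw [Finset.mem_filter, Finset.mem_Icc] at hi
      rw [Finset.mem_union, Finset.mem_Icc, Finset.mem_filter, Finset.mem_Icc]
      by_cases hiN : i ≤ N₂
      · exact Or.inl ⟨hi.1.1, hiN⟩
      · refine Or.inr ⟨hi.1, ?_⟩
        have h4 : N₁ ≤ N₂ := le_max_left _ _
        have h5 : 2 * K + 2 ≤ N₂ := le_max_right _ _
        exact good_of_lt (by omega) (hN₁ i (by omega) hi.2)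
    calc ∑ i ∈ (Icc 1 N).filter (Rec lam), ((i : ℝ))⁻¹
        ≤ ∑ i ∈ Icc 1 N₂ ∪ (Icc 1 N).filter (Good K), ((i : ℝ))⁻¹ :=
          Finset.sum_le_sum_of_subset_of_nonneg hsub fun _ _ _ => by positivity
      _ ≤ (∑ i ∈ Icc 1 N₂, ((i : ℝ))⁻¹) + ∑ n ∈ (Icc 1 N).filter (Good K), ((n : ℝ))⁻¹ := by
          rw [← Finset.sum_union_inter]
          have : (0 : ℝ) ≤ ∑ i ∈ Icc 1 N₂ ∩ (Icc 1 N).filter (Good K), ((i : ℝ))⁻¹ :=
            Finset.sum_nonneg fun _ _ => by positivity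
          linarith
      _ = _ := rfl
  rw [hlaminv] at h1
  have h5 : (1 - (1 / θ + ε / 2)) * Real.log N = (1 - 1 / θ - ε) * Real.log N +
      ε / 2 * Real.log N := by ring
  rw [h5] at h1
  linarith

end H34W
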