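import Mathlib

/-!
# Shearer's lemma for set families
-/

set_option autoImplicit false

namespace H34W

open Finset

lemma prod_le_mean_pow {ι : Type*} (I : Finset ι) (hI : I.Nonempty) (z : ι → ℝ)
    (hz : ∀ i ∈ I, 0 ≤ z i) : ∏ i ∈ I, z i ≤ ((∑ i ∈ I, z i) / I.card) ^ I.card := by
  have hk : (0 : ℝ) < I.card := by exact_mod_cast hI.card_pos
  have h := Real.geom_mean_le_arith_mean_weighted I (fun _ => (I.card : ℝ)⁻¹) z
    (fun _ _ => by positivity) (by simp [hk.ne']) hz
  have h2 : (∏ i ∈ I, z i ^ ((I.card : ℝ)⁻¹)) ^ I.card = ∏ i ∈ I, z i := by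
    rw [← Finset.prod_pow]
    refine Finset.prod_congr rfl fun i hi => ?_
    exact Real.rpow_inv_natCast_pow (hz i hi) hI.card_pos.ne'
  rw [← h2]
  refine pow_le_pow_left₀ (Finset.prod_nonneg fun i hi => Real.rpow_nonneg (hz i hi) _) ?_ _
  refine h.trans (le_of_eq ?_)
  rw [← Finset.mul_sum]
  field_simp

lemma add_pow_le_prod {ι : Type*} (I : Finset ι) (hI : I.Nonempty) (A B : ι → ℝ)
    (hA : ∀ i ∈ I, 0 ≤ A i) (hB : ∀ i ∈ I, 0 ≤ B i) (P a b : ℝ) (hP : 0 ≤ P) (ha : 0 ≤ a)
    (hb : 0 ≤ b) (h1 : a ^ I.card ≤ P * ∏ i ∈ I, A i) (h2 : b ^ I.card ≤ P * ∏ i ∈ I, B i) :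
    (a + b) ^ I.card ≤ P * ∏ i ∈ I, (A i + B i) := by
  have hk : I.card ≠ 0 := hI.card_pos.ne'
  have hAB : ∀ i ∈ I, 0 ≤ A i + B i := fun i hi => add_nonneg (hA i hi) (hB i hi)
  set Q := P * ∏ i ∈ I, (A i + B i) with hQ
  have hQ0 : 0 ≤ Q := mul_nonneg hP (Finset.prod_nonneg hAB)
  rcases hQ0.eq_or_lt with h0 | hpos
  · have hz : a = 0 ∧ b = 0 := by
      rcases mul_eq_zero.1 h0.symm with hP0 | hprod
      · rw [hP0, zero_mul] at h1 h2
        exact ⟨pow_eq_zero_iff hk |>.1 (le_antisymm h1 (pow_nonneg ha _)),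
          pow_eq_zero_iff hk |>.1 (le_antisymm h2 (pow_nonneg hb _))⟩
      · obtain ⟨i, hi, hi0⟩ := Finset.prod_eq_zero_iff.1 hprod
        have hAi : A i = 0 := by linarith [hA i hi, hB i hi]
        have hBi : B i = 0 := by linarith [hA i hi, hB i hi]
        rw [Finset.prod_eq_zero hi hAi, mul_zero] at h1
        rw [Finset.prod_eq_zero hi hBi, mul_zero] at h2
        exact ⟨pow_eq_zero_iff hk |>.1 (le_antisymm h1 (pow_nonneg ha _)),
          pow_eq_zero_iff hk |>.1 (le_antisymm h2 (pow_nonneg hb _))⟩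
    rw [hz.1, hz.2, add_zero, zero_pow hk]
    exact hQ0
  · have hPpos : 0 < P := lt_of_le_of_ne hP (by rintro rfl; simp [hQ] at hpos)
    have hABpos : ∀ i ∈ I, 0 < A i + B i := by
      intro i hi
      refine lt_of_le_of_ne (hAB i hi) fun h => ?_
      rw [hQ, Finset.prod_eq_zero hi h.symm, mul_zero] at hpos
      exact lt_irrefl _ hpos
    set c := Q ^ ((I.card : ℝ)⁻¹) with hc
    have hcpos : 0 < c := Real.rpow_pos_of_pos hpos _
    have hck : c ^ I.card = Q := Real.rpow_inv_natCast_pow hQ0 hk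
    have key : ∀ (a : ℝ) (A' : ι → ℝ), 0 ≤ a → (∀ i ∈ I, 0 ≤ A' i) →
        a ^ I.card ≤ P * ∏ i ∈ I, A' i →
        a / c ≤ (∑ i ∈ I, A' i / (A i + B i)) / I.card := by
      intro a A' ha hA' h
      have h3 : (a / c) ^ I.card ≤ ((∑ i ∈ I, A' i / (A i + B i)) / I.card) ^ I.card := by
        refine le_trans ?_ (prod_le_mean_pow I hI _ fun i hi =>
          div_nonneg (hA' i hi) (hAB i hi))
        rw [div_pow, hck, Finset.prod_div_distrib, div_le_div_iff₀ hpos
          (Finset.prod_pos hABpos), hQ]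
        calc a ^ I.card * ∏ i ∈ I, (A i + B i)
            ≤ (P * ∏ i ∈ I, A' i) * ∏ i ∈ I, (A i + B i) :=
              mul_le_mul_of_nonneg_right h (Finset.prod_nonneg hAB)
          _ = (∏ i ∈ I, A' i) * (P * ∏ i ∈ I, (A i + B i)) := by ring
      have h4 : 0 ≤ (∑ i ∈ I, A' i / (A i + B i)) / I.card :=
        div_nonneg (Finset.sum_nonneg fun i hi => div_nonneg (hA' i hi) (hAB i hi)) (by positivity)
      exact (pow_le_pow_iff_left₀ (div_nonneg ha hcpos.le) h4 hk).1 h3
    have h3 := key a A ha hA h1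
    have h4 := key b B hb hB h2
    have h5 : (∑ i ∈ I, A i / (A i + B i)) + (∑ i ∈ I, B i / (A i + B i)) = I.card := by
      rw [← Finset.sum_add_distrib]
      rw [Finset.sum_congr rfl (g := fun _ => (1 : ℝ))]
      · simp
      · intro i hi
        rw [← add_div, div_self (hABpos i hi).ne']
    have hk' : (0 : ℝ) < I.card := by exact_mod_cast hI.card_pos
    have h6 : (a + b) / c ≤ 1 := by
      rw [add_div]
      refine (add_le_add h3 h4).trans (le_of_eq ?_)
      rw [← add_div, h5, div_self hk'.ne']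
    rw [div_le_one hcpos] at h6
    rw [← hck]
    exact pow_le_pow_left₀ (add_nonneg ha hb) h6 _

theorem shearer {ι α : Type*} [DecidableEq α] (I : Finset ι) (C : ι → Finset α) (k : ℕ)
    (hk : 0 < k) (S : Finset α) :
    (∀ x ∈ S, (I.filter (fun i => x ∈ C i)).card = k) →
    ∀ 𝓕 : Finset (Finset α), (∀ F ∈ 𝓕, F ⊆ S) →
      𝓕.card ^ k ≤ ∏ i ∈ I, (𝓕.image (· ∩ C i)).card := by
  classical
  induction S using Finset.induction_on with
  | empty =>
    intro _ 𝓕 hF
    rcases 𝓕.eq_empty_or_nonempty with rfl | hne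
    · simp [hk.ne']
    · have h1 : 𝓕.card ≤ 1 := by
        rw [Finset.card_le_one]
        intro a ha b hb
        rw [Finset.subset_empty.1 (hF a ha), Finset.subset_empty.1 (hF b hb)]
      calc 𝓕.card ^ k ≤ 1 ^ k := Nat.pow_le_pow_left h1 k
        _ = ∏ i ∈ I, 1 := by simp
        _ ≤ _ := Finset.prod_le_prod' fun i _ => Finset.card_pos.2 (hne.image _)
  | insert x S hx ih =>
    intro hS 𝓕 hF
    have ih' := ih fun y hy => hS y (Finset.mem_insert_of_mem hy)
    set F0 := 𝓕.filter (fun F => x ∉ F) with hF0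
    set F1 := (𝓕.filter (fun F => x ∈ F)).image (fun F => F.erase x) with hF1
    have hF0S : ∀ F ∈ F0, F ⊆ S := by
      intro F hF'
      rw [hF0, Finset.mem_filter] at hF'
      have := hF F hF'.1
      rwa [Finset.subset_insert_iff_of_notMem hF'.2] at this
    have hF1S : ∀ F ∈ F1, F ⊆ S := by
      intro F hF'
      rw [hF1, Finset.mem_image] at hF'
      obtain ⟨G, hG, rfl⟩ := hF'
      rw [Finset.mem_filter] at hG
      rw [← Finset.subset_insert_iff]
      exact hF G hG.1
    have hinj : Set.InjOn (fun F : Finset α => F.erase x)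
        (𝓕.filter (fun F => x ∈ F) : Finset (Finset α)) := by
      intro F hF' G hG h
      have h1 := (Finset.mem_filter.1 hF').2
      have h2 := (Finset.mem_filter.1 hG).2
      have h3 : F.erase x = G.erase x := h
      rw [← Finset.insert_erase h1, ← Finset.insert_erase h2, h3]
    have hcard : 𝓕.card = F0.card + F1.card := by
      rw [hF1, Finset.card_image_of_injOn hinj, hF0, add_comm,
        Finset.card_filter_add_card_filter_not]
    set J := I.filter (fun i => x ∈ C i) with hJ
    have hJk : J.card = k := hS x (Finset.mem_insert_self _ _)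
    have hJne : J.Nonempty := Finset.card_pos.1 (by omega)
    have e0 := ih' F0 hF0S
    have e1 := ih' F1 hF1S
    -- traces
    have t0 : ∀ i ∈ I, x ∉ C i → (F0.image (· ∩ C i)).card ≤ (𝓕.image (· ∩ C i)).card := by
      intro i _ _
      exact Finset.card_le_card (Finset.image_subset_image (Finset.filter_subset _ _))
    have t1 : ∀ i ∈ I, x ∉ C i → (F1.image (· ∩ C i)).card ≤ (𝓕.image (· ∩ C i)).card := by
      intro i _ hi
      refine Finset.card_le_card ?_
      intro G hG
      rw [Finset.mem_image] at hG ⊢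
      obtain ⟨H, hH, rfl⟩ := hG
      rw [hF1, Finset.mem_image] at hH
      obtain ⟨H', hH', rfl⟩ := hH
      refine ⟨H', (Finset.mem_filter.1 hH').1, ?_⟩
      ext y
      simp only [Finset.mem_inter, Finset.mem_erase]
      constructor
      · rintro ⟨h1, h2⟩
        exact ⟨⟨fun h => hi (h ▸ h2), h1⟩, h2⟩
      · rintro ⟨⟨_, h1⟩, h2⟩
        exact ⟨h1, h2⟩
    have t2 : ∀ i ∈ J, (F0.image (· ∩ C i)).card + (F1.image (· ∩ C i)).card
        ≤ (𝓕.image (· ∩ C i)).card := by
      intro i hi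
      have hxi : x ∈ C i := (Finset.mem_filter.1 hi).2
      have hdis : Disjoint (F0.image (· ∩ C i)) ((F1.image (· ∩ C i)).image (insert x)) := by
        rw [Finset.disjoint_left]
        intro G hG hG'
        rw [Finset.mem_image] at hG hG'
        obtain ⟨H, hH, rfl⟩ := hG
        obtain ⟨H', _, hH'⟩ := hG'
        have : x ∈ H ∩ C i := by rw [← hH']; exact Finset.mem_insert_self _ _
        exact (Finset.mem_filter.1 hH).2 (Finset.mem_inter.1 this).1
      have hci : ((F1.image (· ∩ C i)).image (insert x)).card = (F1.image (· ∩ C i)).card := by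
        refine Finset.card_image_of_injOn ?_
        intro G hG G' hG' h
        have hx1 : x ∉ G := by
          obtain ⟨H, hH, rfl⟩ := Finset.mem_image.1 hG
          obtain ⟨H', _, rfl⟩ := Finset.mem_image.1 hH
          simp
        have hx2 : x ∉ G' := by
          obtain ⟨H, hH, rfl⟩ := Finset.mem_image.1 hG'
          obtain ⟨H', _, rfl⟩ := Finset.mem_image.1 hH
          simp
        have h' : insert x G = insert x G' := h
        rw [← Finset.erase_insert hx1, ← Finset.erase_insert hx2, h']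
      rw [← hci, ← Finset.card_union_of_disjoint hdis]
      refine Finset.card_le_card (Finset.union_subset ?_ ?_)
      · exact Finset.image_subset_image (Finset.filter_subset _ _)
      · intro G hG
        rw [Finset.mem_image] at hG
        obtain ⟨H, hH, rfl⟩ := hG
        obtain ⟨H', hH', rfl⟩ := Finset.mem_image.1 hH
        obtain ⟨H'', hH'', rfl⟩ := Finset.mem_image.1 hH'
        rw [Finset.mem_image]
        refine ⟨H'', (Finset.mem_filter.1 hH'').1, ?_⟩
        have hx'' := (Finset.mem_filter.1 hH'').2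
        ext y
        simp only [Finset.mem_inter, Finset.mem_insert, Finset.mem_erase]
        constructor
        · rintro ⟨h1, h2⟩
          by_cases hy : y = x
          · exact Or.inl hy
          · exact Or.inr ⟨⟨hy, h1⟩, h2⟩
        · rintro (rfl | ⟨⟨_, h1⟩, h2⟩)
          · exact ⟨hx'', hxi⟩
          · exact ⟨h1, h2⟩
    have split : ∀ f : ι → ℝ, ∏ i ∈ I, f i
        = (∏ i ∈ I.filter (fun i => x ∉ C i), f i) * ∏ i ∈ J, f i := by
      intro f
      rw [hJ, mul_comm, Finset.prod_filter_mul_prod_filter_not]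
    have e0' : (F0.card : ℝ) ^ J.card ≤
        (∏ i ∈ I.filter (fun i => x ∉ C i), ((𝓕.image (· ∩ C i)).card : ℝ))
          * ∏ i ∈ J, ((F0.image (· ∩ C i)).card : ℝ) := by
      rw [hJk]
      have : (F0.card : ℝ) ^ k ≤ ∏ i ∈ I, ((F0.image (· ∩ C i)).card : ℝ) := by
        exact_mod_cast e0
      refine this.trans ?_
      rw [split]
      refine mul_le_mul_of_nonneg_right (Finset.prod_le_prod (fun _ _ => Nat.cast_nonneg _) ?_)
        (Finset.prod_nonneg fun _ _ => Nat.cast_nonneg _)
      intro i hi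
      rw [Finset.mem_filter] at hi
      exact_mod_cast t0 i hi.1 hi.2
    have e1' : (F1.card : ℝ) ^ J.card ≤
        (∏ i ∈ I.filter (fun i => x ∉ C i), ((𝓕.image (· ∩ C i)).card : ℝ))
          * ∏ i ∈ J, ((F1.image (· ∩ C i)).card : ℝ) := by
      rw [hJk]
      have : (F1.card : ℝ) ^ k ≤ ∏ i ∈ I, ((F1.image (· ∩ C i)).card : ℝ) := by
        exact_mod_cast e1
      refine this.trans ?_
      rw [split]
      refine mul_le_mul_of_nonneg_right (Finset.prod_le_prod (fun _ _ => Nat.cast_nonneg _) ?_)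
        (Finset.prod_nonneg fun _ _ => Nat.cast_nonneg _)
      intro i hi
      rw [Finset.mem_filter] at hi
      exact_mod_cast t1 i hi.1 hi.2
    have e2 := add_pow_le_prod J hJne _ _ (fun _ _ => Nat.cast_nonneg _)
      (fun _ _ => Nat.cast_nonneg _) _ _ _ (Finset.prod_nonneg fun _ _ => Nat.cast_nonneg _)
      (Nat.cast_nonneg _) (Nat.cast_nonneg _) e0' e1'
    have e3 : ((𝓕.card : ℝ)) ^ k ≤ ∏ i ∈ I, ((𝓕.image (· ∩ C i)).card : ℝ) := by
      rw [hcard, Nat.cast_add, ← hJk, split]
      refine e2.trans (mul_le_mul_of_nonneg_left (Finset.prod_le_prod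
        (fun _ _ => add_nonneg (Nat.cast_nonneg _) (Nat.cast_nonneg _)) ?_)
        (Finset.prod_nonneg fun _ _ => Nat.cast_nonneg _))
      intro i hi
      exact_mod_cast t2 i hi
    exact_mod_cast e3

end H34W
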