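import Pool.Agent.H34W.Fam

/-!
# The lower bound from sparse paving families
-/

set_option autoImplicit false

namespace H34W

open Finset

/-- the `r`-sets whose element sum is `a` modulo `n` -/
def code (n r a : ℕ) : Finset (Finset (Fin n)) :=
  ((univ : Finset (Fin n)).powersetCard r).filter fun B => (∑ i ∈ B, (i : ℕ)) % n = a

lemma exch_sdiff (n r a : ℕ) (S : Finset (Finset (Fin n))) (hS : S ⊆ code n r a) :
    Exch ((univ : Finset (Fin n)).powersetCard r \ S) := by
  classical
  intro B₁ h1 B₂ h2 x hx1 hx2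
  rw [Finset.mem_sdiff, Finset.mem_powersetCard] at h1 h2
  by_contra hcon
  push Not at hcon
  have hcard : ∀ y, y ∉ B₁ → (insert y (B₁.erase x)).card = r := by
    intro y hy
    rw [Finset.card_insert_of_notMem (fun h => hy (Finset.mem_of_mem_erase h)),
      Finset.card_erase_of_mem hx1, ← h1.1.2]
    have : 0 < B₁.card := Finset.card_pos.2 ⟨x, hx1⟩
    omega
  have hall : ∀ y ∈ B₂, y ∉ B₁ → insert y (B₁.erase x) ∈ S := by
    intro y hy2 hy1
    have := hcon y hy2 hy1
    rw [Finset.mem_sdiff, not_and_or, not_not] at this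
    rcases this with h | h
    · exact absurd (Finset.mem_powersetCard.2 ⟨Finset.subset_univ _, hcard y hy1⟩) h
    · exact h
  have hsd : (B₂ \ B₁).card = (B₁ \ B₂).card := by
    have e1 := Finset.card_sdiff_add_card_inter B₁ B₂
    have e2 := Finset.card_sdiff_add_card_inter B₂ B₁
    rw [Finset.inter_comm] at e2
    omega
  have hpos : 0 < (B₂ \ B₁).card := by
    rw [hsd]
    exact Finset.card_pos.2 ⟨x, Finset.mem_sdiff.2 ⟨hx1, hx2⟩⟩
  obtain ⟨y, hy⟩ := Finset.card_pos.1 hpos
  rw [Finset.mem_sdiff] at hy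
  have huniq : ∀ z ∈ B₂, z ∉ B₁ → z = y := by
    intro z hz2 hz1
    have a1 := hS (hall y hy.1 hy.2)
    have a2 := hS (hall z hz2 hz1)
    rw [code, Finset.mem_filter] at a1 a2
    have s1 := a1.2
    have s2 := a2.2
    rw [Finset.sum_insert (fun h => hy.2 (Finset.mem_of_mem_erase h))] at s1
    rw [Finset.sum_insert (fun h => hz1 (Finset.mem_of_mem_erase h))] at s2
    have h3 : (z : ℕ) + ∑ i ∈ B₁.erase x, (i : ℕ) ≡ (y : ℕ) + ∑ i ∈ B₁.erase x, (i : ℕ) [MOD n] := by
      rw [Nat.ModEq, s1, s2]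
    have h4 : (z : ℕ) ≡ (y : ℕ) [MOD n] := Nat.ModEq.add_right_cancel' _ h3
    have h5 : (z : ℕ) = y := by
      have := Nat.ModEq.eq_of_lt_of_lt h4 z.2 y.2
      exact this
    exact Fin.ext h5
  have hone : (B₂ \ B₁) = {y} := by
    ext z
    rw [Finset.mem_sdiff, Finset.mem_singleton]
    constructor
    · rintro ⟨a, b⟩; exact huniq z a b
    · rintro rfl; exact hy
  have hone' : (B₁ \ B₂) = {x} := by
    have h6 : (B₁ \ B₂).card = 1 := by rw [← hsd, hone, Finset.card_singleton]
    obtain ⟨w, hw⟩ := Finset.card_eq_one.1 h6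
    have : x ∈ B₁ \ B₂ := Finset.mem_sdiff.2 ⟨hx1, hx2⟩
    rw [hw, Finset.mem_singleton] at this
    rw [hw, this]
  have heq : insert y (B₁.erase x) = B₂ := by
    ext z
    rw [Finset.mem_insert, Finset.mem_erase]
    constructor
    · rintro (rfl | ⟨h7, h8⟩)
      · exact hy.1
      · by_contra h9
        have : z ∈ B₁ \ B₂ := Finset.mem_sdiff.2 ⟨h8, h9⟩
        rw [hone', Finset.mem_singleton] at this
        exact h7 this
    · intro hz
      by_cases h8 : z ∈ B₁
      · right
        exact ⟨fun h => hx2 (h ▸ hz), h8⟩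
      · left
        exact huniq z hz h8
  exact h2.2 (heq ▸ hall y hy.1 hy.2)

theorem exists_two_pow_le (n r : ℕ) (hn : 0 < n) :
    ∃ q : ℕ, n.choose r ≤ n * q ∧ 2 ^ q ≤ M n r := by
  classical
  obtain ⟨a, ha⟩ : ∃ a, n.choose r ≤ n * (code n r a).card := by
    by_contra hcon
    push Not at hcon
    have h1 : ∑ a ∈ range n, (code n r a).card = n.choose r := by
      have h2 := Finset.card_eq_sum_card_fiberwise
        (s := (univ : Finset (Fin n)).powersetCard r) (t := range n)
        (f := fun B : Finset (Fin n) => (∑ i ∈ B, (i : ℕ)) % n) (by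
          intro B _
          exact Finset.mem_coe.2 (Finset.mem_range.2 (Nat.mod_lt _ hn)))
      rw [Finset.card_powersetCard, Finset.card_univ, Fintype.card_fin] at h2
      rw [h2]
      rfl
    have h3 : ∑ a ∈ range n, n * (code n r a).card < ∑ _a ∈ range n, n.choose r := by
      refine Finset.sum_lt_sum_of_nonempty ⟨0, Finset.mem_range.2 hn⟩ fun a _ => hcon a
    rw [← Finset.mul_sum, h1, Finset.sum_const, Finset.card_range, smul_eq_mul] at h3
    exact lt_irrefl _ h3
  refine ⟨_, ha, ?_⟩
  rw [← Finset.card_powerset, M]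
  refine Finset.card_le_card_of_injOn
    (fun S => (univ : Finset (Fin n)).powersetCard r \ S) ?_ ?_
  · intro S hS
    rw [Finset.mem_coe, Finset.mem_powerset] at hS
    rw [Finset.mem_coe, mem_Fam]
    exact ⟨fun B hB => (Finset.mem_powersetCard.1 (Finset.mem_sdiff.1 hB).1).2,
      exch_sdiff n r a S hS⟩
  · intro S hS T hT h
    rw [Finset.mem_coe, Finset.mem_powerset] at hS hT
    have hS' : S ⊆ (univ : Finset (Fin n)).powersetCard r := hS.trans (Finset.filter_subset _ _)
    have hT' : T ⊆ (univ : Finset (Fin n)).powersetCard r := hT.trans (Finset.filter_subset _ _)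
    have h' : (univ : Finset (Fin n)).powersetCard r \ S
        = (univ : Finset (Fin n)).powersetCard r \ T := h
    rw [← Finset.sdiff_sdiff_eq_self hS', ← Finset.sdiff_sdiff_eq_self hT', h']

/-- the normalised logarithm is at least `log 2 / n` -/
theorem log_two_div_le_G {n r : ℕ} (hn : 0 < n) (hr : r ≤ n) : Real.log 2 / n ≤ G n r := by
  obtain ⟨q, hq, hM⟩ := exists_two_pow_le n r hn
  have hc : (0 : ℝ) < n.choose r := by exact_mod_cast Nat.choose_pos hr
  have hn' : (0 : ℝ) < n := by exact_mod_cast hn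
  rw [G, div_le_div_iff₀ hn' hc]
  have h1 : (q : ℝ) * Real.log 2 ≤ Real.log (M n r) := by
    rw [← Real.log_pow]
    exact Real.log_le_log (by positivity) (by exact_mod_cast hM)
  have h2 : (n.choose r : ℝ) ≤ n * q := by exact_mod_cast hq
  have h3 : 0 < Real.log 2 := Real.log_pos (by norm_num)
  nlinarith

theorem log_two_div_le_hh {n : ℕ} (hn : 0 < n) : Real.log 2 / n ≤ hh n :=
  log_two_div_le_G hn (by omega)

theorem hh_pos (n : ℕ) : 0 < hh n := by
  refine lt_of_lt_of_le ?_ (hh_antitone (Nat.le_succ n))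
  refine lt_of_lt_of_le ?_ (log_two_div_le_hh (Nat.succ_pos n))
  have h3 : 0 < Real.log 2 := Real.log_pos (by norm_num)
  positivity

end H34W
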