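import Pool.Agent.H34W.Fib
import Pool.Agent.H34W.Ana
import Pool.Agent.H34W.Main

/-!
# The upper bound for the middle value
-/

set_option autoImplicit false

namespace H34W

open Finset Filter

lemma choose_far {n t : ℕ} (hn : 1 ≤ n) (ht : t ≤ n / 2)
    (h : ((n : ℝ) + 1) * Real.log n ≤ (t : ℝ) ^ 2) :
    (n : ℝ) ^ 2 * n.choose (n / 2 - t) ≤ n.choose (n / 2) := by
  have h1 := log_choose_gap (n := n) t ht
  have hn0 : (0 : ℝ) < n := by exact_mod_cast hn
  have hn1 : (0 : ℝ) < (n : ℝ) + 1 := by positivity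
  have hc1 : (0 : ℝ) < n.choose (n / 2 - t) := by
    exact_mod_cast Nat.choose_pos ((Nat.sub_le _ _).trans (Nat.div_le_self n 2))
  have hc2 : (0 : ℝ) < n.choose (n / 2) := by
    exact_mod_cast Nat.choose_pos (Nat.div_le_self n 2)
  have hd : (0 : ℝ) ≤ (n : ℝ) - 2 * ((n / 2 : ℕ) : ℝ) := by
    have h2 : 2 * (n / 2) ≤ n := Nat.mul_div_le n 2
    have h3 : ((2 * (n / 2) : ℕ) : ℝ) ≤ n := by exact_mod_cast h2
    push_cast at h3 ⊢
    linarith
  have h4 : 2 * Real.log n ≤ 2 * (t : ℝ) * ((n : ℝ) - 2 * ((n / 2 : ℕ) : ℝ) + t) / (n + 1) := by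
    rw [le_div_iff₀ hn1]
    have ht0 : (0 : ℝ) ≤ t := Nat.cast_nonneg t
    nlinarith [mul_nonneg ht0 hd]
  have h5 : Real.log ((n : ℝ) ^ 2 * n.choose (n / 2 - t)) ≤ Real.log (n.choose (n / 2)) := by
    rw [Real.log_mul (by positivity) hc1.ne', Real.log_pow]
    push_cast
    linarith
  exact (Real.log_le_log_iff (by positivity) hc2).1 h5

lemma choose_far' {n L : ℕ} (hn : 1 ≤ n) (hL1 : 1 ≤ L) (hL : L ≤ n / 2)
    (h : ((n : ℝ) + 1) * Real.log n ≤ ((L : ℝ) - 1) ^ 2) :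
    (n : ℝ) ^ 2 * n.choose (n / 2 - L) ≤ n.choose (n / 2) ∧
      (n : ℝ) ^ 2 * n.choose (n / 2 + L) ≤ n.choose (n / 2) := by
  have hL1' : (1 : ℝ) ≤ L := by exact_mod_cast hL1
  have h2 : ((n : ℝ) + 1) * Real.log n ≤ (L : ℝ) ^ 2 := by
    refine h.trans ?_
    nlinarith
  have h3 : ((n : ℝ) + 1) * Real.log n ≤ ((L - 1 : ℕ) : ℝ) ^ 2 := by
    rw [Nat.cast_sub hL1]
    push_cast
    exact h
  refine ⟨choose_far hn hL h2, ?_⟩
  rcases Nat.even_or_odd' n with ⟨k, hk | hk⟩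
  · have h4 := choose_far hn hL h2
    have h5 : n.choose (n / 2 + L) = n.choose (n / 2 - L) := by
      rw [← Nat.choose_symm (by omega : n / 2 + L ≤ n)]
      congr 1
      omega
    rw [h5]
    exact h4
  · have h4 := choose_far hn (by omega : L - 1 ≤ n / 2) h3
    have h5 : n.choose (n / 2 + L) = n.choose (n / 2 - (L - 1)) := by
      rw [← Nat.choose_symm (by omega : n / 2 + L ≤ n)]
      congr 1
      omega
    rw [h5]
    exact h4

lemma log_M_bound {n L : ℕ} (hn : 2 ≤ n) (hL1 : 1 ≤ L) (hL : L ≤ n / 2)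
    (hfar : ((n : ℝ) + 1) * Real.log n ≤ ((L : ℝ) - 1) ^ 2)
    (hCn : n ^ 2 ≤ n.choose (n / 2)) (ε : ℝ) (hε : 0 < ε) :
    n * hh n ≤ 2 * (1 + ε) * Real.log 2 + (2 * Real.log 2 + 1) / n +
      (2 * L + 2) * Real.log n / n + 8 * (L + 1) * Real.log n ^ 2 * ((1 + ε) / ε) / n := by
  obtain ⟨hf1, hf2⟩ := choose_far' (by omega) hL1 hL hfar
  have hn0 : (0 : ℝ) < n := by exact_mod_cast (by omega : 0 < n)
  have hn2 : (2 : ℝ) ≤ n := by exact_mod_cast hn
  set r := n / 2 with hr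
  have hr1 : 1 ≤ r := by omega
  have hrn : r ≤ n := by omega
  set C : ℝ := ((n.choose r : ℕ) : ℝ) with hC
  have hCpos : 0 < C := by rw [hC]; exact_mod_cast Nat.choose_pos hrn
  have hCn' : (n : ℝ) ^ 2 ≤ C := by rw [hC]; exact_mod_cast hCn
  set s1 : ℝ := ((n - r + 1 : ℕ) : ℝ) with hs1
  have hs1a : (n : ℝ) ≤ 2 * s1 := by
    rw [hs1]
    exact_mod_cast (by omega : n ≤ 2 * (n - r + 1))
  have hs1b : s1 ≤ n := by
    rw [hs1]
    exact_mod_cast (by omega : n - r + 1 ≤ n)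
  have hs1pos : 0 < s1 := by linarith
  have hrpos : (1 : ℝ) ≤ r := by exact_mod_cast hr1
  have hrleR : (r : ℝ) ≤ n := by exact_mod_cast hrn
  have hrs : (n : ℝ) ^ 2 / 4 ≤ r * s1 := by
    have h1 : n ^ 2 ≤ 4 * (r * (n - r + 1)) := by
      rcases Nat.even_or_odd' n with ⟨k, hk | hk⟩
      · have h2 : r = k := by omega
        have h3 : n - r + 1 = k + 1 := by omega
        rw [h3, h2, hk]
        nlinarith
      · have h2 : r = k := by omega
        have h3 : n - r + 1 = k + 2 := by omega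
        rw [h3, h2, hk]
        have hk1 : 1 ≤ k := by omega
        nlinarith
    have h2 : ((n ^ 2 : ℕ) : ℝ) ≤ ((4 * (r * (n - r + 1)) : ℕ) : ℝ) := by exact_mod_cast h1
    rw [Nat.cast_pow, Nat.cast_mul, Nat.cast_mul, ← hs1] at h2
    push_cast at h2
    linarith
  set κ : ℝ := (r : ℝ) * s1 * ε / ((1 + ε) * C) with hκ
  have hκpos : 0 < κ := by positivity
  have hκ1 : κ ≤ 1 := by
    rw [hκ, div_le_one (by positivity)]
    have h1 : (r : ℝ) * s1 ≤ C := by
      refine le_trans ?_ hCn'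
      rw [sq]
      exact mul_le_mul hrleR hs1b hs1pos.le hn0.le
    nlinarith
  set x : ℝ := 1 / (n : ℝ) ^ 2 with hx
  have hxpos : 0 < x := by positivity
  have hx1 : x ≤ 1 := by
    rw [hx, div_le_one (by positivity)]
    nlinarith
  set P : ℝ := ((n ^ (2 * L) : ℕ) : ℝ) with hP
  have hP1 : 1 ≤ P := by
    rw [hP]
    exact_mod_cast Nat.one_le_pow _ _ (by omega)
  have hPx1 : 1 ≤ P / x := (one_le_div hxpos).2 (hx1.trans hP1)
  have hPxlog : Real.log (P / x) = (2 * L + 2) * Real.log n := by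
    rw [Real.log_div (by positivity) (by positivity), hP, hx, one_div, Real.log_inv, Nat.cast_pow,
      Real.log_pow, Real.log_pow]
    push_cast
    ring
  set γ : ℝ := Real.log (P / x) / κ with hγ
  have hγ0 : 0 ≤ γ := div_nonneg (Real.log_nonneg hPx1) hκpos.le
  have hγκ : (1 - κ) ^ γ ≤ x / P := by
    have h1 : (1 - κ) ^ γ ≤ (Real.exp (-κ)) ^ γ :=
      Real.rpow_le_rpow (by linarith) (Real.one_sub_le_exp_neg κ) hγ0
    refine h1.trans (le_of_eq ?_)
    rw [← Real.exp_mul, hγ]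
    have h2 : -κ * (Real.log (P / x) / κ) = -Real.log (P / x) := by
      field_simp
    rw [h2, ← Real.log_inv, inv_div, Real.exp_log (by positivity)]
  have hM := M_bound (n := n) (r := r) (L := L) hn hr1 hL (by omega) ε κ x γ hε hxpos hx1 hγ0
    hκ hκ1 hγκ
  rw [← hC, ← hs1, ← hP] at hM
  have hMpos : (0 : ℝ) < M n r := by exact_mod_cast M_pos n r
  have hlog := Real.log_le_log hMpos hM
  have hlogn : 0 ≤ Real.log n := Real.log_nonneg (by linarith)
  have hl2 : 0 < Real.log 2 := Real.log_pos (by norm_num)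
  rw [Real.log_mul (by positivity) (by positivity), Real.log_mul (by positivity) (by positivity),
    Real.log_mul (by positivity) (by positivity), Real.log_mul (by positivity) (by positivity),
    Real.log_mul (by positivity) (by positivity), Real.log_pow, Real.log_pow, Real.log_pow,
    Real.log_rpow (by norm_num), Real.log_rpow hs1pos, ← hC] at hlog
  have e1 : ((n.choose (r - L) : ℕ) : ℝ) * Real.log 2 ≤ C / n ^ 2 * Real.log 2 := by
    refine mul_le_mul_of_nonneg_right ?_ hl2.le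
    rw [le_div_iff₀ (by positivity)]
    linarith
  have e2 : ((n.choose (r + L) : ℕ) : ℝ) * Real.log 2 ≤ C / n ^ 2 * Real.log 2 := by
    refine mul_le_mul_of_nonneg_right ?_ hl2.le
    rw [le_div_iff₀ (by positivity)]
    linarith
  have e3 : (1 + ε) * C / s1 * Real.log 2 ≤ 2 * (1 + ε) * C / n * Real.log 2 := by
    refine mul_le_mul_of_nonneg_right ?_ hl2.le
    rw [div_le_div_iff₀ hs1pos hn0]
    have : 0 ≤ (1 + ε) * C := by positivity
    nlinarith
  have e4 : C * Real.log (1 + x) ≤ C / n ^ 2 := by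
    have h1 : Real.log (1 + x) ≤ x := by
      have := Real.log_le_sub_one_of_pos (show 0 < 1 + x by linarith)
      linarith
    calc C * Real.log (1 + x) ≤ C * x := mul_le_mul_of_nonneg_left h1 hCpos.le
      _ = C / n ^ 2 := by rw [hx]; ring
  have e5 : Real.log (P / x) ≤ C / n ^ 2 * ((2 * L + 2) * Real.log n) := by
    rw [hPxlog]
    refine le_mul_of_one_le_left (by positivity) ?_
    rw [one_le_div (by positivity)]
    exact hCn'
  have e6 : γ * Real.log s1 ≤ C / n ^ 2 * (8 * (L + 1) * Real.log n ^ 2 * ((1 + ε) / ε)) := by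
    have h1 : Real.log s1 ≤ Real.log n := Real.log_le_log hs1pos hs1b
    have h2 : 1 / κ ≤ C / n ^ 2 * (4 * ((1 + ε) / ε)) := by
      rw [hκ, one_div_div, div_le_iff₀ (by positivity)]
      have h3 : C / n ^ 2 * (4 * ((1 + ε) / ε)) * (r * s1 * ε) =
        (1 + ε) * C * (r * s1 / (n ^ 2 / 4)) := by
        field_simp
      rw [h3]
      refine le_mul_of_one_le_right (by positivity) ?_
      rw [one_le_div (by positivity)]
      exact hrs
    have h3 : γ ≤ (2 * L + 2) * Real.log n * (C / n ^ 2 * (4 * ((1 + ε) / ε))) := by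
      rw [hγ, hPxlog, div_eq_mul_one_div]
      exact mul_le_mul_of_nonneg_left h2 (by positivity)
    calc γ * Real.log s1 ≤ γ * Real.log n := mul_le_mul_of_nonneg_left h1 hγ0
      _ ≤ ((2 * L + 2) * Real.log n * (C / n ^ 2 * (4 * ((1 + ε) / ε)))) * Real.log n :=
          mul_le_mul_of_nonneg_right h3 hlogn
      _ = C / n ^ 2 * (8 * (L + 1) * Real.log n ^ 2 * ((1 + ε) / ε)) := by ring
  have hfin : Real.log (M n r) ≤ C / n * (2 * (1 + ε) * Real.log 2 + (2 * Real.log 2 + 1) / n +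
      (2 * L + 2) * Real.log n / n + 8 * (L + 1) * Real.log n ^ 2 * ((1 + ε) / ε) / n) := by
    have h1 : C / n * (2 * (1 + ε) * Real.log 2 + (2 * Real.log 2 + 1) / n +
      (2 * L + 2) * Real.log n / n + 8 * (L + 1) * Real.log n ^ 2 * ((1 + ε) / ε) / n) =
      C / n ^ 2 * Real.log 2 + C / n ^ 2 * Real.log 2 + (2 * (1 + ε) * C / n * Real.log 2 +
        C / n ^ 2 + (C / n ^ 2 * ((2 * L + 2) * Real.log n) +
          C / n ^ 2 * (8 * (L + 1) * Real.log n ^ 2 * ((1 + ε) / ε)))) := by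
      field_simp
      ring
    rw [h1]
    linarith
  rw [hh, ← hr, G, ← hC]
  rw [mul_div_assoc', div_le_iff₀ hCpos]
  have h7 := mul_le_mul_of_nonneg_left hfin hn0.le
  refine h7.trans (le_of_eq ?_)
  field_simp

theorem hh_le (c : ℝ) (hc : 2 < c) :
    ∃ N₀ : ℕ, ∀ n : ℕ, N₀ ≤ n → hh n ≤ c * Real.log 2 / n := by
  obtain ⟨N₁, hN₁⟩ := eventually_pow 1 one_pos
  set ε : ℝ := (c - 2) / 4 with hε
  have hε0 : 0 < ε := by rw [hε]; linarith
  have hl2 : 0 < Real.log 2 := Real.log_pos (by norm_num)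
  have hl2' : Real.log 2 ≤ 1 := by
    have := Real.log_two_lt_d9
    linarith
  set K : ℝ := 3 + 8 + 40 * ((1 + ε) / ε) with hK
  have hK0 : 0 < K := by positivity
  -- eventual facts about `u = n ^ (1/16)`
  have ht : Tendsto (fun n : ℕ => (n : ℝ)) atTop atTop := tendsto_natCast_atTop_atTop
  have hu : Tendsto (fun n : ℕ => (n : ℝ) ^ (1 / 16 : ℝ)) atTop atTop :=
    (tendsto_rpow_atTop (by norm_num)).comp ht
  have hlo := (isLittleO_log_rpow_atTop (show (0 : ℝ) < 1 / 16 by norm_num)).comp_tendsto ht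
  have e1 : ∀ᶠ n : ℕ in atTop, Real.log n ≤ (n : ℝ) ^ (1 / 16 : ℝ) := by
    have := hlo.def (c := 1) one_pos
    filter_upwards [this] with n hn
    simp only [Function.comp, one_mul, Real.norm_eq_abs] at hn
    rw [abs_of_nonneg (by positivity : (0 : ℝ) ≤ (n : ℝ) ^ (1 / 16 : ℝ))] at hn
    exact (le_abs_self _).trans hn
  have e2 := hu.eventually_ge_atTop (max 4 (K / ((c - 2) / 2 * Real.log 2)))
  obtain ⟨N₂, hN₂⟩ := Filter.eventually_atTop.1 (e1.and e2)
  refine ⟨max (max N₁ N₂) 2, fun n hn => ?_⟩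
  have hn1 : N₁ ≤ n := (le_max_left _ _).trans ((le_max_left _ _).trans hn)
  have hn2 : N₂ ≤ n := (le_max_right _ _).trans ((le_max_left _ _).trans hn)
  have hn3 : 2 ≤ n := (le_max_right _ _).trans hn
  obtain ⟨hlogu, hu'⟩ := hN₂ n hn2
  set u : ℝ := (n : ℝ) ^ (1 / 16 : ℝ) with hudef
  have hu4 : 4 ≤ u := (le_max_left _ _).trans hu'
  have huK : K / ((c - 2) / 2 * Real.log 2) ≤ u := (le_max_right _ _).trans hu'
  have hn0 : (0 : ℝ) < n := by exact_mod_cast (by omega : 0 < n)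
  have hnu : (n : ℝ) = u ^ 16 := by
    rw [hudef, ← Real.rpow_natCast, ← Real.rpow_mul hn0.le]
    norm_num
  set L : ℕ := ⌈u ^ 12⌉₊ + 1 with hL
  have hL1 : u ^ 12 ≤ (L : ℝ) - 1 := by
    rw [hL]
    push_cast
    have := Nat.le_ceil (u ^ 12)
    linarith
  have hL2 : (L : ℝ) ≤ u ^ 12 + 2 := by
    rw [hL]
    push_cast
    have := Nat.ceil_lt_add_one (show 0 ≤ u ^ 12 by positivity)
    linarith
  have hu0 : 0 < u := by linarith
  have hu12 : 1 ≤ u ^ 12 := one_le_pow₀ (by linarith)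
  have hLn : L ≤ n / 2 := by
    rw [Nat.le_div_iff_mul_le (by norm_num)]
    have h1 : ((L * 2 : ℕ) : ℝ) ≤ n := by
      push_cast
      rw [hnu]
      have h2 : u ^ 16 = u ^ 12 * u ^ 4 := by ring
      have h3 : (256 : ℝ) ≤ u ^ 4 := by
        calc (256 : ℝ) = 4 ^ 4 := by norm_num
          _ ≤ u ^ 4 := pow_le_pow_left₀ (by norm_num) hu4 4
      rw [h2]
      nlinarith
    exact_mod_cast h1
  have hfar : ((n : ℝ) + 1) * Real.log n ≤ ((L : ℝ) - 1) ^ 2 := by
    have h1 : ((n : ℝ) + 1) * Real.log n ≤ (u ^ 16 + 1) * u := by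
      rw [← hnu]
      exact mul_le_mul_of_nonneg_left hlogu (by positivity)
    have h2 : (u ^ 16 + 1) * u ≤ u ^ 24 := by
      have h3 : 1 ≤ u ^ 16 := one_le_pow₀ (by linarith)
      have h4 : u ^ 24 = u ^ 16 * u * u ^ 7 := by ring
      have h5 : (2 : ℝ) ≤ u ^ 7 := by
        calc (2 : ℝ) ≤ 4 ^ 7 := by norm_num
          _ ≤ u ^ 7 := pow_le_pow_left₀ (by norm_num) hu4 7
      rw [h4]
      have h6 : 0 < u ^ 16 * u := by positivity
      nlinarith
    have h3 : u ^ 24 ≤ ((L : ℝ) - 1) ^ 2 := by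
      calc u ^ 24 = (u ^ 12) ^ 2 := by ring
        _ ≤ ((L : ℝ) - 1) ^ 2 := pow_le_pow_left₀ (by positivity) hL1 2
    linarith
  have hCn : n ^ 2 ≤ n.choose (n / 2) := by
    have h1 := hN₁ n hn1
    have h2 := two_pow_le_mul_choose n
    have h3 : n ^ 5 * 8 < 2 ^ n := by
      have : ((n ^ 5 * 8 : ℕ) : ℝ) < ((2 ^ n : ℕ) : ℝ) := by
        push_cast
        linarith
      exact_mod_cast this
    by_contra hcon
    push Not at hcon
    have h4 : n ^ 5 * 8 < (n + 1) * n ^ 2 := by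
      calc n ^ 5 * 8 < 2 ^ n := h3
        _ ≤ (n + 1) * n.choose (n / 2) := h2
        _ ≤ (n + 1) * n ^ 2 := Nat.mul_le_mul_left _ hcon.le
    have h5 : (n + 1) * n ^ 2 ≤ n ^ 5 * 8 := by
      have h6 : n + 1 ≤ n ^ 3 * 8 := by nlinarith [Nat.one_le_pow 2 n (by omega), Nat.one_le_pow 3 n (by omega), Nat.pow_le_pow_right (show 0 < n by omega) (show 1 ≤ 3 by norm_num)]
      calc (n + 1) * n ^ 2 ≤ (n ^ 3 * 8) * n ^ 2 := Nat.mul_le_mul_right _ h6
        _ = n ^ 5 * 8 := by ring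
    omega
  have hmain := log_M_bound hn3 (by omega) hLn hfar hCn ε hε0
  rw [le_div_iff₀ hn0, mul_comm]
  refine hmain.trans ?_
  have hlog0 : 0 ≤ Real.log n := Real.log_nonneg (by exact_mod_cast (by omega : 1 ≤ n))
  have hLs : (L : ℝ) + 1 ≤ 4 * u ^ 12 := by linarith
  have hi1 : (2 * Real.log 2 + 1) / (n : ℝ) ≤ 3 / u := by
    rw [hnu, div_le_div_iff₀ (by positivity) hu0]
    have h1 : u ≤ u ^ 16 := le_self_pow₀ (by linarith) (by norm_num)
    nlinarith
  have hi2 : (2 * (L : ℝ) + 2) * Real.log n / n ≤ 8 / u := by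
    have h1 : (2 * (L : ℝ) + 2) * Real.log n ≤ 8 * u ^ 12 * u :=
      mul_le_mul (by linarith) hlogu hlog0 (by positivity)
    rw [div_le_div_iff₀ hn0 hu0]
    have h2 : u ^ 14 ≤ u ^ 16 := pow_le_pow_right₀ (by linarith) (by norm_num)
    calc (2 * (L : ℝ) + 2) * Real.log n * u ≤ 8 * u ^ 12 * u * u :=
          mul_le_mul_of_nonneg_right h1 hu0.le
      _ = 8 * u ^ 14 := by ring
      _ ≤ 8 * u ^ 16 := by linarith
      _ = 8 * n := by rw [← hnu]
  have hi3 : 8 * ((L : ℝ) + 1) * Real.log n ^ 2 * ((1 + ε) / ε) / n ≤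
      40 * ((1 + ε) / ε) / u := by
    have h1 : 8 * ((L : ℝ) + 1) * Real.log n ^ 2 ≤ 32 * u ^ 12 * u ^ 2 := by
      refine mul_le_mul (by linarith) (pow_le_pow_left₀ hlog0 hlogu 2) (by positivity)
        (by positivity)
    rw [div_le_div_iff₀ hn0 hu0]
    have h2 : u ^ 15 ≤ u ^ 16 := pow_le_pow_right₀ (by linarith) (by norm_num)
    have h3 : 0 < (1 + ε) / ε := by positivity
    calc 8 * ((L : ℝ) + 1) * Real.log n ^ 2 * ((1 + ε) / ε) * u
        ≤ 32 * u ^ 12 * u ^ 2 * ((1 + ε) / ε) * u := by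
          refine mul_le_mul_of_nonneg_right ?_ hu0.le
          exact mul_le_mul_of_nonneg_right h1 h3.le
      _ = 32 * ((1 + ε) / ε) * u ^ 15 := by ring
      _ ≤ 40 * ((1 + ε) / ε) * u ^ 16 := by
          refine mul_le_mul ?_ h2 (by positivity) (by positivity)
          linarith
      _ = 40 * ((1 + ε) / ε) * n := by rw [← hnu]
  have hKu : K / u ≤ (c - 2) / 2 * Real.log 2 := by
    have h0 : 0 < (c - 2) / 2 * Real.log 2 := by
      have : 0 < (c - 2) / 2 := by linarith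
      positivity
    rw [div_le_iff₀ hu0]
    rw [div_le_iff₀ h0] at huK
    linarith
  have hKsum : K / u = 3 / u + 8 / u + 40 * ((1 + ε) / ε) / u := by
    rw [hK]; ring
  have hcc : 2 * (1 + ε) * Real.log 2 + (c - 2) / 2 * Real.log 2 = c * Real.log 2 := by
    rw [hε]; ring
  linarith

end H34W
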